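import Pool.Agent.Helper10.GWA.GCard

/-!
# A criterion for a finite module over `ℤ[i]` to be cyclic
-/

namespace GWA

theorem exists_prime_step {M : Type*} [AddCommGroup M] [Module GaussianInt M]
    (N : Submodule GaussianInt M) (c : GaussianInt) : c ≠ 0 → ∀ x : M, x ∉ N → c • x ∈ N →
    ∃ l : GaussianInt, Prime l ∧ ∃ x' : M, x' ∉ N ∧ l • x' ∈ N := by
  induction c using UniqueFactorizationMonoid.induction_on_prime with
  | h₁ => intro h; exact absurd rfl h
  | h₂ c hc =>
    intro _ x hx hcx
    exfalso
    apply hx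
    obtain ⟨u, rfl⟩ := hc
    have := N.smul_mem ((u⁻¹ : GaussianIntˣ) : GaussianInt) hcx
    rwa [← mul_smul, Units.inv_mul, one_smul] at this
  | h₃ a p ha hp ih =>
    intro _ x hx hcx
    by_cases hax : a • x ∈ N
    · exact ih ha x hx hax
    · exact ⟨p, hp, a • x, hax, by rwa [← mul_smul]⟩

theorem bezout {l β : GaussianInt} (hl : Prime l) (h : ¬ l ∣ β) : ∃ u v, u * l + v * β = 1 := by
  have : IsCoprime l β := (hl.irreducible.coprime_iff_not_dvd).2 h
  exact this

/-- criterion for a finite module to be cyclic -/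
theorem cyclic_of_tors {M : Type*} [AddCommGroup M] [Module GaussianInt M] [Finite M]
    (h : ∀ l : GaussianInt, Prime l → ∀ x y : M, l • x = 0 → l • y = 0 → y ≠ 0 →
      ∃ α : GaussianInt, x = α • y) :
    ∃ g : M, ∀ x : M, ∃ α : GaussianInt, x = α • g := by
  obtain ⟨N, ⟨⟨g, rfl⟩, hmax⟩⟩ := (Set.finite_range
    (fun g : M => Submodule.span GaussianInt {g})).exists_maximal (Set.range_nonempty _)
  refine ⟨g, ?_⟩
  by_contra hcon
  push Not at hcon
  obtain ⟨x₀, hx₀⟩ := hcon
  have hx₀' : x₀ ∉ Submodule.span GaussianInt {g} := by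
    rw [Submodule.mem_span_singleton]
    rintro ⟨α, hα⟩
    exact hx₀ α hα.symm
  have hmax' : ∀ g₁ : M, g ∈ Submodule.span GaussianInt {g₁} →
      Submodule.span GaussianInt {g₁} ≤ Submodule.span GaussianInt {g} := by
    intro g₁ hg₁
    apply hmax ⟨g₁, rfl⟩
    rwa [Submodule.span_singleton_le_iff_mem]
  have hcard : ((Nat.card M : ℕ) : GaussianInt) • x₀ = 0 := by
    have h1 : (Nat.card M) • x₀ = 0 := card_nsmul_eq_zero'
    rw [← h1]
    exact Nat.cast_smul_eq_nsmul GaussianInt _ _
  have hc0 : ((Nat.card M : ℕ) : GaussianInt) ≠ 0 := by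
    have : Nonempty M := ⟨0⟩
    exact Nat.cast_ne_zero.2 Nat.card_pos.ne'
  obtain ⟨l, hl, x, hx, hlx⟩ := exists_prime_step (Submodule.span GaussianInt {g}) _ hc0 x₀ hx₀'
    (by rw [hcard]; exact Submodule.zero_mem _)
  obtain ⟨β, hβ⟩ := Submodule.mem_span_singleton.1 hlx
  by_cases hlβ : l ∣ β
  · obtain ⟨β', rfl⟩ := hlβ
    set y := x - β' • g with hy
    have hly : l • y = 0 := by rw [hy, smul_sub, ← hβ, mul_smul, sub_self]
    have hyN : y ∉ Submodule.span GaussianInt {g} := by
      intro hmem
      apply hx
      have : x = y + β' • g := by rw [hy]; abel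
      rw [this]
      exact Submodule.add_mem _ hmem (Submodule.smul_mem _ _ (Submodule.mem_span_singleton_self g))
    have hy0 : y ≠ 0 := by
      intro h0
      apply hyN
      rw [h0]
      exact Submodule.zero_mem _
    have hinj : ∀ z ∈ Submodule.span GaussianInt {g}, l • z = 0 → z = 0 := by
      intro z hz hlz
      obtain ⟨δ, hδ⟩ := h l hl z y hlz hly hy0
      by_cases hd : l ∣ δ
      · obtain ⟨δ', rfl⟩ := hd
        rw [hδ, mul_comm, mul_smul, hly, smul_zero]
      · exfalso
        obtain ⟨u, v, huv⟩ := bezout hl hd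
        apply hyN
        have : y = v • z := by
          rw [hδ, ← mul_smul]
          calc y = (u * l + v * δ) • y := by rw [huv, one_smul]
            _ = (v * δ) • y := by rw [add_smul, mul_smul, hly, smul_zero, zero_add]
        rw [this]
        exact Submodule.smul_mem _ _ hz
    obtain ⟨z, hz⟩ : ∃ z : Submodule.span GaussianInt {g}, l • z =
        ⟨g, Submodule.mem_span_singleton_self g⟩ := by
      have hinj' : Function.Injective (fun z : Submodule.span GaussianInt {g} => l • z) := by
        intro z₁ z₂ h12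
        have h3 : l • (z₁ - z₂) = 0 := by
          rw [smul_sub]; exact sub_eq_zero.2 h12
        have h4 := hinj (z₁ - z₂ : Submodule.span GaussianInt {g}).1 (z₁ - z₂).2 (by
          have := congrArg Subtype.val h3
          simpa using this)
        exact sub_eq_zero.1 (Subtype.ext h4)
      exact (Finite.injective_iff_surjective.1 hinj') _
    obtain ⟨γ, hγ⟩ := Submodule.mem_span_singleton.1 z.2
    have hz' : l • γ • g = g := by
      rw [hγ]
      have := congrArg Subtype.val hz
      simpa using this
    have hg₁ : (1 - l * γ) • (g + y) = y := by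
      rw [smul_add, sub_smul, sub_smul, one_smul, one_smul, mul_smul, hz', sub_self, zero_add,
        mul_comm, mul_smul, hly, smul_zero, sub_zero]
    have hyg : y ∈ Submodule.span GaussianInt {g + y} :=
      Submodule.mem_span_singleton.2 ⟨_, hg₁⟩
    apply hyN
    apply hmax' (g + y) _ hyg
    have h1 := Submodule.sub_mem _ (Submodule.mem_span_singleton_self (g + y)) hyg
    rwa [add_sub_cancel_right] at h1
  · obtain ⟨u, v, huv⟩ := bezout hl hlβ
    apply hx
    apply hmax' (u • g + v • x)
    · apply Submodule.mem_span_singleton.2 ⟨l, ?_⟩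
      rw [smul_add, smul_comm l v x, ← hβ, ← mul_smul, ← mul_smul, ← add_smul, mul_comm l u, huv,
        one_smul]
    · apply Submodule.mem_span_singleton.2 ⟨β, ?_⟩
      rw [smul_add, ← mul_smul, ← mul_smul, mul_comm β u, mul_comm β v]
      have e1 : v * β = 1 - u * l := by rw [← huv]; ring
      rw [e1, sub_smul, one_smul, mul_smul u l, ← hβ, ← mul_smul]
      abel

theorem tors_of_card {M : Type*} [AddCommGroup M] [Module GaussianInt M] [Finite M]
    {l : GaussianInt} (hl : Prime l)
    (hc : Nat.card {x : M // l • x = 0} < l.norm.natAbs ^ 2) (x y : M) (hx : l • x = 0)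
    (hy : l • y = 0) (hy0 : y ≠ 0) : ∃ α : GaussianInt, x = α • y := by
  by_contra hcon
  push Not at hcon
  have hinj : ∀ δ ε : GaussianInt, δ • x = ε • y → l ∣ δ ∧ l ∣ ε := by
    intro δ ε h
    have h1 : l ∣ δ := by
      by_contra hd
      obtain ⟨u, v, huv⟩ := bezout hl hd
      apply hcon (v * ε)
      rw [mul_smul, ← h, ← mul_smul]
      calc x = (u * l + v * δ) • x := by rw [huv, one_smul]
        _ = (v * δ) • x := by rw [add_smul, mul_smul, hx, smul_zero, zero_add]
    refine ⟨h1, ?_⟩
    by_contra hd
    obtain ⟨u, v, huv⟩ := bezout hl hd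
    obtain ⟨δ', rfl⟩ := h1
    apply hy0
    calc y = (u * l + v * ε) • y := by rw [huv, one_smul]
      _ = 0 := by
        rw [add_smul, mul_smul, hy, smul_zero, zero_add, mul_smul, ← h, mul_comm l, mul_smul, hx,
          smul_zero, smul_zero]
  let Q := GaussianInt ⧸ Ideal.span {l}
  let Φ : Q × Q → {x : M // l • x = 0} := fun ab =>
    ⟨(Quotient.out ab.1 : GaussianInt) • x + (Quotient.out ab.2 : GaussianInt) • y, by
      rw [smul_add, smul_comm l, smul_comm l, hx, hy, smul_zero, smul_zero, add_zero]⟩
  have hmk : ∀ a b : Q, l ∣ (Quotient.out a : GaussianInt) - Quotient.out b → a = b := by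
    intro a b hab
    have ha : Ideal.Quotient.mk (Ideal.span {l}) (Quotient.out a) = a := Quotient.out_eq a
    have hb : Ideal.Quotient.mk (Ideal.span {l}) (Quotient.out b) = b := Quotient.out_eq b
    rw [← ha, ← hb, Ideal.Quotient.eq, Ideal.mem_span_singleton]
    exact hab
  have hΦ : Function.Injective Φ := by
    rintro ⟨a, b⟩ ⟨a', b'⟩ hab
    have h1 := congrArg Subtype.val hab
    change (Quotient.out a : GaussianInt) • x + (Quotient.out b : GaussianInt) • y =
      (Quotient.out a' : GaussianInt) • x + (Quotient.out b' : GaussianInt) • y at h1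
    have h2 : ((Quotient.out a : GaussianInt) - Quotient.out a') • x =
        ((Quotient.out b' : GaussianInt) - Quotient.out b) • y := by
      rw [sub_smul, sub_smul, sub_eq_sub_iff_add_eq_add, h1, add_comm]
    obtain ⟨h3, h4⟩ := hinj _ _ h2
    rw [Prod.mk.injEq]
    exact ⟨hmk _ _ h3, (hmk _ _ h4).symm⟩
  have h5 := Nat.card_le_card_of_injective Φ hΦ
  rw [Nat.card_prod, card_quot] at h5
  rw [sq] at hc
  omega

/-- maps which are two-to-one -/
theorem card_le_of_two {A B : Type*} [Finite B] (neg : A → A) (f : A → B)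
    (h : ∀ a a', f a = f a' → a = a' ∨ a = neg a') : Finite A ∧ Nat.card A ≤ 2 * Nat.card B := by
  classical
  by_cases hA : Nonempty A
  · have hinj : Function.Injective
        (fun a : A => ((f a, decide (a = Function.invFun f (f a))) : B × Bool)) := by
      intro a a' haa
      rw [Prod.mk.injEq] at haa
      obtain ⟨h1, h2⟩ := haa
      rw [← h1] at h2
      have h3 : f (Function.invFun f (f a)) = f a := Function.invFun_eq ⟨a, rfl⟩
      by_cases ha : a = Function.invFun f (f a)
      · have ha' : a' = Function.invFun f (f a) := by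
          rw [decide_eq_true ha] at h2
          exact of_decide_eq_true h2.symm
        exact ha.trans ha'.symm
      · have ha' : a' ≠ Function.invFun f (f a) := by
          rw [decide_eq_false ha] at h2
          exact of_decide_eq_false h2.symm
        rw [(h a _ h3.symm).resolve_left ha, (h a' _ (h1.symm.trans h3.symm)).resolve_left ha']
    refine ⟨Finite.of_injective _ hinj, ?_⟩
    have := Nat.card_le_card_of_injective _ hinj
    rw [Nat.card_prod, Nat.card_eq_fintype_card (α := Bool), Fintype.card_bool] at this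
    omega
  · rw [not_nonempty_iff] at hA
    exact ⟨inferInstance, by simp⟩

theorem card_eq_succ {M : Type*} [Zero M] [Finite {m : M // m ≠ 0}] :
    Finite M ∧ Nat.card M = Nat.card {m : M // m ≠ 0} + 1 := by
  classical
  have e : M ≃ Option {m : M // m ≠ 0} :=
    { toFun := fun m => if h : m = 0 then none else some ⟨m, h⟩
      invFun := fun o => o.elim 0 Subtype.val
      left_inv := by
        intro m
        by_cases h : m = 0
        · simp [h]
        · simp [h]
      right_inv := by
        rintro (_ | ⟨m, h⟩)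
        · simp
        · simp [h] }
  exact ⟨Finite.of_equiv _ e.symm, by rw [Nat.card_congr e, Finite.card_option]⟩

end GWA
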