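import Pool.Agent.Helper15.WA.Com

/-!
# Universal multiplication polynomials over `ℤ[i]`

For every nonzero `α : ℤ[i]` there are polynomials `U`, `V` over `ℤ[i]`, with `U` monic of degree
`N(α)` and `V` of degree `N(α) - 1` with leading coefficient `α ^ 2`, such that for every field
`K` which is a `ℤ[i]`-algebra, with `2 ≠ 0`, and every point `P ≠ 0` of `E d`, the pair
`(U(x), V(x))`, `x = nx P`, represents `nx (α • P)`.
-/

namespace GWA

open Polynomial

section field

variable {K : Type*} [Field K]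

/-- `(u : v)` represents `nx P` -/
def XR {d : K} (P : E d) (u v : K) : Prop :=
  (P = 0 ∧ v = 0 ∧ u ≠ 0) ∨ (P ≠ 0 ∧ v ≠ 0 ∧ nx P * v = u)

theorem XR.self {d : K} {P : E d} (hP : P ≠ 0) : XR P (nx P) 1 :=
  Or.inr ⟨hP, one_ne_zero, mul_one _⟩

theorem XR.scale {d : K} {P : E d} {u v c : K} (hc : c ≠ 0) : XR P (c * u) (c * v) ↔ XR P u v := by
  unfold XR
  constructor
  · rintro (⟨h1, h2, h3⟩ | ⟨h1, h2, h3⟩)
    · left
      exact ⟨h1, (mul_eq_zero.1 h2).resolve_left hc, (mul_ne_zero_iff.1 h3).2⟩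
    · right
      refine ⟨h1, (mul_ne_zero_iff.1 h2).2, ?_⟩
      apply mul_left_cancel₀ hc
      linear_combination h3
  · rintro (⟨h1, h2, h3⟩ | ⟨h1, h2, h3⟩)
    · left
      exact ⟨h1, by rw [h2, mul_zero], mul_ne_zero hc h3⟩
    · right
      refine ⟨h1, mul_ne_zero hc h2, ?_⟩
      linear_combination c * h3

theorem XR.neg {d : K} {P : E d} {u v : K} (h : XR P u v) : XR (-P) u v := by
  rcases h with ⟨h1, h2, h3⟩ | ⟨h1, h2, h3⟩
  · left; exact ⟨by rw [h1]; rfl, h2, h3⟩
  · right; exact ⟨neg_ne h1, h2, by rw [nx_neg]; exact h3⟩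

theorem XR.ne_zero {d : K} {P : E d} {u v : K} (h : XR P u v) : u ≠ 0 ∨ v ≠ 0 := by
  rcases h with ⟨h1, h2, h3⟩ | ⟨h1, h2, h3⟩
  · exact Or.inl h3
  · exact Or.inr h2

variable [DecidableEq K]

/-- differential addition -/
theorem XR.dif [NeZero (2 : K)] {d : K} (hd : d ≠ 0) {P₁ P₂ P : E d} {u₁ v₁ u₂ v₂ : K}
    (hP : P ≠ 0) (ht : nx P ≠ 0) (hdif : P₁ - P₂ = P) (h₁ : XR P₁ u₁ v₁) (h₂ : XR P₂ u₂ v₂) :
    XR (P₁ + P₂) ((u₁ * u₂ + v₁ * v₂) ^ 2) (nx P * (u₁ * v₂ - v₁ * u₂) ^ 2) := by
  rcases h₁ with ⟨e1, e2, e3⟩ | ⟨e1, e2, e3⟩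
  · have hP2 : P₂ = -P := by
      rw [← hdif, e1, zero_sub, neg_neg]
    rcases h₂ with ⟨f1, f2, f3⟩ | ⟨f1, f2, f3⟩
    · exfalso
      rw [f1] at hP2
      exact neg_ne hP hP2.symm
    · right
      rw [hP2, nx_neg] at f3
      subst e1
      subst e2
      rw [zero_add]
      refine ⟨f1, ?_, ?_⟩
      · have : u₁ * v₂ - 0 * u₂ = u₁ * v₂ := by ring
        rw [this]
        exact mul_ne_zero ht (pow_ne_zero 2 (mul_ne_zero e3 f2))
      · rw [hP2, nx_neg, ← f3]; ring
  · rcases h₂ with ⟨f1, f2, f3⟩ | ⟨f1, f2, f3⟩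
    · have hP1 : P₁ = P := by rw [← hdif, f1, sub_zero]
      right
      rw [hP1] at e3
      subst f1
      subst f2
      rw [add_zero]
      refine ⟨e1, ?_, ?_⟩
      · have : u₁ * 0 - v₁ * u₂ = -(v₁ * u₂) := by ring
        rw [this, neg_sq]
        exact mul_ne_zero ht (pow_ne_zero 2 (mul_ne_zero e2 f3))
      · rw [hP1, ← e3]; ring
    · by_cases hX : nx P₁ = nx P₂
      · rcases (nx_eq_iff hd e1 f1).1 hX with hh | hh
        · rw [hh, sub_self] at hdif
          exact absurd hdif.symm hP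
        · left
          refine ⟨by rw [hh, neg_add_cancel], ?_, ?_⟩
          · rw [← e3, ← f3, hX]; ring
          · have hdif2 : P₁ + P₁ = P := by
              rw [← hdif, sub_eq_add_neg, ← hh]
            have hf : ff (nx P₁) ≠ 0 := by
              intro h0
              have hy : yc P₁ = 0 := by
                by_contra hy
                exact (yc_ne_iff hd P₁).1 hy h0
              exact hP (by rw [← hdif2]; exact add_self_of_yc hy)
            obtain ⟨-, h2⟩ := nx_double hd e1 hf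
            rw [hdif2] at h2
            have h4 : (4 : K) ≠ 0 := by
              have : (4 : K) = 2 * 2 := by norm_num
              rw [this]; exact mul_ne_zero two_ne_zero two_ne_zero
            have h3 : nx P₁ ^ 2 + 1 ≠ 0 := by
              intro h0
              rw [h0] at h2
              exact (mul_ne_zero ht (mul_ne_zero h4 hf)) (by rw [h2]; ring)
            have h5 : u₁ * u₂ + v₁ * v₂ = v₁ * v₂ * (nx P₁ ^ 2 + 1) := by
              rw [← e3, ← f3, ← hX]; ring
            rw [h5]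
            exact pow_ne_zero 2 (mul_ne_zero (mul_ne_zero e2 f2) h3)
      · right
        obtain ⟨g1, -⟩ := nx_add hd e1 f1 hX
        have g2 := nx_add_mul hd e1 f1 hX
        rw [hdif] at g2
        refine ⟨g1, ?_, ?_⟩
        · apply mul_ne_zero ht
          apply pow_ne_zero
          have : u₁ * v₂ - v₁ * u₂ = v₁ * v₂ * (nx P₁ - nx P₂) := by rw [← e3, ← f3]; ring
          rw [this]
          exact mul_ne_zero (mul_ne_zero e2 f2) (sub_ne_zero.2 hX)
        · rw [← e3, ← f3]
          linear_combination (v₁ * v₂) ^ 2 * g2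

variable [Algebra GaussianInt K] [NeZero (2 : K)]

theorem XR.gi (d : Kˣ) {P : E (d : K)} {u v : K} (h : XR P u v) : XR (gi • P) (-u) v := by
  rcases h with ⟨h1, h2, h3⟩ | ⟨h1, h2, h3⟩
  · left
    exact ⟨by rw [h1, smul_zero], h2, neg_ne_zero.2 h3⟩
  · right
    refine ⟨gi_smul_ne d h1, h2, ?_⟩
    rw [nx_gi_smul, ← h3]; ring

theorem XR.lam (d : Kˣ) {P : E (d : K)} {u v : K} (h : XR P u v) :
    XR (lam • P) (u ^ 2 - v ^ 2) (2 * II K * u * v) := by
  rcases h with ⟨h1, h2, h3⟩ | ⟨h1, h2, h3⟩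
  · left
    refine ⟨by rw [h1, smul_zero], by rw [h2, mul_zero], ?_⟩
    rw [h2]
    have : u ^ 2 - 0 ^ 2 = u ^ 2 := by ring
    rw [this]
    exact pow_ne_zero 2 h3
  · by_cases h0 : nx P = 0
    · left
      rw [h0, zero_mul] at h3
      refine ⟨?_, by rw [← h3]; ring, ?_⟩
      · have : P = T₀ d.ne_zero := by
          apply eq_T₀_of_xc d.ne_zero h1
          rw [xc_eq d.ne_zero, h0, mul_zero]
        rw [this, lam_smul_T₀]
      · rw [← h3]
        have : (0 : K) ^ 2 - v ^ 2 = -v ^ 2 := by ring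
        rw [this]
        exact neg_ne_zero.2 (pow_ne_zero 2 h2)
    · right
      obtain ⟨h4, h5⟩ := nx_lam_smul d h1 h0
      refine ⟨h4, ?_, ?_⟩
      · rw [← h3]
        exact mul_ne_zero (mul_ne_zero (mul_ne_zero two_ne_zero II_ne) (mul_ne_zero h0 h2)) h2
      · rw [h5, ← h3]
        have hI : II K ≠ 0 := II_ne
        field_simp

end field

/-- the properties of the pair of polynomials describing `nx (α • P)`; `n` is the norm of `α` -/
structure MulPol (α : GaussianInt) (n : ℕ) (U V : GaussianInt[X]) : Prop where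
  degU : U.natDegree ≤ n
  topU : U.coeff n = 1
  degV : V.natDegree ≤ n - 1
  topV : V.coeff (n - 1) = α ^ 2
  zero : (n % 2 = 1 ∧ U.coeff 0 = 0 ∧ IsUnit (V.coeff 0)) ∨
    (n % 2 = 0 ∧ IsUnit (U.coeff 0) ∧ V.coeff 0 = 0)
  odd_sq : n % 2 = 1 → ∃ C : GaussianInt[X], (V = C ^ 2 ∨ V = -C ^ 2) ∧
    C.natDegree ≤ (n - 1) / 2
  rep : ∀ (K : Type) [Field K] [DecidableEq K] [Algebra GaussianInt K] [NeZero (2 : K)] (d : Kˣ)
    (P : E (d : K)), P ≠ 0 → XR (α • P) (aeval (nx P) U) (aeval (nx P) V)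

private theorem coeff_mul_top {p q : GaussianInt[X]} {m n k : ℕ} (hk : m + n = k)
    (hp : p.natDegree ≤ m) (hq : q.natDegree ≤ n) :
    (p * q).natDegree ≤ k ∧ (p * q).coeff k = p.coeff m * q.coeff n := by
  subst hk
  exact ⟨natDegree_mul_le.trans (add_le_add hp hq), coeff_mul_add_eq_of_natDegree_le hp hq⟩

private theorem coeff_lt {p : GaussianInt[X]} {m n : ℕ} (hp : p.natDegree ≤ m) (h : m < n) :
    p.coeff n = 0 := coeff_eq_zero_of_natDegree_lt (hp.trans_lt h)

theorem mulPol_one : MulPol 1 1 (Polynomial.X) 1 where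
  degU := by simp
  topU := by simp
  degV := by simp
  topV := by simp
  zero := Or.inl ⟨rfl, by simp, by simp⟩
  odd_sq := fun _ => ⟨1, by simp, by simp⟩
  rep := by
    intro K _ _ _ _ d P hP
    rw [one_smul]
    simpa using XR.self hP

theorem MulPol.neg {α : GaussianInt} {n : ℕ} {U V : GaussianInt[X]} (h : MulPol α n U V) :
    MulPol (-α) n U V where
  degU := h.degU
  topU := h.topU
  degV := h.degV
  topV := by rw [neg_sq]; exact h.topV
  zero := h.zero
  odd_sq := h.odd_sq
  rep := by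
    intro K _ _ _ _ d P hP
    rw [neg_smul]
    exact (h.rep K d P hP).neg

theorem mulPol_gi : MulPol gi 1 (Polynomial.X) (-1) where
  degU := by simp
  topU := by simp
  degV := by simp
  topV := by
    simp only [Nat.sub_self, coeff_neg, coeff_one_zero]
    decide
  zero := Or.inl ⟨rfl, by simp, by simp⟩
  odd_sq := fun _ => ⟨1, by simp, by simp⟩
  rep := by
    intro K _ _ _ _ d P hP
    have := (XR.self hP).gi d
    have h2 := (XR.scale (c := (-1 : K)) (by simp)).2 this
    simpa using h2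

theorem MulPol.lam {β : GaussianInt} {n : ℕ} (hn : 1 ≤ n) {U V : GaussianInt[X]}
    (h : MulPol β n U V) : MulPol (lam * β) (2 * n) (U ^ 2 - V ^ 2) (2 * C gi * (U * V)) := by
  obtain ⟨du2, tu2⟩ := coeff_mul_top (k := 2 * n) (by ring) h.degU h.degU
  obtain ⟨dv2, tv2⟩ := coeff_mul_top (k := 2 * n - 2) (by omega) h.degV h.degV
  obtain ⟨duv, tuv⟩ := coeff_mul_top (k := 2 * n - 1) (by omega) h.degU h.degV
  have e2 : (2 * C gi : GaussianInt[X]) = C (2 * gi) := by
    rw [C_mul]; rfl
  refine ⟨?_, ?_, ?_, ?_, ?_, fun h => by omega, ?_⟩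
  · refine (natDegree_sub_le_of_le (n := 2 * n) (m := 2 * n) ?_ ?_).trans (by simp)
    · rw [sq]; exact du2
    · rw [sq]; exact dv2.trans (by omega)
  · rw [coeff_sub, sq, tu2, sq, coeff_lt dv2 (by omega), h.topU]; simp
  · rw [e2]
    exact (natDegree_C_mul_le _ _).trans duv
  · rw [e2, coeff_C_mul, tuv, h.topU, h.topV, mul_pow]
    have : (GWA.lam : GaussianInt) ^ 2 = 2 * gi := by decide
    rw [this]; ring
  · right
    have hz : IsUnit ((U ^ 2 - V ^ 2).coeff 0) ∧ (2 * C gi * (U * V)).coeff 0 = 0 := by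
      rw [e2]
      simp only [coeff_sub, sq, mul_coeff_zero]
      rcases h.zero with ⟨-, h2, h3⟩ | ⟨-, h2, h3⟩
      · rw [h2]
        refine ⟨?_, by simp⟩
        simp only [mul_zero, zero_sub, IsUnit.neg_iff]
        exact h3.mul h3
      · rw [h3]
        refine ⟨?_, by simp⟩
        simp only [mul_zero, sub_zero]
        exact h2.mul h2
    exact ⟨by omega, hz.1, hz.2⟩
  · intro K _ _ _ _ d P hP
    rw [mul_smul]
    have := (h.rep K d P hP).lam d
    convert this using 1
    · simp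
    · simp only [map_mul, map_ofNat, aeval_C]
      change 2 * II K * _ = _
      ring

theorem smul_T₀_of_odd {K : Type} [Field K] [DecidableEq K] [Algebra GaussianInt K]
    [NeZero (2 : K)] (d : Kˣ) (α : GaussianInt) (h : (α.re + α.im) % 2 = 1) :
    α • T₀ d.ne_zero = T₀ d.ne_zero := by
  rw [smul_def, im_T₀, ← add_smul]
  obtain ⟨k, hk⟩ : ∃ k, α.re + α.im = 2 * k + 1 := ⟨(α.re + α.im) / 2, by omega⟩
  rw [hk, add_smul, mul_comm, mul_smul, two_zsmul, T₀_add_T₀, smul_zero, one_smul, zero_add]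

theorem MulPol.dif {α β γ u : GaussianInt} {m n k : ℕ} (hm : 1 ≤ m) (hn : 1 ≤ n)
    (hk : k + 1 = 2 * (m + n)) (hmn : (m + n) % 2 = 1)
    (hu : u = 1 ∨ u = gi) (hβ : β - γ = u) (hα : β + γ = α) (hodd : (α.re + α.im) % 2 = 1)
    {U V U₁ V₁ : GaussianInt[X]} (h : MulPol γ n U V) (h₁ : MulPol β m U₁ V₁) :
    ∃ U' V', MulPol α k U' V' := by
  have hdiv : (Polynomial.X : GaussianInt[X]) ∣ U₁ * U + V₁ * V := by
    rw [X_dvd_iff]
    simp only [coeff_add, mul_coeff_zero]
    rcases h.zero with ⟨a1, a2, a3⟩ | ⟨a1, a2, a3⟩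
    · rcases h₁.zero with ⟨b1, b2, b3⟩ | ⟨b1, b2, b3⟩
      · omega
      · rw [a2, b3]; simp
    · rcases h₁.zero with ⟨b1, b2, b3⟩ | ⟨b1, b2, b3⟩
      · rw [a3, b2]; simp
      · omega
  have hC0 : IsUnit ((U₁ * V - V₁ * U).coeff 0) := by
    simp only [coeff_sub, mul_coeff_zero]
    rcases h.zero with ⟨a1, a2, a3⟩ | ⟨a1, a2, a3⟩
    · rcases h₁.zero with ⟨b1, b2, b3⟩ | ⟨b1, b2, b3⟩
      · omega
      · rw [a2, b3]; simpa using b2.mul a3
    · rcases h₁.zero with ⟨b1, b2, b3⟩ | ⟨b1, b2, b3⟩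
      · rw [a3, b2]; simpa using b3.mul a2
      · omega
  obtain ⟨G, hG⟩ := hdiv
  obtain ⟨d1, t1⟩ := coeff_mul_top (k := m + n) rfl h₁.degU h.degU
  obtain ⟨d2, t2⟩ := coeff_mul_top (k := m + n - 2) (by omega) h₁.degV h.degV
  obtain ⟨d3, t3⟩ := coeff_mul_top (k := m + n - 1) (by omega) h₁.degU h.degV
  obtain ⟨d4, t4⟩ := coeff_mul_top (k := m + n - 1) (by omega) h₁.degV h.degU
  have hXG : (Polynomial.X * G).natDegree ≤ m + n := by
    rw [← hG]
    exact natDegree_add_le_of_degree_le d1 (d2.trans (by omega))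
  have hXGt : (Polynomial.X * G).coeff (m + n) = 1 := by
    rw [← hG, coeff_add, t1, coeff_lt d2 (by omega), h.topU, h₁.topU]
    ring
  have hGd : G.natDegree ≤ m + n - 1 := by
    by_cases hG0 : G = 0
    · rw [hG0]; simp
    · rw [natDegree_X_mul hG0] at hXG
      omega
  have hGt : G.coeff (m + n - 1) = 1 := by
    rw [← hXGt]
    have : m + n = (m + n - 1) + 1 := by omega
    conv_rhs => rw [this]
    rw [coeff_X_mul]
  set Cc := U₁ * V - V₁ * U with hCc
  have hCd : Cc.natDegree ≤ m + n - 1 :=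
    (natDegree_sub_le_of_le d3 d4).trans (by simp)
  have hCt : Cc.coeff (m + n - 1) = γ ^ 2 - β ^ 2 := by
    rw [hCc, coeff_sub, t3, t4, h.topU, h.topV, h₁.topU, h₁.topV]
    ring
  obtain ⟨dG2, tG2⟩ := coeff_mul_top (k := k - 1) (by omega) hGd hGd
  obtain ⟨dC2, tC2⟩ := coeff_mul_top (k := k - 1) (by omega) hCd hCd
  have hγ : γ ^ 2 - β ^ 2 = -(u * α) := by rw [← hβ, ← hα]; ring
  have hUd : (Polynomial.X * G ^ 2).natDegree ≤ k := by
    rw [sq G]
    refine natDegree_mul_le.trans ?_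
    have := natDegree_X_le (R := GaussianInt)
    omega
  have hUt : (Polynomial.X * G ^ 2).coeff k = 1 := by
    have : k = (k - 1) + 1 := by omega
    rw [this, coeff_X_mul, sq G, tG2, hGt]; ring
  have hkodd : k % 2 = 1 := by omega
  have hhalf : m + n - 1 ≤ (k - 1) / 2 := by omega
  -- the representation
  have rep0 : ∀ (K : Type) [Field K] [DecidableEq K] [Algebra GaussianInt K] [NeZero (2 : K)]
      (d : Kˣ) (P : E (d : K)), P ≠ 0 → nx P ≠ 0 →
      XR (α • P) ((nx P * aeval (nx P) G) ^ 2) (nx (u • P) * (aeval (nx P) Cc) ^ 2) := by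
    intro K _ _ _ _ d P hP h0
    have r1 := h₁.rep K d P hP
    have r2 := h.rep K d P hP
    have hdif : β • P - γ • P = u • P := by rw [← sub_smul, hβ]
    have hne : u • P ≠ 0 ∧ nx (u • P) ≠ 0 := by
      rcases hu with rfl | rfl
      · rw [one_smul]; exact ⟨hP, h0⟩
      · rw [nx_gi_smul]; exact ⟨gi_smul_ne d hP, neg_ne_zero.2 h0⟩
    have r3 := XR.dif d.ne_zero hne.1 hne.2 hdif r1 r2
    rw [← add_smul, hα] at r3
    have hGe := congrArg (aeval (nx P)) hG
    simp only [map_add, map_mul, aeval_X] at hGe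
    rw [hGe] at r3
    rw [hCc]
    simpa only [map_sub, map_mul] using r3
  have repT : ∀ (K : Type) [Field K] [DecidableEq K] [Algebra GaussianInt K] [NeZero (2 : K)]
      (d : Kˣ) (P : E (d : K)), P ≠ 0 → nx P = 0 → ∀ V' : GaussianInt[X], IsUnit (V'.coeff 0) →
      XR (α • P) (aeval (nx P) (Polynomial.X * G ^ 2)) (aeval (nx P) V') := by
    intro K _ _ _ _ d P hP h0 V' hV'
    have : P = T₀ d.ne_zero := by
      apply eq_T₀_of_xc d.ne_zero hP
      rw [xc_eq d.ne_zero, h0, mul_zero]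
    rw [h0]
    right
    subst this
    rw [smul_T₀_of_odd d α hodd]
    refine ⟨hP, ?_, ?_⟩
    · rw [← coeff_zero_eq_aeval_zero']
      exact (hV'.map (algebraMap GaussianInt K)).ne_zero
    · simp
  rcases hu with rfl | rfl
  · refine ⟨Polynomial.X * G ^ 2, Cc ^ 2, ⟨hUd, hUt, ?_, ?_, ?_, fun _ => ?_, ?_⟩⟩
    · rw [sq]; exact dC2
    · rw [sq, tC2, hCt, hγ]; ring
    · left
      refine ⟨hkodd, by simp, ?_⟩
      rw [sq, mul_coeff_zero]
      exact hC0.mul hC0
    · exact ⟨Cc, Or.inl rfl, hCd.trans hhalf⟩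
    · intro K _ _ _ _ d P hP
      by_cases h0 : nx P = 0
      · apply repT K d P hP h0
        rw [sq, mul_coeff_zero]
        exact hC0.mul hC0
      · have r := rep0 K d P hP h0
        rw [one_smul, show (nx P * aeval (nx P) G) ^ 2 = nx P * (nx P * aeval (nx P) G ^ 2) by ring,
          XR.scale h0] at r
        simpa using r
  · refine ⟨Polynomial.X * G ^ 2, -Cc ^ 2, ⟨hUd, hUt, ?_, ?_, ?_, fun _ => ?_, ?_⟩⟩
    · rw [natDegree_neg, sq]; exact dC2
    · rw [coeff_neg, sq, tC2, hCt, hγ]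
      have : gi ^ 2 = -1 := by decide
      linear_combination (-α ^ 2) * this
    · left
      refine ⟨hkodd, by simp, ?_⟩
      rw [coeff_neg, sq, mul_coeff_zero]
      exact (hC0.mul hC0).neg
    · exact ⟨Cc, Or.inr rfl, hCd.trans hhalf⟩
    · intro K _ _ _ _ d P hP
      by_cases h0 : nx P = 0
      · apply repT K d P hP h0
        rw [coeff_neg, sq, mul_coeff_zero]
        exact (hC0.mul hC0).neg
      · have r := rep0 K d P hP h0
        rw [nx_gi_smul,
          show (nx P * aeval (nx P) G) ^ 2 = nx P * (nx P * aeval (nx P) G ^ 2) by ring,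
          show -nx P * aeval (nx P) Cc ^ 2 = nx P * (-aeval (nx P) Cc ^ 2) by ring,
          XR.scale h0] at r
        simpa using r

/-- existence of the multiplication polynomials -/
theorem exists_mulPol : ∀ (n : ℕ) (α : GaussianInt), (n : ℤ) = α.re ^ 2 + α.im ^ 2 → 1 ≤ n →
    ∃ U V : GaussianInt[X], MulPol α n U V := by
  intro n
  induction n using Nat.strong_induction_on with
  | _ n ih =>
    intro α hα hn
    obtain ⟨a, b⟩ := α
    simp only at hα
    rcases Nat.even_or_odd' n with ⟨k, rfl | rfl⟩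
    · -- `n` even
      have hab : (a + b) % 2 = 0 := by
        have h1 : (a ^ 2 + b ^ 2) % 2 = 0 := by rw [← hα]; push_cast; omega
        have h2 : (a + b) ^ 2 = a ^ 2 + b ^ 2 + 2 * (a * b) := by ring
        have h3 : ((a + b) ^ 2) % 2 = 0 := by rw [h2]; omega
        rcases Int.emod_two_eq_zero_or_one (a + b) with h | h
        · exact h
        · exfalso
          rw [sq, Int.mul_emod, h] at h3
          norm_num at h3
      obtain ⟨s, hs⟩ : ∃ s, a + b = 2 * s := ⟨(a + b) / 2, by omega⟩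
      have hb : b = 2 * s - a := by omega
      subst hb
      have hk : (k : ℤ) = s ^ 2 + (s - a) ^ 2 := by
        push_cast at hα
        have : (2 : ℤ) * k = 2 * (s ^ 2 + (s - a) ^ 2) := by rw [hα]; ring
        omega
      obtain ⟨U, V, h⟩ := ih k (by omega) ⟨s, s - a⟩ hk (by omega)
      have h' := h.lam (by omega)
      have e : GWA.lam * (⟨s, s - a⟩ : GaussianInt) = ⟨a, 2 * s - a⟩ := by
        ext
        · simp [Zsqrtd.re_mul]
        · simp [Zsqrtd.im_mul]; ring
      rw [e] at h'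
      exact ⟨_, _, h'⟩
    · rcases Nat.eq_zero_or_pos k with rfl | hk
      · -- units
        simp only [mul_zero, zero_add, Nat.cast_one] at hα
        have ha : -1 ≤ a ∧ a ≤ 1 := by constructor <;> nlinarith [sq_nonneg b, sq_nonneg a]
        have hb : -1 ≤ b ∧ b ≤ 1 := by constructor <;> nlinarith [sq_nonneg b, sq_nonneg a]
        obtain ⟨ha1, ha2⟩ := ha
        obtain ⟨hb1, hb2⟩ := hb
        interval_cases a <;> interval_cases b <;> norm_num at hα
        · have := mulPol_one.neg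
          exact ⟨_, _, this⟩
        · have := mulPol_gi.neg
          exact ⟨_, _, this⟩
        · exact ⟨_, _, mulPol_gi⟩
        · exact ⟨_, _, mulPol_one⟩
      · -- odd
        have key : ∀ (u β γ : GaussianInt) (m n' : ℕ), (u = 1 ∨ u = gi) → β - γ = u →
            β + γ = (⟨a, b⟩ : GaussianInt) → (a + b) % 2 = 1 → (m : ℤ) = β.re ^ 2 + β.im ^ 2 →
            (n' : ℤ) = γ.re ^ 2 + γ.im ^ 2 → 1 ≤ m → 1 ≤ n' → 2 * k + 1 + 1 = 2 * (m + n') →
            (m + n') % 2 = 1 → ∃ U V : GaussianInt[X], MulPol (⟨a, b⟩ : GaussianInt) (2 * k + 1) U V := by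
          intro u β γ m n' hu h1 h2 h3 hm hn' hm1 hn1 hk1 hmn
          obtain ⟨U, V, h⟩ := ih n' (by omega) γ hn' hn1
          obtain ⟨U₁, V₁, h'⟩ := ih m (by omega) β hm hm1
          exact MulPol.dif hm1 hn1 hk1 hmn hu h1 h2 h3 h h'
        push_cast at hα
        have hpar : (a + b) % 2 = 1 := by
          have h1 : (a ^ 2 + b ^ 2) % 2 = 1 := by rw [← hα]; omega
          have h2 : (a + b) ^ 2 = a ^ 2 + b ^ 2 + 2 * (a * b) := by ring
          have h3 : ((a + b) ^ 2) % 2 = 1 := by rw [h2]; omega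
          rcases Int.emod_two_eq_zero_or_one (a + b) with h | h
          · exfalso
            rw [sq, Int.mul_emod, h] at h3
            norm_num at h3
          · exact h
        have pos : ∀ x y : ℤ, (x ≠ 0 ∨ y ≠ 0) → 0 < x ^ 2 + y ^ 2 := by
          intro x y h
          rcases h with h | h
          · have := sq_nonneg y
            have := sq_pos_of_ne_zero h
            omega
          · have := sq_nonneg x
            have := sq_pos_of_ne_zero h
            omega
        rcases Int.emod_two_eq_zero_or_one a with ha | ha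
        · obtain ⟨s, rfl⟩ : ∃ s, a = 2 * s := ⟨a / 2, by omega⟩
          obtain ⟨t, rfl⟩ : ∃ t, b = 2 * t + 1 := ⟨b / 2, by omega⟩
          have hm : ((s ^ 2 + (t + 1) ^ 2).toNat : ℤ) = s ^ 2 + (t + 1) ^ 2 :=
            Int.toNat_of_nonneg (by positivity)
          have hn' : ((s ^ 2 + t ^ 2).toNat : ℤ) = s ^ 2 + t ^ 2 :=
            Int.toNat_of_nonneg (by positivity)
          have e1 : (2 * (k : ℤ) + 1 + 1) = 2 * ((s ^ 2 + (t + 1) ^ 2) + (s ^ 2 + t ^ 2)) := by
            rw [hα]; ring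
          have e2 : (s ^ 2 + (t + 1) ^ 2) + (s ^ 2 + t ^ 2) = 2 * (s ^ 2 + t ^ 2 + t) + 1 := by
            ring
          have p1 : 0 < s ^ 2 + (t + 1) ^ 2 := by
            apply pos
            by_contra hc
            push Not at hc
            obtain ⟨hs, ht⟩ := hc
            have ht' : t = -1 := by omega
            subst hs ht'
            norm_num at hα
            omega
          have p2 : 0 < s ^ 2 + t ^ 2 := by
            apply pos
            by_contra hc
            push Not at hc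
            obtain ⟨hs, ht⟩ := hc
            subst hs ht
            norm_num at hα
            omega
          refine key gi ⟨s, t + 1⟩ ⟨s, t⟩ (s ^ 2 + (t + 1) ^ 2).toNat (s ^ 2 + t ^ 2).toNat
            (Or.inr rfl) ?_ ?_ hpar hm hn' (by omega) (by omega) (by omega) (by omega)
          · ext <;> simp
          · ext <;> simp <;> ring
        · obtain ⟨s, rfl⟩ : ∃ s, a = 2 * s + 1 := ⟨a / 2, by omega⟩
          obtain ⟨t, rfl⟩ : ∃ t, b = 2 * t := ⟨b / 2, by omega⟩
          have hm : (((s + 1) ^ 2 + t ^ 2).toNat : ℤ) = (s + 1) ^ 2 + t ^ 2 :=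
            Int.toNat_of_nonneg (by positivity)
          have hn' : ((s ^ 2 + t ^ 2).toNat : ℤ) = s ^ 2 + t ^ 2 :=
            Int.toNat_of_nonneg (by positivity)
          have e1 : (2 * (k : ℤ) + 1 + 1) = 2 * (((s + 1) ^ 2 + t ^ 2) + (s ^ 2 + t ^ 2)) := by
            rw [hα]; ring
          have e2 : ((s + 1) ^ 2 + t ^ 2) + (s ^ 2 + t ^ 2) = 2 * (s ^ 2 + t ^ 2 + s) + 1 := by
            ring
          have p1 : 0 < (s + 1) ^ 2 + t ^ 2 := by
            apply pos
            by_contra hc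
            push Not at hc
            obtain ⟨hs, ht⟩ := hc
            have hs' : s = -1 := by omega
            subst ht hs'
            norm_num at hα
            omega
          have p2 : 0 < s ^ 2 + t ^ 2 := by
            apply pos
            by_contra hc
            push Not at hc
            obtain ⟨hs, ht⟩ := hc
            subst hs ht
            norm_num at hα
            omega
          refine key 1 ⟨s + 1, t⟩ ⟨s, t⟩ ((s + 1) ^ 2 + t ^ 2).toNat (s ^ 2 + t ^ 2).toNat
            (Or.inl rfl) ?_ ?_ hpar hm hn' (by omega) (by omega) (by omega) (by omega)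
          · ext <;> simp
          · ext <;> simp <;> ring

theorem exists_mulPol' (α : GaussianInt) (hα : α ≠ 0) :
    ∃ U V : GaussianInt[X], MulPol α α.norm.natAbs U V := by
  have h0 : 0 < α.norm := GaussianInt.norm_pos.2 hα
  apply exists_mulPol
  · rw [Int.natCast_natAbs, abs_of_pos h0, Zsqrtd.norm_def]; ring
  · omega

end GWA
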