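import Pool.Agent.Helper10.GWA.LB
import Pool.Agent.Helper10.GWA.Alg
import Pool.Agent.Helper10.GWA.Mul

/-!
# Tame places: the group of points modulo the points near zero is cyclic over `ℤ[i]`
-/

namespace GWA

open Polynomial

namespace LocHyp

variable {K : Type} [NormedField K] [Algebra GaussianInt K] {π : GaussianInt} (h : LocHyp K π)

include h

theorem norm_aeval_sub_lt (V : GaussianInt[X]) {x y : K} (hx : ‖x‖ ≤ 1) (hy : ‖y‖ ≤ 1)
    (hxy : ‖x - y‖ < 1) : ‖aeval x V - aeval y V‖ < 1 := by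
  have hpow : ∀ n : ℕ, ‖x ^ n - y ^ n‖ < 1 := by
    intro n
    induction n with
    | zero => simp
    | succ n ih =>
      have : x ^ (n + 1) - y ^ (n + 1) = x * (x ^ n - y ^ n) + (x - y) * y ^ n := by ring
      rw [this]
      refine (h.ultra _ _).trans_lt (max_lt ?_ ?_)
      · rw [norm_mul]
        nlinarith [norm_nonneg x, norm_nonneg (x ^ n - y ^ n)]
      · rw [norm_mul, norm_pow]
        have := pow_le_one₀ (n := n) (norm_nonneg y) hy
        nlinarith [norm_nonneg (x - y), pow_nonneg (norm_nonneg y) n]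
  induction V using Polynomial.induction_on' with
  | add p q hp hq =>
    have : aeval x (p + q) - aeval y (p + q) =
        (aeval x p - aeval y p) + (aeval x q - aeval y q) := by
      rw [map_add, map_add]; ring
    rw [this]
    exact (h.ultra _ _).trans_lt (max_lt hp hq)
  | monomial n a =>
    rw [aeval_monomial, aeval_monomial, ← mul_sub, norm_mul]
    have := h.norm_O_le a
    have := hpow n
    nlinarith [norm_nonneg (algebraMap GaussianInt K a), norm_nonneg (x ^ n - y ^ n)]

theorem norm_aeval_le (V : GaussianInt[X]) {x : K} (hx : ‖x‖ ≤ 1) : ‖aeval x V‖ ≤ 1 := by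
  induction V using Polynomial.induction_on' with
  | add p q hp hq =>
    rw [map_add]
    exact (h.ultra _ _).trans (max_le hp hq)
  | monomial n a =>
    rw [aeval_monomial, norm_mul, norm_pow]
    have h1 := h.norm_O_le a
    have h2 := pow_le_one₀ (n := n) (norm_nonneg x) hx
    nlinarith [norm_nonneg (algebraMap GaussianInt K a), pow_nonneg (norm_nonneg x) n]

variable [NeZero (2 : K)] [DecidableEq K]

theorem not_nb {d : K} (hd : d ≠ 0) {P : E d} (hP : P ∉ nb π d 0) : P ≠ 0 ∧ ‖nx P‖ ≤ 1 := by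
  rw [h.mem_nb_zero_iff hd] at hP
  push Not at hP
  exact hP

theorem norm_V_lt (d : Kˣ) {α : GaussianInt} {n : ℕ} {U V : GaussianInt[X]} (hM : MulPol α n U V)
    {P : E (d : K)} (hP : P ≠ 0) (hx : ‖nx P‖ ≤ 1) (hα : α • P ∈ nb π (d : K) 0) :
    ‖aeval (nx P) V‖ < 1 := by
  rw [h.mem_nb_zero_iff d.ne_zero] at hα
  rcases hM.rep K d P hP with ⟨-, h1, -⟩ | ⟨h1, h3, h4⟩
  · rw [h1, norm_zero]; exact one_pos
  · have h5 := hα.resolve_left h1
    have h6 := h.norm_aeval_le U hx
    rw [← h4, norm_mul] at h6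
    have h7 : 0 < ‖aeval (nx P) V‖ := norm_pos_iff.2 h3
    by_contra hc
    push Not at hc
    nlinarith

theorem exists_res {x : K} (hx : ‖x‖ ≤ 1) :
    ∃ a : GaussianInt, ‖x - algebraMap GaussianInt K a‖ < 1 := h.res x hx

/-- the quotient of the group of points by the points near zero -/
abbrev QM (d : Kˣ) : Type := E (d : K) ⧸ h.nbS d 0

theorem out_spec (d : Kˣ) (m : h.QM d) (hm : m ≠ 0) :
    (Quotient.out m : E (d : K)) ≠ 0 ∧ ‖nx (Quotient.out m : E (d : K))‖ ≤ 1 := by
  apply h.not_nb d.ne_zero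
  intro hmem
  apply hm
  have h1 : (Submodule.Quotient.mk (Quotient.out m) : h.QM d) = m := Quotient.out_eq m
  rw [← h1, Submodule.Quotient.mk_eq_zero]
  exact hmem

/-- the residue of a class -/
noncomputable def rsd (d : Kˣ) (m : h.QM d) (hm : m ≠ 0) : GaussianInt :=
  (h.exists_res (h.out_spec d m hm).2).choose

theorem rsd_spec (d : Kˣ) (m : h.QM d) (hm : m ≠ 0) :
    ‖nx (Quotient.out m : E (d : K)) - algebraMap GaussianInt K (h.rsd d m hm)‖ < 1 :=
  (h.exists_res (h.out_spec d m hm).2).choose_spec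

theorem rsd_two (h2 : ¬ π ∣ 2) (d : Kˣ) (m m' : h.QM d) (hm : m ≠ 0) (hm' : m' ≠ 0)
    (hmm : (Ideal.Quotient.mk (Ideal.span {π})) (h.rsd d m hm) =
      (Ideal.Quotient.mk (Ideal.span {π})) (h.rsd d m' hm')) : m = m' ∨ m = -m' := by
  have h1 : (Submodule.Quotient.mk (Quotient.out m) : h.QM d) = m := Quotient.out_eq m
  have h1' : (Submodule.Quotient.mk (Quotient.out m') : h.QM d) = m' := Quotient.out_eq m'
  obtain ⟨hP, hx⟩ := h.out_spec d m hm
  obtain ⟨hP', hx'⟩ := h.out_spec d m' hm'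
  have e := h.rsd_spec d m hm
  have e' := h.rsd_spec d m' hm'
  rw [Ideal.Quotient.eq, Ideal.mem_span_singleton, ← h.norm_lt_one_iff, map_sub] at hmm
  set P : E (d : K) := Quotient.out m
  set P' : E (d : K) := Quotient.out m'
  set a := algebraMap GaussianInt K (h.rsd d m hm)
  set a' := algebraMap GaussianInt K (h.rsd d m' hm')
  have hxx : ‖nx P - nx P'‖ < 1 := by
    have : nx P - nx P' = ((nx P - a) + (a - a')) - (nx P' - a') := by ring
    rw [this]
    exact (h.norm_sub_le _ _).trans_lt (max_lt ((h.ultra _ _).trans_lt (max_lt e hmm)) e')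
  rcases h.res_diff h2 d.ne_zero hP hP' hx hx' hxx with h3 | h3
  · left
    rw [← h1, ← h1', Submodule.Quotient.eq]
    exact h3
  · right
    rw [← h1, ← h1', ← Submodule.Quotient.mk_neg, Submodule.Quotient.eq, sub_neg_eq_add]
    exact h3

/-- the quotient is finite -/
theorem card_QM (h2 : ¬ π ∣ 2) (d : Kˣ) :
    Finite (h.QM d) ∧ Nat.card (h.QM d) ≤ 2 * π.norm.natAbs + 1 := by
  have hfin : Finite (GaussianInt ⧸ Ideal.span {π}) := finite_quot h.prime.ne_zero
  obtain ⟨h3, h4⟩ := card_le_of_two (A := {m : h.QM d // m ≠ 0})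
    (fun m => ⟨-m.1, neg_ne_zero.2 m.2⟩)
    (fun m => Ideal.Quotient.mk (Ideal.span {π}) (h.rsd d m.1 m.2)) (by
      intro m m' hmm
      rcases h.rsd_two h2 d m.1 m'.1 m.2 m'.2 hmm with h5 | h5
      · left; exact Subtype.ext h5
      · right; exact Subtype.ext h5)
  obtain ⟨h5, h6⟩ := card_eq_succ (M := h.QM d)
  refine ⟨h5, ?_⟩
  rw [h6]
  rw [card_quot] at h4
  omega

theorem three_le_norm (h2 : ¬ π ∣ 2) : 3 ≤ π.norm.natAbs := by
  have h0 : 0 < π.norm := GaussianInt.norm_pos.2 h.prime.ne_zero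
  have h1 : π.norm.natAbs ≠ 1 := by
    intro h3
    exact h.prime.not_isUnit (Zsqrtd.norm_eq_one_iff.1 h3)
  have h3 : π.norm ≠ 2 := by
    intro h4
    apply h2
    refine ⟨star π, ?_⟩
    rw [← Zsqrtd.norm_eq_mul_conj, h4]
    rfl
  omega

/-- the `l`-torsion of the quotient -/
theorem card_tors (h2 : ¬ π ∣ 2) (d : Kˣ) {l : GaussianInt} (hl : Prime l) :
    Nat.card {m : h.QM d // l • m = 0} < l.norm.natAbs ^ 2 := by
  classical
  obtain ⟨hfin, hcard⟩ := h.card_QM h2 d
  by_cases hπ : π ∣ l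
  · have hass : Associated π l := h.prime.associated_of_dvd hl hπ
    have hn : l.norm.natAbs = π.norm.natAbs := by
      rw [← card_quot, ← card_quot, (Ideal.span_singleton_eq_span_singleton.2 hass)]
    have h3 : Nat.card {m : h.QM d // l • m = 0} ≤ Nat.card (h.QM d) :=
      Nat.card_le_card_of_injective _ Subtype.val_injective
    have h4 := h.three_le_norm h2
    rw [hn]
    nlinarith
  · obtain ⟨U, V, hM⟩ := exists_mulPol' l hl.ne_zero
    have hprime : (Ideal.span {π} : Ideal GaussianInt).IsPrime :=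
      (Ideal.span_singleton_prime h.prime.ne_zero).2 h.prime
    have hdom : IsDomain (GaussianInt ⧸ Ideal.span {π}) := Ideal.Quotient.isDomain _
    set q := Ideal.Quotient.mk (Ideal.span {π} : Ideal GaussianInt) with hq
    set W := V.map q with hW
    have hW0 : W ≠ 0 := by
      intro h0
      have h3 := congrArg (fun p => Polynomial.coeff p (l.norm.natAbs - 1)) h0
      simp only [hW, coeff_map, coeff_zero, hM.topV] at h3
      rw [hq, Ideal.Quotient.eq_zero_iff_mem, Ideal.mem_span_singleton] at h3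
      exact hπ (h.prime.dvd_of_dvd_pow h3)
    have hWd : W.roots.toFinset.card ≤ l.norm.natAbs - 1 := by
      refine (Multiset.toFinset_card_le _).trans ?_
      refine (Polynomial.card_roots' W).trans ?_
      exact (natDegree_map_le).trans hM.degV
    let Z : Zero {m : h.QM d // l • m = 0} := ⟨⟨0, smul_zero _⟩⟩
    have hval0 : ((0 : {m : h.QM d // l • m = 0}) : h.QM d) = 0 := rfl
    have hne : ∀ m : {m' : {m : h.QM d // l • m = 0} // m' ≠ 0}, m.1.1 ≠ 0 := by
      intro m hm
      exact m.2 (Subtype.ext hm)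
    have hroot : ∀ m : {m' : {m : h.QM d // l • m = 0} // m' ≠ 0},
        q (h.rsd d m.1.1 (hne m)) ∈ W.roots.toFinset := by
      intro m
      rw [Multiset.mem_toFinset, mem_roots hW0, IsRoot.def, hW, eval_map, eval₂_hom, hq,
        Ideal.Quotient.eq_zero_iff_mem, Ideal.mem_span_singleton, ← h.norm_lt_one_iff,
        ← aeval_algebraMap_apply_eq_algebraMap_eval]
      obtain ⟨hP, hx⟩ := h.out_spec d m.1.1 (hne m)
      have e := h.rsd_spec d m.1.1 (hne m)
      have h1 : (Submodule.Quotient.mk (Quotient.out m.1.1) : h.QM d) = m.1.1 :=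
        Quotient.out_eq m.1.1
      have hl' : l • (Quotient.out m.1.1 : E (d : K)) ∈ nb π (d : K) 0 := by
        have h3 : l • m.1.1 = 0 := m.1.2
        rw [← h1, ← Submodule.Quotient.mk_smul, Submodule.Quotient.mk_eq_zero] at h3
        exact h3
      have h4 := h.norm_V_lt d hM hP hx hl'
      have h5 := h.norm_aeval_sub_lt V hx (h.norm_O_le (h.rsd d m.1.1 (hne m))) e
      have h6 : aeval (algebraMap GaussianInt K (h.rsd d m.1.1 (hne m))) V =
          aeval (nx (Quotient.out m.1.1 : E (d : K))) V -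
          (aeval (nx (Quotient.out m.1.1 : E (d : K))) V -
            aeval (algebraMap GaussianInt K (h.rsd d m.1.1 (hne m))) V) := by ring
      rw [h6]
      exact (h.norm_sub_le _ _).trans_lt (max_lt h4 h5)
    obtain ⟨h3, h4⟩ := card_le_of_two (A := {m' : {m : h.QM d // l • m = 0} // m' ≠ 0})
      (B := W.roots.toFinset)
      (fun m => ⟨⟨-m.1.1, by rw [smul_neg, m.1.2, neg_zero]⟩, fun h0 => hne m (by
        have := congrArg Subtype.val h0
        exact neg_eq_zero.1 this)⟩)
      (fun m => ⟨_, hroot m⟩) (by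
        intro m m' hmm
        have hmm' := congrArg Subtype.val hmm
        rcases h.rsd_two h2 d m.1.1 m'.1.1 (hne m) (hne m') hmm' with h5 | h5
        · left; exact Subtype.ext (Subtype.ext h5)
        · right; exact Subtype.ext (Subtype.ext h5))
    obtain ⟨h5, h6⟩ := card_eq_succ (M := {m : h.QM d // l • m = 0})
    rw [h6]
    have h7 : Nat.card W.roots.toFinset = W.roots.toFinset.card := by
      rw [Nat.card_eq_fintype_card, Fintype.card_coe]
    rw [h7] at h4
    have h8 : 1 ≤ l.norm.natAbs := by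
      have h0 : 0 < l.norm := GaussianInt.norm_pos.2 hl.ne_zero
      omega
    obtain ⟨n, hn⟩ : ∃ n, l.norm.natAbs = n + 1 := ⟨l.norm.natAbs - 1, by omega⟩
    rw [hn] at hWd ⊢
    have hn1 : n ≠ 0 := by
      intro h0
      rw [h0] at hn
      exact hl.not_isUnit (Zsqrtd.norm_eq_one_iff.1 hn)
    have : 0 < n ^ 2 := by positivity
    have h9 : (n + 1) ^ 2 = n ^ 2 + 2 * n + 1 := by ring
    omega

/-- tame places: the group of points modulo the points near zero is cyclic -/
theorem cyc (h2 : ¬ π ∣ 2) (d : Kˣ) :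
    ∃ (g : E (d : K)) (a : GaussianInt), a ≠ 0 ∧
      (∀ P : E (d : K), ∃ α : GaussianInt, P - α • g ∈ nb π (d : K) 0) ∧
      (∀ α : GaussianInt, α • g ∈ nb π (d : K) 0 ↔ a ∣ α) ∧
      a.norm.natAbs ≤ 2 * π.norm.natAbs + 1 := by
  obtain ⟨hfin, hcard⟩ := h.card_QM h2 d
  obtain ⟨g, hg⟩ := cyclic_of_tors (M := h.QM d) (fun l hl x y hx hy hy0 =>
    tors_of_card hl (h.card_tors h2 d hl) x y hx hy hy0)
  have h1 : (Submodule.Quotient.mk (Quotient.out g) : h.QM d) = g := Quotient.out_eq g
  obtain ⟨a, ha⟩ := (IsPrincipalIdealRing.principal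
    (LinearMap.ker (LinearMap.toSpanSingleton GaussianInt (h.QM d) g))).principal
  have hmem : ∀ c : GaussianInt, c • g = 0 ↔ a ∣ c := by
    intro c
    rw [← Ideal.mem_span_singleton]
    change _ ↔ c ∈ Submodule.span GaussianInt {a}
    rw [← ha, LinearMap.mem_ker, LinearMap.toSpanSingleton_apply]
  have hcard0 : ((Nat.card (h.QM d) : ℕ) : GaussianInt) • g = 0 := by
    have h1 : (Nat.card (h.QM d)) • g = 0 := card_nsmul_eq_zero'
    rw [← h1]
    exact Nat.cast_smul_eq_nsmul GaussianInt _ _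
  have hc0 : ((Nat.card (h.QM d) : ℕ) : GaussianInt) ≠ 0 := by
    have : Nonempty (h.QM d) := ⟨0⟩
    exact Nat.cast_ne_zero.2 Nat.card_pos.ne'
  refine ⟨Quotient.out g, a, ?_, fun P => ?_, fun α => ?_, ?_⟩
  · rintro rfl
    exact hc0 (zero_dvd_iff.1 ((hmem _).1 hcard0))
  · obtain ⟨α, hα⟩ := hg (Submodule.Quotient.mk P)
    refine ⟨α, ?_⟩
    rw [← h1, ← Submodule.Quotient.mk_smul, Submodule.Quotient.eq] at hα
    exact hα
  · rw [← hmem, ← h.mem_nbS, ← Submodule.Quotient.mk_eq_zero, Submodule.Quotient.mk_smul, h1]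
  · refine le_trans ?_ hcard
    rw [← card_quot]
    let Φ : (GaussianInt ⧸ Ideal.span {a}) → h.QM d := fun c => (Quotient.out c : GaussianInt) • g
    apply Nat.card_le_card_of_injective Φ
    intro b c hbc
    have h3 : ((Quotient.out b : GaussianInt) - Quotient.out c) • g = 0 := by
      rw [sub_smul]; exact sub_eq_zero.2 hbc
    rw [hmem] at h3
    have hb : Ideal.Quotient.mk (Ideal.span {a}) (Quotient.out b) = b := Quotient.out_eq b
    have hc : Ideal.Quotient.mk (Ideal.span {a}) (Quotient.out c) = c := Quotient.out_eq c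
    rw [← hb, ← hc, Ideal.Quotient.eq, Ideal.mem_span_singleton]
    exact h3

theorem tor_two (d : Kˣ) {R : E (d : K)} (hR : R ∈ nb π (d : K) 0) (h0 : R + R = 0) : R = 0 := by
  rw [h.mem_nb_zero_iff d.ne_zero] at hR
  rcases hR with hR | hR
  · exact hR
  · exfalso
    have h1 := two_tors_eq h0
    have h3 : ff (nx R) = 0 := by
      by_contra hc
      exact (yc_ne_iff d.ne_zero R).2 hc h1
    have h4 : ‖nx R ^ 3‖ = ‖nx R‖ := by
      have : nx R ^ 3 = nx R := by
        unfold ff at h3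
        linear_combination h3
      rw [this]
    rw [norm_pow] at h4
    nlinarith [norm_nonneg (nx R), sq_nonneg (‖nx R‖)]

omit h in
/-- the four 2-torsion points -/
noncomputable def tt4 (d : Kˣ) : Fin 4 → E (d : K) :=
  ![0, T d.ne_zero, gi • T d.ne_zero, T₀ d.ne_zero]

omit h in
theorem tt4_two (d : Kˣ) (j : Fin 4) : tt4 d j + tt4 d j = 0 := by
  fin_cases j
  · exact add_zero _
  · exact T_add_T d.ne_zero
  · change gi • T d.ne_zero + gi • T d.ne_zero = 0
    rw [← smul_add, T_add_T, smul_zero]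
  · exact T₀_add_T₀ d.ne_zero

omit h in
theorem tt4_inj (d : Kˣ) : Function.Injective (tt4 d) := by
  have h2 : (2 : K) ≠ 0 := two_ne_zero
  have hd := d.ne_zero
  have e1 : (T hd : E (d : K)) ≠ 0 := T_ne hd
  have e2 : gi • (T hd : E (d : K)) ≠ 0 := gi_smul_ne d e1
  have e3 : (T₀ hd : E (d : K)) ≠ 0 := T₀_ne hd
  have e4 : (T hd : E (d : K)) ≠ gi • T hd := by
    intro h0
    have := congrArg nx h0
    rw [nx_gi_T, nx_T] at this
    apply h2
    linear_combination this
  have e5 : (T hd : E (d : K)) ≠ T₀ hd := by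
    intro h0
    have := congrArg nx h0
    rw [nx_T₀, nx_T] at this
    exact one_ne_zero this
  have e6 : gi • (T hd : E (d : K)) ≠ T₀ hd := by
    intro h0
    have := congrArg nx h0
    rw [nx_T₀, nx_gi_T] at this
    exact one_ne_zero (neg_eq_zero.1 this)
  intro j k hjk
  have f0 : tt4 d 0 = 0 := rfl
  have f1 : tt4 d 1 = T hd := rfl
  have f2 : tt4 d 2 = gi • T hd := rfl
  have f3 : tt4 d 3 = T₀ hd := rfl
  match j, k, hjk with
  | 0, 0, _ => rfl
  | 0, 1, hjk => exact absurd hjk.symm e1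
  | 0, 2, hjk => exact absurd hjk.symm e2
  | 0, 3, hjk => exact absurd hjk.symm e3
  | 1, 0, hjk => exact absurd hjk e1
  | 1, 1, _ => rfl
  | 1, 2, hjk => exact absurd hjk e4
  | 1, 3, hjk => exact absurd hjk e5
  | 2, 0, hjk => exact absurd hjk e2
  | 2, 1, hjk => exact absurd hjk.symm e4
  | 2, 2, _ => rfl
  | 2, 3, hjk => exact absurd hjk e6
  | 3, 0, hjk => exact absurd hjk e3
  | 3, 1, hjk => exact absurd hjk.symm e5
  | 3, 2, hjk => exact absurd hjk.symm e6
  | 3, 3, _ => rfl

theorem tt4_inj' (d : Kˣ) {j k : Fin 4} (hjk : tt4 d j - tt4 d k ∈ nb π (d : K) 0) : j = k := by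
  apply tt4_inj d
  apply sub_eq_zero.1
  apply h.tor_two d hjk
  have h1 := tt4_two d j
  have h3 := tt4_two d k
  have : tt4 d j - tt4 d k + (tt4 d j - tt4 d k) = (tt4 d j + tt4 d j) - (tt4 d k + tt4 d k) := by
    abel
  rw [this, h1, h3, sub_zero]

/-- exponent of the group modulo the points near zero -/
theorem expo_tame (h2 : ¬ π ∣ 2) (d : Kˣ) : ∃ a : GaussianInt, a ≠ 0 ∧
    (∀ P : E (d : K), a • P ∈ nb π (d : K) 0) ∧
    ∀ π' : GaussianInt, Prime π' → ¬ π' ∣ 2 → π.norm.natAbs ≤ π'.norm.natAbs → ¬ π' ∣ a := by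
  obtain ⟨hfin, hcard⟩ := h.card_QM h2 d
  set I := Module.annihilator GaussianInt (h.QM d) with hI
  have hcI : ((Nat.card (h.QM d) : ℕ) : GaussianInt) ∈ I := by
    rw [hI, Module.mem_annihilator]
    intro m
    have h1 : (Nat.card (h.QM d)) • m = 0 := card_nsmul_eq_zero'
    rw [← h1]
    exact Nat.cast_smul_eq_nsmul GaussianInt _ _
  have hc0 : ((Nat.card (h.QM d) : ℕ) : GaussianInt) ≠ 0 := by
    have : Nonempty (h.QM d) := ⟨0⟩
    exact Nat.cast_ne_zero.2 Nat.card_pos.ne'
  obtain ⟨a, ha⟩ := (IsPrincipalIdealRing.principal I).principal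
  have ha' : I = Ideal.span {a} := ha
  have hmem : ∀ c, c ∈ I ↔ a ∣ c := by
    intro c
    rw [ha', Ideal.mem_span_singleton]
  have ha0 : a ≠ 0 := by
    rintro rfl
    exact hc0 (zero_dvd_iff.1 ((hmem _).1 hcI))
  refine ⟨a, ha0, ?_, ?_⟩
  · intro P
    have h1 := (hmem a).2 dvd_rfl
    rw [hI, Module.mem_annihilator] at h1
    have h3 := h1 (Submodule.Quotient.mk P)
    rw [← Submodule.Quotient.mk_smul, Submodule.Quotient.mk_eq_zero] at h3
    exact h3
  · intro π' hπ' hπ2 hle hdvd
    obtain ⟨a', rfl⟩ := hdvd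
    have ha'0 : a' ≠ 0 := fun h0 => ha0 (by rw [h0, mul_zero])
    have hnot : a' ∉ I := by
      intro hc
      obtain ⟨b, hb⟩ := (hmem _).1 hc
      apply hπ'.not_isUnit
      apply IsUnit.of_mul_eq_one b
      apply mul_left_cancel₀ ha'0
      rw [mul_one]
      conv_rhs => rw [hb]
      ring
    rw [hI, Module.mem_annihilator] at hnot
    push Not at hnot
    obtain ⟨m, hm⟩ := hnot
    set y := a' • m with hy
    have hπy : π' • y = 0 := by
      rw [hy, ← mul_smul]
      have h1 := (hmem (π' * a')).2 dvd_rfl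
      rw [hI, Module.mem_annihilator] at h1
      exact h1 m
    have hdiv : ∀ δ : GaussianInt, δ • y = 0 → π' ∣ δ := by
      intro δ hδ
      by_contra hd
      obtain ⟨u, v, huv⟩ := bezout hπ' hd
      apply hm
      calc y = (u * π' + v * δ) • y := by rw [huv, one_smul]
        _ = 0 := by rw [add_smul, mul_smul, hπy, smul_zero, zero_add, mul_smul, hδ, smul_zero]
    let Q := GaussianInt ⧸ Ideal.span {π'}
    let Φ : Q × Fin 4 → h.QM d := fun ab =>
      (Quotient.out ab.1 : GaussianInt) • y + Submodule.Quotient.mk (tt4 d ab.2)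
    have hmk : ∀ a b : Q, π' ∣ (Quotient.out a : GaussianInt) - Quotient.out b → a = b := by
      intro a b hab
      have ha : Ideal.Quotient.mk (Ideal.span {π'}) (Quotient.out a) = a := Quotient.out_eq a
      have hb : Ideal.Quotient.mk (Ideal.span {π'}) (Quotient.out b) = b := Quotient.out_eq b
      rw [← ha, ← hb, Ideal.Quotient.eq, Ideal.mem_span_singleton]
      exact hab
    have htwo : ∀ j : Fin 4, (2 : GaussianInt) • (Submodule.Quotient.mk (tt4 d j) : h.QM d) = 0 := by
      intro j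
      rw [two_smul, ← Submodule.Quotient.mk_add, tt4_two, Submodule.Quotient.mk_zero]
    have hΦ : Function.Injective Φ := by
      rintro ⟨a, j⟩ ⟨b, k⟩ hab
      change (Quotient.out a : GaussianInt) • y + Submodule.Quotient.mk (tt4 d j) =
        (Quotient.out b : GaussianInt) • y + Submodule.Quotient.mk (tt4 d k) at hab
      have h3 : ((Quotient.out a : GaussianInt) - Quotient.out b) • y =
          Submodule.Quotient.mk (tt4 d k) - Submodule.Quotient.mk (tt4 d j) := by
        rw [sub_smul, sub_eq_sub_iff_add_eq_add, hab, add_comm]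
      have h4 : (2 * ((Quotient.out a : GaussianInt) - Quotient.out b)) • y = 0 := by
        rw [mul_smul, h3, smul_sub, htwo, htwo, sub_zero]
      have h5 := (hπ'.dvd_or_dvd (hdiv _ h4)).resolve_left hπ2
      have h6 := hmk _ _ h5
      subst h6
      rw [sub_self, zero_smul, ← Submodule.Quotient.mk_sub] at h3
      have h7 := (Submodule.Quotient.mk_eq_zero _).1 h3.symm
      rw [Prod.mk.injEq]
      exact ⟨rfl, (h.tt4_inj' d h7).symm⟩
    have h5 := Nat.card_le_card_of_injective Φ hΦ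
    rw [Nat.card_prod, card_quot, Nat.card_eq_fintype_card (α := Fin 4), Fintype.card_fin] at h5
    have h6 : 0 < π'.norm := GaussianInt.norm_pos.2 hπ'.ne_zero
    omega

end LocHyp

end GWA
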