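import Mathlib

/-!
# The number of residue classes modulo a Gaussian integer
-/

namespace GWA

open Module

/-- the basis `1, i` of `ℤ[i]` -/
noncomputable def gBasis : Basis (Fin 2) ℤ GaussianInt :=
  Basis.ofEquivFun
    { toFun := fun z => ![z.re, z.im]
      invFun := fun f => ⟨f 0, f 1⟩
      map_add' := by intro x y; ext i; fin_cases i <;> simp
      map_smul' := by intro x y; ext i; fin_cases i <;> simp
      left_inv := by intro x; ext <;> simp
      right_inv := by intro x; ext i; fin_cases i <;> simp }

theorem gBasis_repr (z : GaussianInt) (i : Fin 2) : gBasis.repr z i = ![z.re, z.im] i := rfl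

theorem gBasis_zero : gBasis 0 = 1 := by
  apply gBasis.repr.injective
  ext i
  rw [Basis.repr_self, gBasis_repr]
  fin_cases i <;> simp

theorem gBasis_one : gBasis 1 = ⟨0, 1⟩ := by
  apply gBasis.repr.injective
  ext i
  rw [Basis.repr_self, gBasis_repr]
  fin_cases i <;> simp

theorem algebra_norm_eq (a : GaussianInt) : Algebra.norm ℤ a = a.norm := by
  rw [Algebra.norm_eq_matrix_det gBasis, Matrix.det_fin_two]
  simp only [Algebra.leftMulMatrix_eq_repr_mul, gBasis_repr, gBasis_zero, gBasis_one]
  simp [Zsqrtd.norm_def]
  
theorem card_quot (a : GaussianInt) :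
    Nat.card (GaussianInt ⧸ Ideal.span {a}) = a.norm.natAbs := by
  have : Module.Free ℤ GaussianInt := Module.Free.of_basis gBasis
  have : Module.Finite ℤ GaussianInt := Module.Finite.of_basis gBasis
  have := Ideal.absNorm_span_singleton a
  rw [algebra_norm_eq, Ideal.absNorm_apply] at this
  rw [← this]
  rfl

theorem finite_quot {a : GaussianInt} (ha : a ≠ 0) : Finite (GaussianInt ⧸ Ideal.span {a}) := by
  apply Nat.finite_of_card_ne_zero
  rw [card_quot]
  have : 0 < a.norm := GaussianInt.norm_pos.2 ha
  omega

end GWA
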