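import Pool.Agent.Helper15.WA.AbsDefs

/-!
# The abstract induction over the places
-/

namespace GWA

namespace LD

variable (L : LD)

theorem sys_ext {d : L.D} {P Q P' Q' : L.M d} (h1 : P = P') (h2 : Q = Q') :
    (⟨d, P, Q⟩ : L.Sys) = ⟨d, P', Q'⟩ := by rw [h1, h2]

theorem close_mk {n : ℕ} {d : L.D} {P Q P' Q' : L.M d} (h1 : P' - P ∈ L.nb d n)
    (h2 : Q' - Q ∈ L.nb d n) : L.close n ⟨d, P', Q'⟩ ⟨d, P, Q⟩ := ⟨P', Q', rfl, h1, h2⟩

theorem close_refl (h0 : ∀ d n, (0 : L.M d) ∈ L.nb d n) (n : ℕ) (t : L.Sys) : L.close n t t := by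
  obtain ⟨d, P, Q⟩ := t
  exact L.close_mk (by rw [sub_self]; exact h0 d n) (by rw [sub_self]; exact h0 d n)

theorem nnε_iff {κ μ : GaussianInt} {d : L.D} {P Q : L.M d} :
    (⟨d, P, Q⟩ : L.Sys) ∈ L.NNε κ μ ↔ P - κ • L.T d ∈ L.nb d 0 ∧ Q - μ • L.T d ∈ L.nb d 0 := by
  constructor
  · rintro ⟨η₁, h1, η₂, h2, he⟩
    change η₁ ∈ L.nb d 0 at h1
    change η₂ ∈ L.nb d 0 at h2
    have h3 : P = κ • L.T d + η₁ ∧ Q = μ • L.T d + η₂ := by simpa using he
    rw [h3.1, h3.2, add_sub_cancel_left, add_sub_cancel_left]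
    exact ⟨h1, h2⟩
  · rintro ⟨h1, h2⟩
    refine ⟨_, h1, _, h2, L.sys_ext ?_ ?_⟩ <;> abel

end LD

/-- inverse of an affine map -/
theorem aff_inv {α β γ δ : GaussianInt} (κ μ : GaussianInt) (h : IsUnit (α * δ - β * γ)) :
    ∃ α' β' γ' δ' κ' μ' : GaussianInt, IsUnit (α' * δ' - β' * γ') ∧
      ∀ (L : LD) (t : L.Sys), L.aff α β γ δ κ μ (L.aff α' β' γ' δ' κ' μ' t) = t := by
  obtain ⟨u, hu⟩ := h.exists_right_inv
  refine ⟨u * δ, -(u * β), -(u * γ), u * α, -(u * δ * κ + -(u * β) * μ),
    -(-(u * γ) * κ + u * α * μ), ?_, ?_⟩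
  · have e : u * δ * (u * α) - -(u * β) * -(u * γ) = u := by linear_combination u * hu
    rw [e]
    exact IsUnit.of_mul_eq_one _ (by rw [mul_comm]; exact hu)
  · intro L t
    obtain ⟨d, P, Q⟩ := t
    apply L.sys_ext
    · change α • ((u * δ) • P + (-(u * β)) • Q + (-(u * δ * κ + -(u * β) * μ)) • L.T d) +
        β • ((-(u * γ)) • P + (u * α) • Q + (-(-(u * γ) * κ + u * α * μ)) • L.T d) + κ • L.T d = P
      have e : α • ((u * δ) • P + (-(u * β)) • Q + (-(u * δ * κ + -(u * β) * μ)) • L.T d) +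
        β • ((-(u * γ)) • P + (u * α) • Q + (-(-(u * γ) * κ + u * α * μ)) • L.T d) + κ • L.T d =
        ((α * δ - β * γ) * u) • P + (κ * (1 - (α * δ - β * γ) * u)) • L.T d := by module
      rw [e, hu, sub_self, mul_zero, zero_smul, one_smul, add_zero]
    · change γ • ((u * δ) • P + (-(u * β)) • Q + (-(u * δ * κ + -(u * β) * μ)) • L.T d) +
        δ • ((-(u * γ)) • P + (u * α) • Q + (-(-(u * γ) * κ + u * α * μ)) • L.T d) + μ • L.T d = Q
      have e : γ • ((u * δ) • P + (-(u * β)) • Q + (-(u * δ * κ + -(u * β) * μ)) • L.T d) +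
        δ • ((-(u * γ)) • P + (u * α) • Q + (-(-(u * γ) * κ + u * α * μ)) • L.T d) + μ • L.T d =
        ((α * δ - β * γ) * u) • Q + (μ * (1 - (α * δ - β * γ) * u)) • L.T d := by module
      rw [e, hu, sub_self, mul_zero, zero_smul, one_smul, add_zero]

variable {ι : Type} [DecidableEq ι] {L : ι → LD}

theorem upd_aff (α β γ δ κ μ : GaussianInt) (s : ∀ v, (L v).Sys) (v : ι) (t : (L v).Sys) :
    (fun w => (L w).aff α β γ δ κ μ (Function.update s v t w)) =
      Function.update (fun w => (L w).aff α β γ δ κ μ (s w)) v ((L v).aff α β γ δ κ μ t) := by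
  funext w
  by_cases h : w = v
  · subst h; simp
  · simp [h]

section step

variable {A : Finset ι} {F : (∀ v, (L v).Sys) → Prop} (hF : Stable L A F) {v : ι}

include hF in
theorem cl_upd {s : ∀ v, (L v).Sys} {t : (L v).Sys}
    (h : ∀ n, ∃ s' t', F (Function.update s' v t') ∧ (∀ w ∈ A.erase v, (L w).close n (s' w) (s w)) ∧
      (L v).close n t' t) : F (Function.update s v t) := by
  apply hF.cl
  intro n
  obtain ⟨s', t', h1, h2, h3⟩ := h n
  refine ⟨_, h1, fun w hw => ?_⟩
  by_cases hwv : w = v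
  · subst hwv
    rw [Function.update_self, Function.update_self]
    exact h3
  · rw [Function.update_of_ne hwv, Function.update_of_ne hwv]
    exact h2 w (Finset.mem_erase.2 ⟨hwv, hw⟩)

include hF in
theorem dep_upd {s s' : ∀ v, (L v).Sys} {t : (L v).Sys} (h : ∀ w ∈ A.erase v, s w = s' w)
    (hs : F (Function.update s v t)) : F (Function.update s' v t) := by
  refine hF.dep _ _ ?_ hs
  intro w hw
  by_cases hwv : w = v
  · subst hwv; rw [Function.update_self, Function.update_self]
  · rw [Function.update_of_ne hwv, Function.update_of_ne hwv]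
    exact h w (Finset.mem_erase.2 ⟨hwv, hw⟩)

include hF in
theorem aff_upd {s : ∀ v, (L v).Sys} {t : (L v).Sys} (α β γ δ κ μ : GaussianInt)
    (hu : IsUnit (α * δ - β * γ)) (h : F (Function.update s v t)) :
    F (Function.update (fun w => (L w).aff α β γ δ κ μ (s w)) v ((L v).aff α β γ δ κ μ t)) := by
  have := hF.aff α β γ δ κ μ hu _ h
  rwa [upd_aff] at this

include hF in
theorem sig_upd {s s' : ∀ v, (L v).Sys} {t t' : (L v).Sys}
    (h : F (Function.update s v t)) (hs : ∀ w ∈ A.erase v, (L w).S (s w) (s' w))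
    (ht : (L v).S t t') : F (Function.update s' v t') := by
  refine hF.sig _ _ h ?_
  intro w hw
  by_cases hwv : w = v
  · subst hwv; rw [Function.update_self, Function.update_self]; exact ht
  · rw [Function.update_of_ne hwv, Function.update_of_ne hwv]
    exact hs w (Finset.mem_erase.2 ⟨hwv, hw⟩)

/-! ### facts for finite places -/

theorem fin_neg {M : LD} {p : GaussianInt} (hM : M.FinAx p) {d : M.D} {n : ℕ} {P : M.M d}
    (h : P ∈ M.nb d n) : -P ∈ M.nb d n := by
  have := hM.nb_smul d n (-1) P h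
  rwa [neg_smul, one_smul] at this

theorem fin_sub {M : LD} {p : GaussianInt} (hM : M.FinAx p) {d : M.D} {n : ℕ} {P Q : M.M d}
    (h : P ∈ M.nb d n) (h' : Q ∈ M.nb d n) : P - Q ∈ M.nb d n := by
  rw [sub_eq_add_neg]
  exact hM.nb_add d n _ h _ (fin_neg hM h')

theorem fin_mono {M : LD} {p : GaussianInt} (hM : M.FinAx p) {d : M.D} {m n : ℕ} (hmn : m ≤ n)
    {P : M.M d} (h : P ∈ M.nb d n) : P ∈ M.nb d m := by
  induction hmn with
  | refl => exact h
  | step _ ih => exact ih (hM.nb_anti _ _ h)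

theorem fin_pow {M : LD} {p : GaussianInt} (hM : M.FinAx p) {d : M.D} {m : ℕ}
    {P : M.M d} (h : P ∈ M.nb d m) (n : ℕ) : p ^ n • P ∈ M.nb d (m + n) := by
  induction n with
  | zero => rw [pow_zero, one_smul]; exact h
  | succ n ih =>
    rw [pow_succ', mul_smul]
    exact hM.pi_smul _ _ _ ih

/-- exact level -/
def lv (M : LD) (d : M.D) (c : ℕ) (η : M.M d) : Prop := η ∈ M.nb d c ∧ η ∉ M.nb d (c + 1)

theorem exists_lv {M : LD} {p : GaussianInt} (hM : M.FinAx p) {d : M.D} {n : ℕ} {η : M.M d}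
    (h : η ∈ M.nb d n) {m : ℕ} (hm : η ∉ M.nb d m) : ∃ c, n ≤ c ∧ lv M d c η := by
  classical
  by_contra hcon
  push Not at hcon
  have key : ∀ k, η ∈ M.nb d (n + k) := by
    intro k
    induction k with
    | zero => exact h
    | succ k ih =>
      by_contra h2
      exact hcon (n + k) (by omega) ⟨ih, h2⟩
  apply hm
  rcases le_total m n with h3 | h3
  · exact fin_mono hM h3 h
  · obtain ⟨k, rfl⟩ := Nat.exists_eq_add_of_le h3
    exact key k

/-- content -/
def ct (M : LD) (d : M.D) (c : ℕ) (x y : M.M d) : Prop :=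
  x ∈ M.nb d c ∧ y ∈ M.nb d c ∧ (x ∉ M.nb d (c + 1) ∨ y ∉ M.nb d (c + 1))

theorem content {M : LD} {p : GaussianInt} (hM : M.FinAx p) {d : M.D} {x y : M.M d}
    (hx : x ∈ M.nb d 0) (hy : y ∈ M.nb d 0) :
    (∀ n, x ∈ M.nb d n ∧ y ∈ M.nb d n) ∨ ∃ c, ct M d c x y := by
  by_cases h : ∀ n, x ∈ M.nb d n ∧ y ∈ M.nb d n
  · exact Or.inl h
  · right
    push Not at h
    obtain ⟨m, hm⟩ := h
    by_contra hcon
    push Not at hcon
    have key : ∀ k, x ∈ M.nb d k ∧ y ∈ M.nb d k := by
      intro k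
      induction k with
      | zero => exact ⟨hx, hy⟩
      | succ k ih =>
        by_contra h2
        exact hcon k ⟨ih.1, ih.2, by
          by_contra h3
          push Not at h3
          exact h2 h3⟩
    exact hm (key m).1 (key m).2

/-! ### the tame step -/

/-- the other places: finite, with primes not divisible by `π` -/
structure Oth (L : ι → LD) (S : Finset ι) (π : GaussianInt) (q : ι → GaussianInt) : Prop where
  fin : ∀ w ∈ S, (L w).FinAx (q w)
  nd : ∀ w ∈ S, ¬ π ∣ q w
  le : ∀ w ∈ S, (q w).norm.natAbs ≤ π.norm.natAbs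

variable {π : GaussianInt} {q : ι → GaussianInt} (hO : Oth L (A.erase v) π q)
  (hT : (L v).TameAx π)

omit [DecidableEq ι] in
theorem exists_kill {S : Finset ι} {π : GaussianInt} (hπ : Prime π) (h2 : ¬ π ∣ 2)
    (hO : Oth L S π q) (e : ∀ w, (L w).D) (m : ι → ℕ) : ∃ K : GaussianInt, K ≠ 0 ∧ 2 ∣ K ∧
      (∀ w ∈ S, ∀ x : (L w).M (e w), ∀ b, (b * K) • x ∈ (L w).nb (e w) (m w)) ∧ ¬ π ∣ K := by
  have h1 : ∀ w, ∃ a : GaussianInt, w ∈ S → (a ≠ 0 ∧ (∀ P : (L w).M (e w), a • P ∈ (L w).nb (e w) 0) ∧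
      ¬ π ∣ a) := by
    intro w
    by_cases hw : w ∈ S
    · obtain ⟨a, h3, h4, h5⟩ := (hO.fin w hw).expo (e w)
      exact ⟨a, fun _ => ⟨h3, h4, h5 π hπ h2 (hO.le w hw)⟩⟩
    · exact ⟨0, fun h => absurd h hw⟩
  choose a ha using h1
  have hq0 : ∀ w ∈ S, q w ≠ 0 := fun w hw => (hO.fin w hw).prime.ne_zero
  refine ⟨2 * ∏ w ∈ S, (a w * q w ^ m w), ?_, Dvd.intro _ rfl, ?_, ?_⟩
  · refine mul_ne_zero (by decide) (Finset.prod_ne_zero_iff.2 fun w hw => ?_)
    exact mul_ne_zero (ha w hw).1 (pow_ne_zero _ (hq0 w hw))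
  · intro w hw x b
    classical
    rw [← Finset.prod_erase_mul S _ hw]
    have e1 : b * (2 * ((∏ u ∈ S.erase w, (a u * q u ^ m u)) * (a w * q w ^ m w))) =
      (b * 2 * (∏ u ∈ S.erase w, (a u * q u ^ m u))) * (q w ^ m w * a w) := by ring
    rw [e1, mul_smul]
    apply (hO.fin w hw).nb_smul
    rw [mul_smul]
    have := fin_pow (hO.fin w hw) ((ha w hw).2.1 x) (m w)
    rwa [zero_add] at this
  · intro hd
    rcases hπ.dvd_or_dvd hd with h | h
    · exact h2 h
    · obtain ⟨w, hw, h3⟩ := (Prime.dvd_finsetProd_iff hπ _).1 h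
      rcases hπ.dvd_or_dvd h3 with h4 | h4
      · exact (ha w hw).2.2 h4
      · exact hO.nd w hw (hπ.dvd_of_dvd_pow h4)

omit [DecidableEq ι] in
/-- an element divisible by a given product and congruent to a given element at `v` -/
theorem exists_mult {S : Finset ι} {π : GaussianInt} (hπ : Prime π) (h2 : ¬ π ∣ 2)
    (hO : Oth L S π q) (e : ∀ w, (L w).D) (n : ℕ) (b : GaussianInt) : ∃ m c : GaussianInt,
      2 ∣ m ∧ (∀ w ∈ S, ∀ x : (L w).M (e w), m • x ∈ (L w).nb (e w) n) ∧ m - b = c * π ^ n := by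
  obtain ⟨K, -, hK2, hK, hπK⟩ := exists_kill hπ h2 hO e (fun _ => n)
  have h1 : IsCoprime K (π ^ n) := by
    apply IsCoprime.pow_right
    rw [isCoprime_comm]
    exact (Irreducible.coprime_iff_not_dvd hπ.irreducible).2 hπK
  obtain ⟨x, y, hxy⟩ := h1
  refine ⟨b * x * K, - b * y, hK2.mul_left _, fun w hw z => hK w hw z _, ?_⟩
  linear_combination b * hxy

theorem even_smul {M : LD} {p : GaussianInt} (hM : M.FinAx p) {m : GaussianInt} (h : 2 ∣ m)
    {d : M.D} (κ : GaussianInt) (η : M.M d) : m • (κ • M.T d + η) = m • η := by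
  obtain ⟨m', rfl⟩ := h
  have e : (2 * m') • (κ • M.T d + η) = (m' * κ) • ((2 : GaussianInt) • M.T d) + (2 * m') • η := by
    module
  rw [e, hM.two_T, smul_zero, zero_add]

include hF hO hT in
theorem mv1 {s : ∀ v, (L v).Sys} {d : (L v).D} {c : ℕ} {κ μ : GaussianInt} {x y x' : (L v).M d}
    (hy : lv (L v) d c y) (hx : x ∈ (L v).nb d c) (hx' : x' ∈ (L v).nb d c)
    (h : F (Function.update s v ⟨d, κ • (L v).T d + x, μ • (L v).T d + y⟩)) :
    F (Function.update s v ⟨d, κ • (L v).T d + x', μ • (L v).T d + y⟩) := by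
  apply cl_upd hF
  intro n
  have hfin := hT.toFinAx
  obtain ⟨b, hb⟩ := hfin.gen d c y hy.1 hy.2 (x' - x) (fin_sub hfin hx' hx) n
  obtain ⟨m, e, hm2, hm, hme⟩ := exists_mult hfin.prime hT.odd hO (fun w => (s w).1) n b
  refine ⟨_, _, aff_upd hF 1 m 0 1 0 0 (by simp) h, ?_, ?_⟩
  · intro w hw
    have hw' := hO.fin w hw
    have h3 := hm w hw (s w).2.2
    rcases hsw : s w with ⟨d', P, Q⟩
    rw [hsw] at h3
    apply LD.close_mk
    · have e1 : (1 : GaussianInt) • P + m • Q + (0 : GaussianInt) • (L w).T d' - P = m • Q := by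
        module
      rw [e1]
      exact h3
    · have e1 : (0 : GaussianInt) • P + (1 : GaussianInt) • Q + (0 : GaussianInt) • (L w).T d' - Q =
        0 := by module
      rw [e1]
      exact hw'.nb_zero _ _
  · apply LD.close_mk
    · have e1 : (1 : GaussianInt) • (κ • (L v).T d + x) + m • (μ • (L v).T d + y) +
          (0 : GaussianInt) • (L v).T d - (κ • (L v).T d + x') = m • y - (x' - x) := by
        rw [even_smul hfin hm2]; module
      have e2 : m • y - (x' - x) = e • (π ^ n • y) - (x' - x - b • y) := by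
        rw [← mul_smul, ← hme]; module
      rw [e1, e2]
      refine fin_sub hfin (hfin.nb_smul _ _ _ _ ?_) hb
      exact fin_mono hfin (by omega) (fin_pow hfin hy.1 n)
    · have e1 : (0 : GaussianInt) • (κ • (L v).T d + x) + (1 : GaussianInt) • (μ • (L v).T d + y) +
          (0 : GaussianInt) • (L v).T d - (μ • (L v).T d + y) = 0 := by module
      rw [e1]
      exact hfin.nb_zero _ _

include hF hO hT in
theorem mv2 {s : ∀ v, (L v).Sys} {d : (L v).D} {c : ℕ} {κ μ : GaussianInt} {x y y' : (L v).M d}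
    (hx : lv (L v) d c x) (hy : y ∈ (L v).nb d c) (hy' : y' ∈ (L v).nb d c)
    (h : F (Function.update s v ⟨d, κ • (L v).T d + x, μ • (L v).T d + y⟩)) :
    F (Function.update s v ⟨d, κ • (L v).T d + x, μ • (L v).T d + y'⟩) := by
  apply cl_upd hF
  intro n
  have hfin := hT.toFinAx
  obtain ⟨b, hb⟩ := hfin.gen d c x hx.1 hx.2 (y' - y) (fin_sub hfin hy' hy) n
  obtain ⟨m, e, hm2, hm, hme⟩ := exists_mult hfin.prime hT.odd hO (fun w => (s w).1) n b
  refine ⟨_, _, aff_upd hF 1 0 m 1 0 0 (by simp) h, ?_, ?_⟩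
  · intro w hw
    have hw' := hO.fin w hw
    have h3 := hm w hw (s w).2.1
    rcases hsw : s w with ⟨d', P, Q⟩
    rw [hsw] at h3
    apply LD.close_mk
    · have e1 : (1 : GaussianInt) • P + (0 : GaussianInt) • Q + (0 : GaussianInt) • (L w).T d' - P =
        0 := by module
      rw [e1]
      exact hw'.nb_zero _ _
    · have e1 : m • P + (1 : GaussianInt) • Q + (0 : GaussianInt) • (L w).T d' - Q = m • P := by
        module
      rw [e1]
      exact h3
  · apply LD.close_mk
    · have e1 : (1 : GaussianInt) • (κ • (L v).T d + x) + (0 : GaussianInt) • (μ • (L v).T d + y) +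
          (0 : GaussianInt) • (L v).T d - (κ • (L v).T d + x) = 0 := by module
      rw [e1]
      exact hfin.nb_zero _ _
    · have e1 : m • (κ • (L v).T d + x) + (1 : GaussianInt) • (μ • (L v).T d + y) +
          (0 : GaussianInt) • (L v).T d - (μ • (L v).T d + y') = m • x - (y' - y) := by
        rw [even_smul hfin hm2]; module
      have e2 : m • x - (y' - y) = e • (π ^ n • x) - (y' - y - b • x) := by
        rw [← mul_smul, ← hme]; module
      rw [e1, e2]
      refine fin_sub hfin (hfin.nb_smul _ _ _ _ ?_) hb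
      exact fin_mono hfin (by omega) (fin_pow hfin hx.1 n)

include hF hO hT in
theorem node_move {s : ∀ v, (L v).Sys} {d : (L v).D} {c : ℕ} {κ μ : GaussianInt}
    {x y x' y' z : (L v).M d} (hz : lv (L v) d c z)
    (h1 : ct (L v) d c x y) (h2 : ct (L v) d c x' y')
    (h : F (Function.update s v ⟨d, κ • (L v).T d + x, μ • (L v).T d + y⟩)) :
    F (Function.update s v ⟨d, κ • (L v).T d + x', μ • (L v).T d + y'⟩) := by
  have key : F (Function.update s v ⟨d, κ • (L v).T d + z, μ • (L v).T d + z⟩) := by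
    obtain ⟨hx, hy, hl | hl⟩ := h1
    · exact mv1 hF hO hT hz hx hz.1 (mv2 hF hO hT ⟨hx, hl⟩ hy hz.1 h)
    · exact mv2 hF hO hT hz hy hz.1 (mv1 hF hO hT ⟨hy, hl⟩ hx hz.1 h)
  obtain ⟨hx, hy, hl | hl⟩ := h2
  · exact mv2 hF hO hT ⟨hx, hl⟩ hz.1 hy (mv1 hF hO hT hz hz.1 hx key)
  · exact mv1 hF hO hT ⟨hy, hl⟩ hz.1 hx (mv2 hF hO hT hz hz.1 hy key)

include hF hO hT in
/-- all data near a node follow from one datum for every twist and exact level -/
theorem node_all {s : ∀ v, (L v).Sys} {κ μ : GaussianInt}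
    (h : ∀ d c η, lv (L v) d c η → ∃ x y, ct (L v) d c x y ∧
      F (Function.update s v ⟨d, κ • (L v).T d + x, μ • (L v).T d + y⟩))
    {t : (L v).Sys} (ht : t ∈ (L v).NNε κ μ) : F (Function.update s v t) := by
  have hfin := hT.toFinAx
  obtain ⟨d, P, Q⟩ := t
  rw [LD.nnε_iff] at ht
  obtain ⟨h1, h2⟩ := ht
  have e1 : P = κ • (L v).T d + (P - κ • (L v).T d) := by abel
  have e2 : Q = μ • (L v).T d + (Q - μ • (L v).T d) := by abel
  rcases content hfin h1 h2 with h3 | ⟨c, hc⟩
  · apply cl_upd hF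
    intro n
    obtain ⟨η, hη, m, hm⟩ := hfin.lev d n
    obtain ⟨c, hnc, hl⟩ := exists_lv hfin hη hm
    obtain ⟨x, y, hxy, hF'⟩ := h d c η hl
    refine ⟨s, _, hF', fun w hw => LD.close_refl _ (hO.fin w hw).nb_zero n _, ?_⟩
    apply LD.close_mk
    · have e3 : κ • (L v).T d + x - P = x - (P - κ • (L v).T d) := by abel
      rw [e3]
      exact fin_sub hfin (fin_mono hfin hnc hxy.1) (h3 n).1
    · have e3 : μ • (L v).T d + y - Q = y - (Q - μ • (L v).T d) := by abel
      rw [e3]
      exact fin_sub hfin (fin_mono hfin hnc hxy.2.1) (h3 n).2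
  · obtain ⟨z, hz⟩ : ∃ z, lv (L v) d c z := by
      obtain ⟨hx, hy, hl | hl⟩ := hc
      · exact ⟨_, hx, hl⟩
      · exact ⟨_, hy, hl⟩
    obtain ⟨x, y, hxy, hF'⟩ := h d c z hz
    rw [e1, e2]
    exact node_move hF hO hT hz hxy hc hF'

/-! ### base systems -/

/-- everything near the node `(κ, μ)` over base systems -/
def BB (L : ι → LD) (A : Finset ι) (F : (∀ v, (L v).Sys) → Prop) (v : ι) (κ μ : GaussianInt) : Prop :=
  ∀ s : ∀ v, (L v).Sys, (∀ w ∈ A.erase v, (s w).2.2 = 0) → ∀ t ∈ (L v).NNε κ μ,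
    F (Function.update s v t)

include hF hO hT in
theorem bb_zero (κ : GaussianInt) : BB L A F v κ 0 := by
  intro s hs t ht
  refine node_all hF hO hT ?_ ht
  intro d c η hη
  have hfin := hT.toFinAx
  refine ⟨η, 0, ⟨hη.1, hfin.nb_zero _ _, Or.inl hη.2⟩, ?_⟩
  apply hF.base
  intro w hw
  by_cases hwv : w = v
  · subst hwv
    rw [Function.update_self]
    change (0 : GaussianInt) • (L w).T d + 0 = 0
    rw [zero_smul, zero_add]
  · rw [Function.update_of_ne hwv]
    exact hs w (Finset.mem_erase.2 ⟨hwv, hw⟩)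

include hF in
theorem bb_tr {κ μ : GaussianInt} (h : BB L A F v κ μ) (κ' : GaussianInt) : BB L A F v κ' μ := by
  intro s hs t ht
  have h1 := h (fun w => (L w).aff 1 0 0 1 (κ - κ') 0 (s w)) (fun w hw => by
    change (0 : GaussianInt) • (s w).2.1 + (1 : GaussianInt) • (s w).2.2 +
      (0 : GaussianInt) • (L w).T (s w).1 = 0
    rw [hs w hw]; module) ((L v).aff 1 0 0 1 (κ - κ') 0 t) (by
    obtain ⟨d, P, Q⟩ := t
    rw [LD.nnε_iff] at ht
    refine (L v).nnε_iff.2 ⟨?_, ?_⟩
    · have e : (1 : GaussianInt) • P + (0 : GaussianInt) • Q + (κ - κ') • (L v).T d -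
        κ • (L v).T d = P - κ' • (L v).T d := by module
      rw [e]; exact ht.1
    · have e : (0 : GaussianInt) • P + (1 : GaussianInt) • Q + (0 : GaussianInt) • (L v).T d -
        μ • (L v).T d = Q - μ • (L v).T d := by module
      rw [e]; exact ht.2)
  have h2 := aff_upd hF 1 0 0 1 (κ' - κ) 0 (by simp) h1
  have e : ∀ (M : LD) (t : M.Sys), M.aff 1 0 0 1 (κ' - κ) 0 (M.aff 1 0 0 1 (κ - κ') 0 t) = t := by
    intro M t
    obtain ⟨d, P, Q⟩ := t
    apply M.sys_ext
    · change (1 : GaussianInt) • ((1 : GaussianInt) • P + (0 : GaussianInt) • Q +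
        (κ - κ') • M.T d) + (0 : GaussianInt) • ((0 : GaussianInt) • P + (1 : GaussianInt) • Q +
        (0 : GaussianInt) • M.T d) + (κ' - κ) • M.T d = P
      module
    · change (0 : GaussianInt) • ((1 : GaussianInt) • P + (0 : GaussianInt) • Q +
        (κ - κ') • M.T d) + (1 : GaussianInt) • ((0 : GaussianInt) • P + (1 : GaussianInt) • Q +
        (0 : GaussianInt) • M.T d) + (0 : GaussianInt) • M.T d = Q
      module
  simpa only [e] using h2

include hF hT in
theorem bb_unit {κ μ : GaussianInt} (h : BB L A F v κ μ) {u u' : GaussianInt} (hu : u * u' = 1) :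
    BB L A F v κ (u * μ) := by
  intro s hs t ht
  have huu : IsUnit (1 * u' - 0 * 0) := by
    have : (1 * u' - 0 * 0 : GaussianInt) = u' := by ring
    rw [this]
    exact IsUnit.of_mul_eq_one u (by rw [mul_comm]; exact hu)
  have hu2 : IsUnit (1 * u - 0 * 0) := by
    have : (1 * u - 0 * 0 : GaussianInt) = u := by ring
    rw [this]
    exact IsUnit.of_mul_eq_one u' hu
  have h1 := h (fun w => (L w).aff 1 0 0 u' 0 0 (s w)) (fun w hw => by
    change (0 : GaussianInt) • (s w).2.1 + u' • (s w).2.2 +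
      (0 : GaussianInt) • (L w).T (s w).1 = 0
    rw [hs w hw]; module) ((L v).aff 1 0 0 u' 0 0 t) (by
    obtain ⟨d, P, Q⟩ := t
    rw [LD.nnε_iff] at ht
    refine (L v).nnε_iff.2 ⟨?_, ?_⟩
    · have e : (1 : GaussianInt) • P + (0 : GaussianInt) • Q + (0 : GaussianInt) • (L v).T d -
        κ • (L v).T d = P - κ • (L v).T d := by module
      rw [e]; exact ht.1
    · have e : (0 : GaussianInt) • P + u' • Q + (0 : GaussianInt) • (L v).T d -
        μ • (L v).T d = u' • (Q - (u * μ) • (L v).T d) + ((u * u' - 1) * μ) • (L v).T d := by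
        module
      rw [e, hu, sub_self, zero_mul, zero_smul, add_zero]
      exact hT.nb_smul _ _ _ _ ht.2)
  have h2 := aff_upd hF 1 0 0 u 0 0 hu2 h1
  have e : ∀ (M : LD) (t : M.Sys), M.aff 1 0 0 u 0 0 (M.aff 1 0 0 u' 0 0 t) = t := by
    intro M t
    obtain ⟨d, P, Q⟩ := t
    apply M.sys_ext
    · change (1 : GaussianInt) • ((1 : GaussianInt) • P + (0 : GaussianInt) • Q +
        (0 : GaussianInt) • M.T d) + (0 : GaussianInt) • ((0 : GaussianInt) • P + u' • Q +
        (0 : GaussianInt) • M.T d) + (0 : GaussianInt) • M.T d = P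
      module
    · change (0 : GaussianInt) • ((1 : GaussianInt) • P + (0 : GaussianInt) • Q +
        (0 : GaussianInt) • M.T d) + u • ((0 : GaussianInt) • P + u' • Q +
        (0 : GaussianInt) • M.T d) + (0 : GaussianInt) • M.T d = Q
      have e1 : (0 : GaussianInt) • ((1 : GaussianInt) • P + (0 : GaussianInt) • Q +
        (0 : GaussianInt) • M.T d) + u • ((0 : GaussianInt) • P + u' • Q +
        (0 : GaussianInt) • M.T d) + (0 : GaussianInt) • M.T d = (u * u') • Q := by module
      rw [e1, hu, one_smul]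
  simpa only [e] using h2

include hF hO hT in
theorem bb_link {κ₀ μ₀ κ₁ μ₁ : GaussianInt} (h : BB L A F v κ₀ μ₀)
    (hl : ∀ d c η, lv (L v) d c η → ∃ x y, ct (L v) d c x y ∧ ∃ t' ∈ (L v).NNε κ₀ μ₀,
      (L v).S t' ⟨d, κ₁ • (L v).T d + x, μ₁ • (L v).T d + y⟩) : BB L A F v κ₁ μ₁ := by
  intro s hs t ht
  have hfin := hT.toFinAx
  apply cl_upd hF
  intro n
  -- data at the other places
  have key : ∀ w, ∃ (l₀ : (L w).Sys) (m : ℕ), w ∈ A.erase v →
      ((∀ b : GaussianInt, b ≠ 0 → b • l₀.2.1 ≠ 0) ∧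
      ∀ g : GaussianInt, g ≠ 0 → g • l₀.2.1 ∈ (L w).nb l₀.1 m →
        ∃ l', (L w).S ⟨l₀.1, l₀.2.1, g • l₀.2.1⟩ l' ∧ (L w).close n l' (s w)) := by
    intro w
    by_cases hw : w ∈ A.erase v
    · have h0 := hs w hw
      rcases hsw : s w with ⟨d, Q, R⟩
      rw [hsw] at h0
      change R = 0 at h0
      subst h0
      obtain ⟨d', Q', h1, m, h2⟩ := (hO.fin w hw).lim d Q n
      exact ⟨⟨d', Q', 0⟩, m, fun _ => ⟨h1, h2⟩⟩
    · exact ⟨s w, 0, fun h => absurd h hw⟩
  choose l₁ m hkey using key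
  obtain ⟨γ, hγ0, hγ2, hγ, -⟩ := exists_kill hfin.prime hT.odd hO (fun w => (l₁ w).1) m
  have hl' : ∀ w, ∃ l', w ∈ A.erase v →
      ((L w).S ⟨(l₁ w).1, (l₁ w).2.1, γ • (l₁ w).2.1⟩ l' ∧ (L w).close n l' (s w)) := by
    intro w
    by_cases hw : w ∈ A.erase v
    · obtain ⟨l', h⟩ := (hkey w hw).2 γ hγ0 (by
        have := hγ w hw (l₁ w).2.1 1
        rwa [one_mul] at this)
      exact ⟨l', fun _ => h⟩
    · exact ⟨s w, fun h => absurd h hw⟩
  choose l' hl1 using hl'
  set s₀ : ∀ w, (L w).Sys := fun w => ⟨(l₁ w).1, (l₁ w).2.1, 0⟩ with hs₀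
  have h4 : ∀ t₀ ∈ (L v).NNε κ₀ μ₀,
      F (Function.update (fun w => (L w).aff 1 0 γ 1 0 0 (s₀ w)) v t₀) := by
    intro t₀ ht₀
    have h5 := h s₀ (fun w _ => rfl) ((L v).aff 1 0 (-γ) 1 0 0 t₀) (by
      obtain ⟨d, P, Q⟩ := t₀
      rw [LD.nnε_iff] at ht₀
      refine (L v).nnε_iff.2 ⟨?_, ?_⟩
      · have e : (1 : GaussianInt) • P + (0 : GaussianInt) • Q + (0 : GaussianInt) • (L v).T d -
          κ₀ • (L v).T d = P - κ₀ • (L v).T d := by module
        rw [e]; exact ht₀.1
      · have e : (-γ) • P + (1 : GaussianInt) • Q + (0 : GaussianInt) • (L v).T d -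
          μ₀ • (L v).T d = (Q - μ₀ • (L v).T d) - γ • (κ₀ • (L v).T d + (P - κ₀ • (L v).T d)) := by
          module
        rw [e, even_smul hfin hγ2]
        exact fin_sub hfin ht₀.2 (hfin.nb_smul _ _ _ _ ht₀.1))
    have h6 := aff_upd hF 1 0 γ 1 0 0 (by simp) h5
    have e : (L v).aff 1 0 γ 1 0 0 ((L v).aff 1 0 (-γ) 1 0 0 t₀) = t₀ := by
      obtain ⟨d, P, Q⟩ := t₀
      apply (L v).sys_ext
      · change (1 : GaussianInt) • ((1 : GaussianInt) • P + (0 : GaussianInt) • Q +
          (0 : GaussianInt) • (L v).T d) + (0 : GaussianInt) • ((-γ) • P + (1 : GaussianInt) • Q +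
          (0 : GaussianInt) • (L v).T d) + (0 : GaussianInt) • (L v).T d = P
        module
      · change γ • ((1 : GaussianInt) • P + (0 : GaussianInt) • Q +
          (0 : GaussianInt) • (L v).T d) + (1 : GaussianInt) • ((-γ) • P + (1 : GaussianInt) • Q +
          (0 : GaussianInt) • (L v).T d) + (0 : GaussianInt) • (L v).T d = Q
        module
    rwa [e] at h6
  refine ⟨l', t, ?_, fun w hw => (hl1 w hw).2, LD.close_refl _ hfin.nb_zero n t⟩
  refine node_all hF hO hT ?_ ht
  intro d c η hη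
  obtain ⟨x, y, hc, t₀, ht₀, hsg⟩ := hl d c η hη
  refine ⟨x, y, hc, ?_⟩
  refine sig_upd hF (h4 t₀ ht₀) (fun w hw => ?_) hsg
  have h7 := (hl1 w hw).1
  have e : (L w).aff 1 0 γ 1 0 0 (s₀ w) = ⟨(l₁ w).1, (l₁ w).2.1, γ • (l₁ w).2.1⟩ := by
    apply (L w).sys_ext
    · change (1 : GaussianInt) • (l₁ w).2.1 + (0 : GaussianInt) • (0 : (L w).M (l₁ w).1) +
        (0 : GaussianInt) • (L w).T (l₁ w).1 = (l₁ w).2.1
      module
    · change γ • (l₁ w).2.1 + (1 : GaussianInt) • (0 : (L w).M (l₁ w).1) +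
        (0 : GaussianInt) • (L w).T (l₁ w).1 = γ • (l₁ w).2.1
      module
  rw [e]
  exact h7

/-- reduction modulo 2 -/
theorem mod_two (μ : GaussianInt) : ∃ μ' ν : GaussianInt, μ = μ' + 2 * ν ∧
    (μ' = 0 ∨ μ' = 1 ∨ μ' = ⟨0, 1⟩ ∨ μ' = ⟨1, 1⟩) := by
  obtain ⟨x, y⟩ := μ
  refine ⟨⟨x % 2, y % 2⟩, ⟨x / 2, y / 2⟩, ?_, ?_⟩
  · apply Zsqrtd.ext
    · simp; omega
    · simp; omega
  · rcases Int.emod_two_eq_zero_or_one x with hx | hx <;>
      rcases Int.emod_two_eq_zero_or_one y with hy | hy <;> rw [hx, hy]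
    · left; rfl
    · right; right; left; rfl
    · right; left; rfl
    · right; right; right; rfl

include hF hO hT in
theorem bb_all (κ μ : GaussianInt) : BB L A F v κ μ := by
  have hfin := hT.toFinAx
  have b0 : ∀ κ, BB L A F v κ 0 := bb_zero hF hO hT
  have b1 : ∀ κ, BB L A F v κ 1 := by
    apply bb_tr (κ := 1) hF
    refine bb_link hF hO hT (b0 0) ?_
    intro d c η hη
    obtain ⟨x, hx, y, hy, hxy, t', ht', hS⟩ := hT.sigTT d c η hη.1 hη.2
    refine ⟨x, y, ⟨hx, hy, hxy⟩, t', ht', ?_⟩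
    rw [one_smul]
    exact hS
  have bi : ∀ κ, BB L A F v κ ⟨0, 1⟩ := by
    intro κ
    have hi : (⟨0, 1⟩ : GaussianInt) * ⟨0, -1⟩ = 1 := by
      apply Zsqrtd.ext <;> simp
    have h1 := bb_unit hF hT (b1 κ) hi
    rwa [mul_one] at h1
  have b2 : ∀ κ, BB L A F v κ ⟨1, 1⟩ := by
    apply bb_tr (κ := 1) hF
    refine bb_link hF hO hT (bi 1) ?_
    intro d c η hη
    obtain ⟨x, hx, y, hy, hxy, t', ht', hS⟩ := hT.sigT1 d c η hη.1 hη.2
    refine ⟨x, y, ⟨hx, hy, hxy⟩, t', ht', ?_⟩
    rw [one_smul]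
    exact hS
  obtain ⟨μ', ν, rfl, hμ⟩ := mod_two μ
  have key : BB L A F v κ μ' := by
    rcases hμ with rfl | rfl | rfl | rfl
    · exact b0 κ
    · exact b1 κ
    · exact bi κ
    · exact b2 κ
  intro s hs t ht
  apply key s hs t
  obtain ⟨d, P, Q⟩ := t
  rw [LD.nnε_iff] at ht ⊢
  refine ⟨ht.1, ?_⟩
  have e : Q - (μ' + 2 * ν) • (L v).T d = Q - μ' • (L v).T d - ν • ((2 : GaussianInt) • (L v).T d) := by
    module
  rw [hfin.two_T, smul_zero, sub_zero] at e
  rw [← e]
  exact ht.2

/-- the derived predicate on the other places -/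
def Der (F : (∀ v, (L v).Sys) → Prop) (v : ι) (s : ∀ v, (L v).Sys) : Prop :=
  ∀ t ∈ (L v).NN, F (Function.update s v t)

theorem nn_aff {M : LD} {p : GaussianInt} (hM : M.FinAx p) (α β γ δ κ μ : GaussianInt) {t : M.Sys}
    (ht : t ∈ M.NN) : M.aff α β γ δ κ μ t ∈ M.NN := by
  obtain ⟨κ₁, μ₁, ht⟩ := ht
  obtain ⟨d, P, Q⟩ := t
  rw [LD.nnε_iff] at ht
  refine ⟨α * κ₁ + β * μ₁ + κ, γ * κ₁ + δ * μ₁ + μ, M.nnε_iff.2 ⟨?_, ?_⟩⟩
  · have e : α • P + β • Q + κ • M.T d - (α * κ₁ + β * μ₁ + κ) • M.T d =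
        α • (P - κ₁ • M.T d) + β • (Q - μ₁ • M.T d) := by module
    rw [e]
    exact hM.nb_add _ _ _ (hM.nb_smul _ _ _ _ ht.1) _ (hM.nb_smul _ _ _ _ ht.2)
  · have e : γ • P + δ • Q + μ • M.T d - (γ * κ₁ + δ * μ₁ + μ) • M.T d =
        γ • (P - κ₁ • M.T d) + δ • (Q - μ₁ • M.T d) := by module
    rw [e]
    exact hM.nb_add _ _ _ (hM.nb_smul _ _ _ _ ht.1) _ (hM.nb_smul _ _ _ _ ht.2)

include hF hO hT in
theorem der_stable : Stable L (A.erase v) (Der F v) where
  dep := by
    intro s s' h hs t ht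
    exact dep_upd hF h (hs t ht)
  cl := by
    intro s hs t ht
    apply cl_upd hF
    intro n
    obtain ⟨s', h1, h2⟩ := hs n
    exact ⟨s', t, h1 t ht, h2, LD.close_refl _ hT.nb_zero n t⟩
  aff := by
    intro α β γ δ κ μ hu s hs t ht
    obtain ⟨α', β', γ', δ', κ', μ', -, hinv⟩ := aff_inv κ μ hu
    have h1 := aff_upd hF α β γ δ κ μ hu (hs _ (nn_aff hT.toFinAx α' β' γ' δ' κ' μ' ht))
    rwa [hinv] at h1
  sig := by
    intro s s' hs hss t ht
    obtain ⟨κ, μ, hij⟩ := ht
    refine node_all hF hO hT ?_ hij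
    intro d c η hη
    obtain ⟨x, hx, y, hy, hxy, t', ht', hS⟩ := hT.sigNN d c η hη.1 hη.2 κ μ
    exact ⟨x, y, ⟨hx, hy, hxy⟩, sig_upd hF (hs t' ht') hss hS⟩
  base := by
    intro s hs t ht
    obtain ⟨κ, μ, hij⟩ := ht
    exact bb_all hF hO hT κ μ s hs t hij

include hF in
theorem all_of_der (hfin : ∀ w ∈ A.erase v, ∃ p, (L w).FinAx p)
    (htr : ∀ D : Set (L v).Sys, (L v).LStable D → (L v).NN ⊆ D → D = Set.univ)
    (h0 : ∀ d n, (0 : (L v).M d) ∈ (L v).nb d n)
    (h : ∀ s, Der F v s) : ∀ s, F s := by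
  set D : Set (L v).Sys := {t | ∀ s, F (Function.update s v t)} with hD
  have key : D = Set.univ := by
    apply htr
    · refine ⟨?_, ?_, ?_⟩
      · intro t ht s
        apply cl_upd hF
        intro n
        obtain ⟨t', h1, h2⟩ := ht n
        refine ⟨s, t', h1 s, fun w hw => ?_, h2⟩
        obtain ⟨p, hp⟩ := hfin w hw
        exact LD.close_refl _ hp.nb_zero n _
      · intro α β γ δ κ μ hu t ht s
        obtain ⟨α', β', γ', δ', κ', μ', -, hinv⟩ := aff_inv κ μ hu
        have h1 := aff_upd hF α β γ δ κ μ hu (ht (fun w => (L w).aff α' β' γ' δ' κ' μ' (s w)))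
        simpa only [hinv] using h1
      · intro t t' htt ht s
        apply cl_upd hF
        intro n
        have h1 : ∀ w, ∃ l' l₀, w ∈ A.erase v → ((L w).S l₀ l' ∧ (L w).close n l' (s w)) := by
          intro w
          by_cases hw : w ∈ A.erase v
          · obtain ⟨p, hp⟩ := hfin w hw
            obtain ⟨l', h1, l₀, h2⟩ := hp.dens (s w) n
            exact ⟨l', l₀, fun _ => ⟨h2, h1⟩⟩
          · exact ⟨s w, s w, fun h => absurd h hw⟩
        choose l' l₀ h2 using h1
        exact ⟨l', t', sig_upd hF (ht l₀) (fun w hw => (h2 w hw).1) htt,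
          fun w hw => (h2 w hw).2, LD.close_refl _ h0 n t'⟩
    · intro t ht s
      exact h s t ht
  intro s
  have h1 : s v ∈ D := by rw [key]; trivial
  have h2 := h1 s
  rwa [Function.update_eq_self] at h2

end step

/-! ### the place above 2 alone -/

theorem lam_step {A : Finset ι} {F : (∀ v, (L v).Sys) → Prop} (hF : Stable L A F) {v : ι}
    (hA : A.erase v = ∅) (hL : (L v).LamAx) : ∀ s, F s := by
  intro s
  set D : Set (L v).Sys := {t | F (Function.update s v t)} with hD
  have hdep : ∀ (s' : ∀ v, (L v).Sys) (t : (L v).Sys), F (Function.update s' v t) →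
      F (Function.update s v t) := by
    intro s' t h
    refine dep_upd hF (fun w hw => ?_) h
    rw [hA] at hw
    exact absurd hw (Finset.notMem_empty w)
  have key : D = Set.univ := by
    apply hL.trans
    · refine ⟨?_, ?_, ?_⟩
      · intro t ht
        change F (Function.update s v t)
        apply cl_upd hF
        intro n
        obtain ⟨t', h1, h2⟩ := ht n
        refine ⟨s, t', h1, fun w hw => ?_, h2⟩
        rw [hA] at hw
        exact absurd hw (Finset.notMem_empty w)
      · intro α β γ δ κ μ hu t ht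
        exact hdep _ _ (aff_upd hF α β γ δ κ μ hu ht)
      · intro t t' htt ht
        change F (Function.update s v t')
        refine hdep s _ (sig_upd hF ht (fun w hw => ?_) htt)
        rw [hA] at hw
        exact absurd hw (Finset.notMem_empty w)
    · intro d P
      change F (Function.update s v ⟨d, P, 0⟩)
      apply hF.base
      intro w hw
      by_cases hwv : w = v
      · subst hwv
        rw [Function.update_self]
      · have : w ∈ A.erase v := Finset.mem_erase.2 ⟨hwv, hw⟩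
        rw [hA] at this
        exact absurd this (Finset.notMem_empty w)
  have h1 : s v ∈ D := by rw [key]; trivial
  have h2 : F (Function.update s v (s v)) := h1
  rwa [Function.update_eq_self] at h2

/-! ### the complex place -/

theorem inf_step {A : Finset ι} {F : (∀ v, (L v).Sys) → Prop} (hF : Stable L A F) {v : ι}
    {q : ι → GaussianInt} (hq : ∀ w ∈ A.erase v, (L w).FinAx (q w)) (hI : (L v).InfAx)
    (hind : ∀ F', Stable L (A.erase v) F' → ∀ s, F' s) : ∀ s, F s := by
  have key : ∀ s : ∀ v, (L v).Sys, ∀ t : (L v).Sys, F (Function.update s v t) := by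
    apply hind (fun s => ∀ t : (L v).Sys, F (Function.update s v t))
    refine ⟨?_, ?_, ?_, ?_, ?_⟩
    · intro s s' h hs t
      exact dep_upd hF h (hs t)
    · intro s hs t
      apply cl_upd hF
      intro n
      obtain ⟨s', h1, h2⟩ := hs n
      exact ⟨s', t, h1 t, h2, LD.close_refl _ hI.nb_zero n t⟩
    · intro α β γ δ κ μ hu s hs t
      obtain ⟨α', β', γ', δ', κ', μ', -, hinv⟩ := aff_inv κ μ hu
      have h1 := aff_upd hF α β γ δ κ μ hu (hs ((L v).aff α' β' γ' δ' κ' μ' t))
      rwa [hinv] at h1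
    · intro s s' hs hss t
      apply cl_upd hF
      intro n
      obtain ⟨t', h1, t'', h2⟩ := hI.dens t n
      exact ⟨s', t', sig_upd hF (hs t'') hss h2,
        fun w hw => LD.close_refl _ (hq w hw).nb_zero n _, h1⟩
    · intro s hs t
      obtain ⟨d, P, Q⟩ := t
      apply cl_upd hF
      intro n
      -- a common multiplier at the finite places
      have h1 : ∀ w, ∃ a : GaussianInt, w ∈ A.erase v →
          (a ≠ 0 ∧ ∀ P : (L w).M (s w).1, a • P ∈ (L w).nb (s w).1 0) := by
        intro w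
        by_cases hw : w ∈ A.erase v
        · obtain ⟨a, h3, h4, -⟩ := (hq w hw).expo (s w).1
          exact ⟨a, fun _ => ⟨h3, h4⟩⟩
        · exact ⟨0, fun h => absurd h hw⟩
      choose a ha using h1
      set K : GaussianInt := ∏ w ∈ A.erase v, (a w * q w ^ n) with hK
      have hK0 : K ≠ 0 := by
        refine Finset.prod_ne_zero_iff.2 fun w hw => ?_
        exact mul_ne_zero (ha w hw).1 (pow_ne_zero _ (hq w hw).prime.ne_zero)
      have hKs : ∀ w ∈ A.erase v, ∀ (b : GaussianInt) (x : (L w).M (s w).1),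
          (K * b) • x ∈ (L w).nb (s w).1 n := by
        intro w hw b x
        rw [hK, ← Finset.prod_erase_mul _ _ hw]
        have e1 : (∏ u ∈ (A.erase v).erase w, (a u * q u ^ n)) * (a w * q w ^ n) * b =
          (b * (∏ u ∈ (A.erase v).erase w, (a u * q u ^ n))) * (q w ^ n * a w) := by ring
        rw [e1, mul_smul]
        apply (hq w hw).nb_smul
        rw [mul_smul]
        have := fin_pow (hq w hw) ((ha w hw).2 x) n
        rwa [zero_add] at this
      obtain ⟨P', hnt, hP'⟩ := hI.nontor d P n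
      obtain ⟨α, hα⟩ := hI.orb d P' hnt K hK0 (-Q) n
      have h2 : F (Function.update s v ⟨d, P', 0⟩) := by
        apply hF.base
        intro w hw
        by_cases hwv : w = v
        · subst hwv
          rw [Function.update_self]
        · rw [Function.update_of_ne hwv]
          exact hs w (Finset.mem_erase.2 ⟨hwv, hw⟩)
      refine ⟨_, _, aff_upd hF 1 0 (K * (-α)) 1 0 0 (by simp) h2, ?_, ?_⟩
      · intro w hw
        have h3 := hKs w hw (-α) (s w).2.1
        rcases hsw : s w with ⟨d', X, Y⟩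
        rw [hsw] at h3
        apply LD.close_mk
        · have e1 : (1 : GaussianInt) • X + (0 : GaussianInt) • Y +
            (0 : GaussianInt) • (L w).T d' - X = 0 := by module
          rw [e1]
          exact (hq w hw).nb_zero _ _
        · have e1 : (K * (-α)) • X + (1 : GaussianInt) • Y + (0 : GaussianInt) • (L w).T d' - Y =
            (K * (-α)) • X := by module
          rw [e1]
          exact h3
      · apply LD.close_mk
        · have e1 : (1 : GaussianInt) • P' + (0 : GaussianInt) • (0 : (L v).M d) +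
            (0 : GaussianInt) • (L v).T d - P = P' - P := by module
          rw [e1]
          exact hP'
        · have e1 : (K * (-α)) • P' + (1 : GaussianInt) • (0 : (L v).M d) +
            (0 : GaussianInt) • (L v).T d - Q = -Q - (K * α) • P' := by module
          rw [e1]
          exact hα
  intro s
  have := key s (s v)
  rwa [Function.update_eq_self] at this

/-- the prime element of a place -/
def Kind.pr : Kind → GaussianInt
  | .tame π => π
  | .lam => ⟨1, 1⟩
  | .inf => ⟨1, 1⟩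

theorem lam_dvd_two : (⟨1, 1⟩ : GaussianInt) ∣ 2 := by
  refine ⟨⟨1, -1⟩, ?_⟩
  apply Zsqrtd.ext <;> simp

theorem two_le_norm {π : GaussianInt} (hπ : Prime π) : 2 ≤ π.norm.natAbs := by
  have h0 : π.norm.natAbs ≠ 0 := by
    intro h
    rw [Int.natAbs_eq_zero] at h
    by_contra _
    have h1 : 0 < Zsqrtd.norm π := GaussianInt.norm_pos.2 hπ.ne_zero
    omega
  have h1 : π.norm.natAbs ≠ 1 := by
    intro h
    exact hπ.not_isUnit (Zsqrtd.norm_eq_one_iff.1 h)
  omega

theorem ind {ι : Type} [DecidableEq ι] (L : ι → LD) (k : ι → Kind)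
    (hk : ∀ v, KindAx (L v) (k v))
    (hinj : ∀ v w π π', k v = .tame π → k w = .tame π' → Associated π π' → v = w)
    (hlam : ∀ v w, k v = .lam → k w = .lam → v = w)
    (hinf : ∀ v w, k v = .inf → k w = .inf → v = w)
    (A : Finset ι) (F : (∀ v, (L v).Sys) → Prop) (hF : Stable L A F) : ∀ s, F s := by
  induction A using Finset.strongInduction generalizing F with
  | H A ih =>
    have hfin : ∀ w, k w ≠ .inf → (L w).FinAx (k w).pr := by
      intro w hw
      have h := hk w
      rcases hkw : k w with π | _ | _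
      · rw [hkw] at h
        exact h.toFinAx
      · rw [hkw] at h
        exact h.toFinAx
      · exact absurd hkw hw
    by_cases hI : ∃ v ∈ A, k v = .inf
    · obtain ⟨v, hv, hvi⟩ := hI
      have hL := hk v
      rw [hvi] at hL
      refine inf_step hF (v := v) (q := fun w => (k w).pr) ?_ hL
        (fun F' hF' => ih _ (Finset.erase_ssubset hv) F' hF')
      intro w hw
      apply hfin
      intro hwi
      exact (Finset.mem_erase.1 hw).1 (hinf _ _ hwi hvi)
    push Not at hI
    by_cases hT : ∃ v ∈ A, ∃ π, k v = .tame π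
    · -- the tame place of largest norm
      classical
      obtain ⟨v, hv, hmax⟩ := Finset.exists_max_image (A.filter fun v => ∃ π, k v = .tame π)
        (fun v => (k v).pr.norm.natAbs) (by
          obtain ⟨v, hv, h⟩ := hT
          exact ⟨v, Finset.mem_filter.2 ⟨hv, h⟩⟩)
      obtain ⟨hvA, π, hvπ⟩ := Finset.mem_filter.1 hv
      have hL : (L v).TameAx π := by
        have := hk v
        rwa [hvπ] at this
      have hO : Oth L (A.erase v) π (fun w => (k w).pr) := by
        refine ⟨?_, ?_, ?_⟩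
        · intro w hw
          exact hfin w (hI w (Finset.mem_erase.1 hw).2)
        · intro w hw hd
          obtain ⟨hwv, hwA⟩ := Finset.mem_erase.1 hw
          rcases hkw : k w with π' | _ | _
          · rw [hkw] at hd
            change π ∣ π' at hd
            have hπ' : Prime π' := by
              have := hfin w (hI w hwA)
              rw [hkw] at this
              exact this.prime
            exact hwv (hinj _ _ _ _ hkw hvπ ((hL.prime.associated_of_dvd hπ' hd).symm))
          · rw [hkw] at hd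
            exact hL.odd (hd.trans lam_dvd_two)
          · exact hI w hwA hkw
        · intro w hw
          obtain ⟨hwv, hwA⟩ := Finset.mem_erase.1 hw
          rcases hkw : k w with π' | _ | _
          · have := hmax w (Finset.mem_filter.2 ⟨hwA, π', hkw⟩)
            rw [hvπ, hkw] at this
            exact this
          · exact two_le_norm hL.prime
          · exact absurd hkw (hI w hwA)
      refine all_of_der hF (v := v) ?_ hL.trans hL.nb_zero
        (ih _ (Finset.erase_ssubset hvA) _ (der_stable hF hO hL))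
      intro w hw
      exact ⟨_, hfin w (hI w (Finset.mem_erase.1 hw).2)⟩
    · push Not at hT
      rcases A.eq_empty_or_nonempty with rfl | ⟨v, hv⟩
      · intro s
        exact hF.base s (by simp)
      · have hall : ∀ w ∈ A, k w = .lam := by
          intro w hw
          rcases hkw : k w with π' | _ | _
          · exact absurd hkw (hT w hw π')
          · rfl
          · exact absurd hkw (hI w hw)
        have hL := hk v
        rw [hall v hv] at hL
        refine lam_step hF (v := v) ?_ hL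
        apply Finset.eq_empty_of_forall_notMem
        intro w hw
        exact (Finset.mem_erase.1 hw).1 (hlam _ _ (hall w (Finset.mem_erase.1 hw).2) (hall v hv))

end GWA
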