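import Pool.Agent.Helper9.GWA.GNear
import Pool.Agent.Helper15.WA.LocDefs
import Pool.Agent.Helper10.GWA.Mul

/-!
# The complex place, part 1: continuity, countability of torsion, connectedness
-/

namespace GWA

open Polynomial Topology

/-! ### torsion points -/

section tors

variable {K : Type} [Field K] [Algebra GaussianInt K] [NeZero (2 : K)] [DecidableEq K]

omit [Algebra GaussianInt K] [NeZero (2 : K)] [DecidableEq K] in
/-- there are finitely many points with given normalised x-coordinate -/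
theorem finite_nx_eq {d : K} (hd : d ≠ 0) (x : K) : {P : E d | P ≠ 0 ∧ nx P = x}.Finite := by
  by_cases hne : ∃ P : E d, P ≠ 0 ∧ nx P = x
  · obtain ⟨P, hP, hx⟩ := hne
    apply Set.Finite.subset (Set.toFinite {P, -P})
    rintro Q ⟨hQ, hQx⟩
    rcases (nx_eq_iff hd hQ hP).1 (hQx.trans hx.symm) with h | h
    · left; exact h
    · right; exact h
  · convert Set.finite_empty
    ext P
    simp only [Set.mem_setOf_eq, Set.mem_empty_iff_false, iff_false]
    exact fun h => hne ⟨P, h⟩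

omit [Algebra GaussianInt K] [NeZero (2 : K)] [DecidableEq K] in
theorem finite_nx_mem {d : K} (hd : d ≠ 0) {B : Set K} (hB : B.Finite) :
    {P : E d | P ≠ 0 ∧ nx P ∈ B}.Finite := by
  have : {P : E d | P ≠ 0 ∧ nx P ∈ B} ⊆ ⋃ x ∈ B, {P : E d | P ≠ 0 ∧ nx P = x} := by
    rintro P ⟨h1, h2⟩
    simp only [Set.mem_iUnion]
    exact ⟨nx P, h2, h1, rfl⟩
  exact (Set.Finite.biUnion hB (fun x _ => finite_nx_eq hd x)).subset this

/-- the torsion is finite -/
theorem finite_tors [CharZero K] (d : Kˣ) {g : GaussianInt} (hg : g ≠ 0)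
    (hinj : Function.Injective (algebraMap GaussianInt K)) :
    {P : E (d : K) | g • P = 0}.Finite := by
  obtain ⟨U, V, hM⟩ := exists_mulPol' g hg
  set W := V.map (algebraMap GaussianInt K) with hW
  have hW0 : W ≠ 0 := by
    intro h0
    have h3 := congrArg (fun p => Polynomial.coeff p (g.norm.natAbs - 1)) h0
    simp only [hW, coeff_map, coeff_zero, hM.topV] at h3
    rw [map_pow] at h3
    have h4 := pow_eq_zero_iff (two_ne_zero) |>.1 h3
    rw [← map_zero (algebraMap GaussianInt K)] at h4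
    exact hg (hinj h4)
  have hfin : {x : K | W.IsRoot x}.Finite := Polynomial.finite_setOf_isRoot hW0
  have hsub : {P : E (d : K) | g • P = 0} ⊆
      {0} ∪ {P : E (d : K) | P ≠ 0 ∧ nx P ∈ {x : K | W.IsRoot x}} := by
    intro P hP
    by_cases h0 : P = 0
    · left; exact h0
    · right
      refine ⟨h0, ?_⟩
      rcases hM.rep K d P h0 with ⟨-, h1, -⟩ | ⟨h1, -, -⟩
      · change W.IsRoot (nx P)
        rw [IsRoot.def, hW, eval_map_algebraMap]
        exact h1
      · exact absurd hP h1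
  exact ((Set.finite_singleton _).union (finite_nx_mem d.ne_zero hfin)).subset hsub

theorem countable_tors [CharZero K] (d : Kˣ)
    (hinj : Function.Injective (algebraMap GaussianInt K)) :
    {P : E (d : K) | ∃ g : GaussianInt, g ≠ 0 ∧ g • P = 0}.Countable := by
  have hc : Countable GaussianInt := by
    have : Function.Injective (fun z : GaussianInt => (z.re, z.im)) := by
      intro z w h
      rw [Prod.mk.injEq] at h
      exact Zsqrtd.ext h.1 h.2
    exact this.countable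
  have : {P : E (d : K) | ∃ g : GaussianInt, g ≠ 0 ∧ g • P = 0} =
      ⋃ g ∈ {g : GaussianInt | g ≠ 0}, {P : E (d : K) | g • P = 0} := by
    ext P
    simp
  rw [this]
  exact Set.Countable.biUnion (Set.to_countable _) (fun g hg => (finite_tors d hg hinj).countable)

end tors

/-! ### the complex numbers -/

section cplx

theorem norm_II_C [Algebra GaussianInt ℂ] : ‖II ℂ‖ = 1 := by
  have h1 := congrArg norm (II_sq ℂ)
  rw [norm_pow, norm_neg, norm_one] at h1
  have h2 := norm_nonneg (II ℂ)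
  nlinarith

theorem II_C [Algebra GaussianInt ℂ] : II ℂ = Complex.I ∨ II ℂ = -Complex.I := by
  have h := II_sq ℂ
  have h2 : (II ℂ - Complex.I) * (II ℂ + Complex.I) = 0 := by
    have := Complex.I_sq
    linear_combination h - this
  rcases mul_eq_zero.1 h2 with h | h
  · left; exact sub_eq_zero.1 h
  · right; exact eq_neg_of_add_eq_zero_left h

theorem algebraMap_C [Algebra GaussianInt ℂ] (a : GaussianInt) :
    algebraMap GaussianInt ℂ a = a.re + a.im * II ℂ := by
  have : a = (a.re : GaussianInt) + (a.im : GaussianInt) * ⟨0, 1⟩ := by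
    ext <;> simp
  conv_lhs => rw [this]
  rw [map_add, map_mul, map_intCast, map_intCast]
  rfl

theorem norm_coe_sq [Algebra GaussianInt ℂ] (a : GaussianInt) :
    ‖algebraMap GaussianInt ℂ a‖ ^ 2 = (a.norm : ℝ) := by
  rw [algebraMap_C, ← Complex.normSq_eq_norm_sq, Complex.normSq_apply]
  rcases II_C with h | h <;> rw [h] <;> simp [Zsqrtd.norm_def]

theorem algebraMap_C_inj [Algebra GaussianInt ℂ] :
    Function.Injective (algebraMap GaussianInt ℂ) := by
  rw [injective_iff_map_eq_zero]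
  intro a ha
  have := norm_coe_sq a
  rw [ha, norm_zero] at this
  have h2 : a.norm = 0 := by
    have : (a.norm : ℝ) = 0 := by rw [← this]; norm_num
    exact_mod_cast this
  by_contra h0
  have := GaussianInt.norm_pos.2 h0
  omega

/-- existence of points on the complex curve -/
theorem exists_pt_C {d : ℂ} (hd : d ≠ 0) (x : ℂ) : ∃ P : E d, P ≠ 0 ∧ nx P = x := by
  obtain ⟨s, hs⟩ := IsAlgClosed.exists_pow_nat_eq (d * ff x) (n := 2) (by norm_num)
  obtain ⟨P, h1, h2, -⟩ := exists_pt hd hs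
  exact ⟨P, h1, h2⟩

theorem not_countable_nbh {d : ℂ} (hd : d ≠ 0) (n : ℕ) : ¬ (nbh 2 d n).Countable := by
  intro hc
  have h1 : (nx '' (nbh 2 d n) : Set ℂ).Countable := hc.image _
  have h2 := h1.dense_compl ℂ
  obtain ⟨x, hx1, hx2⟩ := h2.inter_open_nonempty {x : ℂ | (2 : ℝ) ^ (2 * n + 1) < ‖x‖}
    (isOpen_lt continuous_const continuous_norm) ⟨(2 : ℂ) ^ (2 * n + 2), by
      simp only [Set.mem_setOf_eq, norm_pow, Complex.norm_ofNat]
      exact pow_lt_pow_right₀ (by norm_num) (by omega)⟩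
  obtain ⟨P, h3, h4⟩ := exists_pt_C hd x
  apply hx2
  refine ⟨P, ?_, h4⟩
  rw [mem_nbh_iff hd]
  right
  rw [h4]
  exact le_of_lt hx1

theorem infinite_nbh_C {d : ℂ} (hd : d ≠ 0) (n : ℕ) : (nbh 2 d n).Infinite := by
  intro hf
  exact not_countable_nbh hd n hf.countable

variable [DecidableEq ℂ]

theorem inf_nontor [Algebra GaussianInt ℂ] (d : ℂˣ) (P : E (d : ℂ)) (n : ℕ) : ∃ P' : E (d : ℂ),
    (∀ g : GaussianInt, g ≠ 0 → g • P' ≠ 0) ∧ P' - P ∈ nbh 2 (d : ℂ) n := by
  by_contra hcon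
  push Not at hcon
  apply not_countable_nbh d.ne_zero n
  have hinj : Function.Injective (fun η : E (d : ℂ) => P + η) := add_right_injective P
  apply Set.countable_of_injective_of_countable_image (f := fun η : E (d : ℂ) => P + η)
    hinj.injOn
  apply (countable_tors d algebraMap_C_inj).mono
  rintro _ ⟨η, hη, rfl⟩
  by_contra h
  simp only [Set.mem_setOf_eq, not_exists, not_and] at h
  apply hcon (P + η) h
  rw [add_sub_cancel_left]
  exact hη

omit [DecidableEq ℂ] in
theorem nx_cases {K : Type*} [Field K] {x : K} (h : ff x = 0) : x = 0 ∨ x = 1 ∨ x = -1 := by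
  unfold ff at h
  have : x * ((x - 1) * (x + 1)) = 0 := by linear_combination h
  rcases mul_eq_zero.1 this with h | h
  · left; exact h
  · right
    rcases mul_eq_zero.1 h with h | h
    · left; exact sub_eq_zero.1 h
    · right; exact eq_neg_of_add_eq_zero_left h

/-- coordinate-close implies group-close, at all points -/
theorem near_of_coord_C {d : ℂ} (hd : d ≠ 0) {P₀ : E d} (hP₀ : P₀ ≠ 0) (n : ℕ) :
    ∃ ε : ℝ, 0 < ε ∧ ∀ P : E d, P ≠ 0 → ‖nx P - nx P₀‖ < ε →
      ‖yc P - yc P₀‖ < ε → P - P₀ ∈ nbh 2 d n := by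
  by_cases hy : yc P₀ ≠ 0
  · exact near_of_coord hd hP₀ hy n
  · push Not at hy
    have hf : ff (nx P₀) = 0 := by
      by_contra hc
      exact (yc_ne_iff hd P₀).2 hc hy
    have hB : (0 : ℝ) < 2 ^ (2 * n + 1) := by positivity
    have h1B : (1 : ℝ) ≤ 2 ^ (2 * n + 1) := one_le_pow₀ (by norm_num)
    have hneg : -P₀ = P₀ := by
      have := add_self_of_yc hy
      exact neg_eq_of_add_eq_zero_left this
    refine ⟨(2 ^ (2 * n + 1))⁻¹, by positivity, fun P hP h1 _ => ?_⟩
    have hε1 : ((2 : ℝ) ^ (2 * n + 1))⁻¹ ≤ 1 := inv_le_one_of_one_le₀ h1B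
    rw [sub_eq_add_neg, hneg, mem_nbh_iff hd]
    rcases nx_cases hf with h0 | h0 | h0
    · -- `T₀`
      have e : P₀ = T₀ hd := by
        apply eq_T₀_of_xc hd hP₀
        rw [xc_eq hd, h0, mul_zero]
      by_cases hx : nx P = 0
      · left
        have e' : P = T₀ hd := by
          apply eq_T₀_of_xc hd hP
          rw [xc_eq hd, hx, mul_zero]
        rw [e, e', T₀_add_T₀]
      · right
        rw [e, (nx_add_T₀ hd hP hx).2, norm_div, norm_neg, norm_one]
        rw [h0, sub_zero] at h1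
        have h2 : 0 < ‖nx P‖ := norm_pos_iff.2 hx
        rw [le_div_iff₀ h2]
        have := mul_le_mul_of_nonneg_left h1.le hB.le
        rwa [mul_inv_cancel₀ hB.ne'] at this
    · -- `T`
      have e : P₀ = T hd := by
        apply eq_T_of_xc hd hP₀
        rw [xc_eq hd, h0, mul_one]
      by_cases hx : nx P = 1
      · left
        have e' : P = T hd := by
          apply eq_T_of_xc hd hP
          rw [xc_eq hd, hx, mul_one]
        rw [e, e', T_add_T]
      · right
        rw [e, (nx_add_T hd hP hx).2, norm_div]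
        rw [h0] at h1
        have h2 : 0 < ‖nx P - 1‖ := norm_pos_iff.2 (sub_ne_zero.2 hx)
        have h3 : 1 ≤ ‖nx P + 1‖ := by
          have h4 : (2 : ℝ) ≤ ‖nx P + 1‖ + ‖nx P - 1‖ := by
            have h5 : ‖(nx P + 1) - (nx P - 1)‖ ≤ ‖nx P + 1‖ + ‖nx P - 1‖ := norm_sub_le _ _
            have h6 : (nx P + 1) - (nx P - 1) = (2 : ℂ) := by ring
            rw [h6, Complex.norm_ofNat] at h5
            exact h5
          linarith
        rw [le_div_iff₀ h2]
        have := mul_le_mul_of_nonneg_left h1.le hB.le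
        rw [mul_inv_cancel₀ hB.ne'] at this
        linarith
    · -- `i T`
      have hx0 : -nx P₀ = 1 := by rw [h0, neg_neg]
      -- the third point is `T + T₀`
      have e : P₀ = T hd + T₀ hd := by
        have h3 : (T hd : E d) ≠ 0 := T_ne hd
        have h4 : nx (T hd : E d) ≠ 0 := by rw [nx_T]; exact one_ne_zero
        obtain ⟨h5, h6⟩ := nx_add_T₀ hd h3 h4
        rw [nx_T, div_one] at h6
        rcases (nx_eq_iff hd hP₀ h5).1 (by rw [h0, h6]) with h | h
        · exact h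
        · rw [h, neg_add, neg_T, neg_T₀]
      by_cases hx : nx P = -1
      · left
        rcases (nx_eq_iff hd hP hP₀).1 (by rw [hx, h0]) with h | h
        · rw [h]; exact add_self_of_yc hy
        · rw [h]; exact neg_add_cancel _
      · right
        by_cases hx1 : nx P = 1
        · exfalso
          rw [hx1, h0] at h1
          have : (1 : ℂ) - -1 = 2 := by norm_num
          rw [this, Complex.norm_ofNat] at h1
          linarith
        obtain ⟨h5, h6⟩ := nx_add_T hd hP hx1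
        have h7 : nx (P + T hd) ≠ 0 := by
          rw [h6]
          apply div_ne_zero
          · intro h8; exact hx (eq_neg_of_add_eq_zero_left h8)
          · exact sub_ne_zero.2 hx1
        rw [e, ← add_assoc, (nx_add_T₀ hd h5 h7).2, h6, norm_div, norm_neg, norm_one, norm_div]
        rw [h0, sub_neg_eq_add] at h1
        have h2 : 0 < ‖nx P + 1‖ := norm_pos_iff.2 (fun h8 => hx (eq_neg_of_add_eq_zero_left h8))
        have h3 : 1 ≤ ‖nx P - 1‖ := by
          have h4 : (2 : ℝ) ≤ ‖nx P + 1‖ + ‖nx P - 1‖ := by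
            have h5 : ‖(nx P + 1) - (nx P - 1)‖ ≤ ‖nx P + 1‖ + ‖nx P - 1‖ := norm_sub_le _ _
            have h6 : (nx P + 1) - (nx P - 1) = (2 : ℂ) := by ring
            rw [h6, Complex.norm_ofNat] at h5
            exact h5
          linarith
        rw [one_div, inv_div, le_div_iff₀ h2]
        have := mul_le_mul_of_nonneg_left h1.le hB.le
        rw [mul_inv_cancel₀ hB.ne'] at this
        linarith

/-- points above nearby x-coordinates -/
theorem exists_near_above {d : ℂ} (hd : d ≠ 0) {P₀ : E d} (hP₀ : P₀ ≠ 0) (n : ℕ) :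
    ∃ ε : ℝ, 0 < ε ∧ ∀ P : E d, P ≠ 0 → ‖nx P - nx P₀‖ < ε →
      P - P₀ ∈ nbh 2 d n ∨ -P - P₀ ∈ nbh 2 d n := by
  obtain ⟨ε, hε, H⟩ := near_of_coord_C hd hP₀ n
  have hcont : ContinuousAt (fun x : ℂ => d ^ 3 * ff x) (nx P₀) := by
    unfold ff; fun_prop
  obtain ⟨δ, hδ, Hδ⟩ := Metric.continuousAt_iff.1 hcont (ε ^ 2) (by positivity)
  refine ⟨min ε δ, lt_min hε hδ, fun P hP hx => ?_⟩
  have h1 := Hδ (x := nx P) (by rw [dist_eq_norm]; exact hx.trans_le (min_le_right _ _))
  rw [dist_eq_norm, ← yc_sq_nx hd P, ← yc_sq_nx hd P₀] at h1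
  have h2 : yc P ^ 2 - yc P₀ ^ 2 = (yc P - yc P₀) * (-yc P - yc P₀) * (-1) := by ring
  rw [h2, norm_mul, norm_neg, norm_one, mul_one, norm_mul] at h1
  have hx' := hx.trans_le (min_le_left ε δ)
  by_cases h3 : ‖yc P - yc P₀‖ < ε
  · left; exact H P hP hx' h3
  · right
    push Not at h3
    apply H (-P) (neg_ne hP)
    · rw [nx_neg]; exact hx'
    · rw [yc_neg]
      by_contra h4
      push Not at h4
      nlinarith [norm_nonneg (yc P - yc P₀), norm_nonneg (-yc P - yc P₀)]

/-- connectedness: a subgroup containing a neighbourhood of zero is everything -/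
theorem inf_conn {d : ℂ} (hd : d ≠ 0) (m : ℕ) (S : AddSubgroup (E d)) (hS : nbh 2 d m ⊆ S) :
    S = ⊤ := by
  set A : Set ℂ := {x | ∀ P : E d, P ≠ 0 → nx P = x → P ∈ S} with hA
  have hA' : ∀ P : E d, P ≠ 0 → (nx P ∈ A ↔ P ∈ S) := by
    intro P hP
    constructor
    · intro h; exact h P hP rfl
    · intro h Q hQ hx
      rcases (nx_eq_iff hd hQ hP).1 hx with rfl | rfl
      · exact h
      · exact S.neg_mem h
  have key : ∀ P₀ : E d, P₀ ≠ 0 → ∃ ε : ℝ, 0 < ε ∧ ∀ x : ℂ, ‖x - nx P₀‖ < ε →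
      (x ∈ A ↔ nx P₀ ∈ A) := by
    intro P₀ hP₀
    obtain ⟨ε, hε, H⟩ := exists_near_above hd hP₀ m
    refine ⟨ε, hε, fun x hx => ?_⟩
    obtain ⟨P, hP, rfl⟩ := exists_pt_C hd x
    rw [hA' P hP, hA' P₀ hP₀]
    rcases H P hP hx with h | h
    · have h1 := hS h
      constructor
      · intro h2
        have := S.sub_mem h2 h1
        rwa [sub_sub_cancel] at this
      · intro h2
        have := S.add_mem h1 h2
        rwa [sub_add_cancel] at this
    · have h1 := hS h
      constructor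
      · intro h2
        have := S.sub_mem (S.neg_mem h2) h1
        rwa [sub_sub_cancel] at this
      · intro h2
        have := S.add_mem h1 h2
        rw [sub_add_cancel] at this
        have := S.neg_mem this
        rwa [neg_neg] at this
  have hopen : IsOpen A := by
    rw [Metric.isOpen_iff]
    intro x hx
    obtain ⟨P₀, hP₀, rfl⟩ := exists_pt_C hd x
    obtain ⟨ε, hε, H⟩ := key P₀ hP₀
    refine ⟨ε, hε, fun y hy => ?_⟩
    rw [Metric.mem_ball, dist_eq_norm] at hy
    exact (H y hy).2 hx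
  have hclosed : IsClosed A := by
    rw [← isOpen_compl_iff, Metric.isOpen_iff]
    intro x hx
    obtain ⟨P₀, hP₀, rfl⟩ := exists_pt_C hd x
    obtain ⟨ε, hε, H⟩ := key P₀ hP₀
    refine ⟨ε, hε, fun y hy => ?_⟩
    rw [Metric.mem_ball, dist_eq_norm] at hy
    exact fun h => hx ((H y hy).1 h)
  have hne : A.Nonempty := by
    obtain ⟨P, hP, hx⟩ := exists_pt_C hd ((2 : ℂ) ^ (2 * m + 1))
    refine ⟨nx P, (hA' P hP).2 (hS ?_)⟩
    rw [mem_nbh_iff hd]
    right
    rw [hx, norm_pow, Complex.norm_ofNat]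
  have huniv : A = Set.univ := IsClopen.eq_univ ⟨hclosed, hopen⟩ hne
  rw [AddSubgroup.eq_top_iff']
  intro P
  by_cases hP : P = 0
  · rw [hP]; exact S.zero_mem
  · exact (hA' P hP).1 (by rw [huniv]; trivial)

/-- pigeonhole: small multiples -/
theorem inf_small [Algebra GaussianInt ℂ] (d : ℂˣ) (P : E (d : ℂ)) (n : ℕ) :
    ∃ g : GaussianInt, g ≠ 0 ∧ g • P ∈ nbh 2 (d : ℂ) n := by
  have hd := d.ne_zero
  by_contra hcon
  push Not at hcon
  have hk : ∀ k : ℕ, (k + 1) • P ∉ nbh 2 (d : ℂ) n := by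
    intro k hk
    apply hcon ((k + 1 : ℕ) : GaussianInt) (by exact_mod_cast Nat.succ_ne_zero k)
    rw [natCast_smul]
    exact hk
  have hk' : ∀ k : ℕ, (k + 1) • P ≠ 0 ∧ ‖nx ((k + 1) • P)‖ ≤ 2 ^ (2 * n + 1) := by
    intro k
    have := hk k
    rw [mem_nbh_iff hd] at this
    push Not at this
    exact ⟨this.1, this.2.le⟩
  -- a bounded sequence
  let u : ℕ → ℂ × ℂ := fun k => (nx ((k + 1) • P), yc ((k + 1) • P))
  set B : ℝ := 2 ^ (2 * n + 1) with hB
  have hB1 : 1 ≤ B := one_le_pow₀ (by norm_num)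
  have hy : ∀ k, ‖yc ((k + 1) • P)‖ ≤ 1 + ‖(d : ℂ)‖ ^ 3 * (B ^ 3 + B) := by
    intro k
    have h1 := congrArg norm (yc_sq_nx hd ((k + 1) • P))
    rw [norm_pow, norm_mul, norm_pow] at h1
    have h2 : ‖ff (nx ((k + 1) • P))‖ ≤ B ^ 3 + B := by
      unfold ff
      refine (norm_sub_le _ _).trans ?_
      rw [norm_pow]
      have := (hk' k).2
      gcongr
    have h3 : ‖yc ((k + 1) • P)‖ ^ 2 ≤ ‖(d : ℂ)‖ ^ 3 * (B ^ 3 + B) := by
      rw [h1]; gcongr
    have h4 : 0 ≤ ‖(d : ℂ)‖ ^ 3 * (B ^ 3 + B) := by positivity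
    nlinarith [norm_nonneg (yc ((k + 1) • P)), sq_nonneg (‖yc ((k + 1) • P)‖ - 1)]
  have hbdd : Bornology.IsBounded (Set.range u) := by
    rw [Metric.isBounded_iff_subset_closedBall 0]
    refine ⟨max B (1 + ‖(d : ℂ)‖ ^ 3 * (B ^ 3 + B)), ?_⟩
    rintro _ ⟨k, rfl⟩
    rw [Metric.mem_closedBall, dist_zero_right, Prod.norm_def]
    exact max_le_max (hk' k).2 (hy k)
  obtain ⟨a, -, φ, hφ, hlim⟩ := tendsto_subseq_of_bounded hbdd (fun k => Set.mem_range_self k)
  -- the limit point
  have hlim1 : Filter.Tendsto (fun j => nx ((φ j + 1) • P)) Filter.atTop (𝓝 a.1) :=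
    (continuous_fst.tendsto a).comp hlim
  have hlim2 : Filter.Tendsto (fun j => yc ((φ j + 1) • P)) Filter.atTop (𝓝 a.2) :=
    (continuous_snd.tendsto a).comp hlim
  have heq : a.2 ^ 2 = (d : ℂ) ^ 3 * ff a.1 := by
    have h1 : Filter.Tendsto (fun j => yc ((φ j + 1) • P) ^ 2) Filter.atTop (𝓝 (a.2 ^ 2)) :=
      hlim2.pow 2
    have h2 : Filter.Tendsto (fun j => (d : ℂ) ^ 3 * ff (nx ((φ j + 1) • P))) Filter.atTop
        (𝓝 ((d : ℂ) ^ 3 * ff a.1)) := by
      have hc : Continuous (fun x : ℂ => (d : ℂ) ^ 3 * ff x) := by unfold ff; fun_prop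
      exact (hc.tendsto a.1).comp hlim1
    apply tendsto_nhds_unique h1
    refine h2.congr (fun j => ?_)
    exact (yc_sq_nx hd _).symm
  obtain ⟨Q, hQ, hQx, hQy⟩ : ∃ Q : E (d : ℂ), Q ≠ 0 ∧ nx Q = a.1 ∧ yc Q = a.2 := by
    obtain ⟨Q, h1, h2, h3⟩ := exists_pt (K := ℂ) hd (x := a.1) (s := a.2 / d) (by
      rw [div_pow, heq]; field_simp)
    refine ⟨Q, h1, h2, ?_⟩
    rw [h3]; field_simp
  obtain ⟨m, -, hm⟩ := nbh_add_shift (c := 2) (by norm_num) hd n
  obtain ⟨ε, hε, H⟩ := near_of_coord_C hd hQ m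
  rw [← hQx] at hlim1
  rw [← hQy] at hlim2
  have e1 := Metric.tendsto_atTop.1 hlim1 ε hε
  have e2 := Metric.tendsto_atTop.1 hlim2 ε hε
  obtain ⟨N1, hN1⟩ := e1
  obtain ⟨N2, hN2⟩ := e2
  have hnear : ∀ j, max N1 N2 ≤ j → (φ j + 1) • P - Q ∈ nbh 2 (d : ℂ) m := by
    intro j hj
    apply H _ (hk' _).1
    · have := hN1 j ((le_max_left _ _).trans hj)
      rwa [dist_eq_norm] at this
    · have := hN2 j ((le_max_right _ _).trans hj)
      rwa [dist_eq_norm] at this
  set j := max N1 N2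
  have h1 := hnear j le_rfl
  have h2 := hnear (j + 1) (Nat.le_succ j)
  have h3 := hm _ h2 _ (nbh_neg' h1)
  have h4 : φ j < φ (j + 1) := hφ (Nat.lt_succ_self j)
  obtain ⟨k, hkk⟩ : ∃ k, φ (j + 1) = φ j + (k + 1) := ⟨φ (j + 1) - φ j - 1, by omega⟩
  apply hk k
  have h5 : (φ (j + 1) + 1) • P - Q + -((φ j + 1) • P - Q) = (k + 1) • P := by
    rw [hkk, show φ j + (k + 1) + 1 = (φ j + 1) + (k + 1) by ring, add_smul (φ j + 1) (k + 1) P]
    abel
  rwa [h5] at h3

end cplx

end GWA
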