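import Pool.Agent.Helper10.GWA.Inf1

/-!
# The complex place, part 2: the multiples of a small point are dense near zero
-/

namespace GWA

open Topology

section

variable {d : ℂ}

/-- relation between `tt` and `xc` -/
theorem tt_rel {P : E d} (hP : 0 < ‖xc P‖) (h : 2 * ‖d‖ ^ 2 ≤ ‖xc P‖ ^ 2) :
    yc P ≠ 0 ∧ ‖tt P‖ ^ 2 * ‖xc P‖ ≤ 2 ∧ 2 / 3 ≤ ‖tt P‖ ^ 2 * ‖xc P‖ := by
  have e := curve_eq P
  have e1 : yc P ^ 2 = xc P * (xc P ^ 2 - d ^ 2) := by rw [e]; ring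
  have e2 : ‖xc P‖ ^ 2 / 2 ≤ ‖xc P ^ 2 - d ^ 2‖ := by
    have h1 := norm_sub_norm_le (xc P ^ 2) (d ^ 2)
    rw [norm_pow, norm_pow] at h1
    linarith
  have e3 : ‖xc P ^ 2 - d ^ 2‖ ≤ 3 / 2 * ‖xc P‖ ^ 2 := by
    have h1 := norm_sub_le (xc P ^ 2) (d ^ 2)
    rw [norm_pow, norm_pow] at h1
    linarith
  have hpos : 0 < ‖xc P‖ ^ 2 := by positivity
  have e4 : 0 < ‖xc P ^ 2 - d ^ 2‖ := by linarith
  have e5 := congrArg norm e1
  rw [norm_pow, norm_mul] at e5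
  have hy : yc P ≠ 0 := by
    intro h0
    rw [h0, norm_zero] at e5
    have : 0 < ‖xc P‖ * ‖xc P ^ 2 - d ^ 2‖ := by positivity
    rw [← e5] at this
    norm_num at this
  refine ⟨hy, ?_, ?_⟩
  · unfold tt
    rw [norm_div, div_pow, e5, div_mul_eq_mul_div, div_le_iff₀ (by positivity)]
    nlinarith
  · unfold tt
    rw [norm_div, div_pow, e5, div_mul_eq_mul_div, le_div_iff₀ (by positivity)]
    nlinarith

variable [DecidableEq ℂ]

/-- identity for the sum of two points -/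
theorem tt_add_identity {P Q : E d} (hP : P ≠ 0) (hQ : Q ≠ 0)
    (hR : P + Q ≠ 0) (hxP : xc P ≠ 0) (hxQ : xc Q ≠ 0) (hxR : xc (P + Q) ≠ 0) (hyP : yc P ≠ 0)
    (hyQ : yc Q ≠ 0) (hyR : yc (P + Q) ≠ 0) :
    ∃ l : ℂ, l ^ 2 = (xc P * xc Q)⁻¹ + (xc P * xc (P + Q))⁻¹ + (xc Q * xc (P + Q))⁻¹ ∧
      tt (P + Q) - tt P - tt Q = -(2 * d ^ 2 * l * tt P * tt Q * tt (P + Q)) := by
  obtain ⟨L, c, h1, h2, h3, h4, h5, h6⟩ := line_add hP hQ hR
  have hc : c ≠ 0 := by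
    rintro rfl
    have : xc P * xc Q * xc (P + Q) = 0 := by rw [h6]; ring
    exact (mul_ne_zero (mul_ne_zero hxP hxQ) hxR) this
  refine ⟨L / c, ?_, ?_⟩
  · rw [div_pow, ← h4, ← h6]
    field_simp
    ring
  · have key : xc (P + Q) * yc P * yc Q - xc P * yc Q * yc (P + Q) - xc Q * yc P * yc (P + Q) =
        -(2 * L * c * d ^ 2) := by
      rw [h1, h2, h3]
      linear_combination c ^ 2 * h4 + 2 * L * c * h5 + 3 * L ^ 2 * h6
    unfold tt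
    have e1 : xc (P + Q) / yc (P + Q) - xc P / yc P - xc Q / yc Q =
        (xc (P + Q) * yc P * yc Q - xc P * yc Q * yc (P + Q) - xc Q * yc P * yc (P + Q)) /
          (yc P * yc Q * yc (P + Q)) := by
      field_simp
    have e2 : 2 * d ^ 2 * (L / c) * (xc P / yc P) * (xc Q / yc Q) * (xc (P + Q) / yc (P + Q)) =
        2 * d ^ 2 * (L / c) * (xc P * xc Q * xc (P + Q)) / (yc P * yc Q * yc (P + Q)) := by
      field_simp
    rw [e1, key, e2, h6]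
    field_simp

/-- the basic bound -/
noncomputable def BBi (d : ℂ) : ℝ := 2 + 2 * ‖d‖ + 4000 * ‖d‖ ^ 2

omit [DecidableEq ℂ] in
theorem BB_two (d : ℂ) : 2 ≤ BBi d := by
  unfold BBi
  have h1 := norm_nonneg d
  have h2 := sq_nonneg ‖d‖
  linarith

omit [DecidableEq ℂ] in
theorem BB_rel {P : E d} (h : BBi d ≤ ‖xc P‖) :
    0 < ‖xc P‖ ∧ 2 * ‖d‖ ^ 2 ≤ ‖xc P‖ ^ 2 := by
  have h1 := norm_nonneg d
  have h2 := BB_two d
  refine ⟨by linarith, ?_⟩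
  have h3 : 2 * ‖d‖ ≤ ‖xc P‖ := by
    refine le_trans ?_ h
    unfold BBi
    have h2 := sq_nonneg ‖d‖
    linarith
  nlinarith

omit [DecidableEq ℂ] in
@[simp] theorem tt_zero : tt (0 : E d) = 0 := by simp [tt]

omit [DecidableEq ℂ] in
@[simp] theorem tt_neg (P : E d) : tt (-P) = -tt P := by
  unfold tt; rw [xc_neg, yc_neg, div_neg]

/-- the basic domain -/
noncomputable def BC (d : ℂ) : ℝ := 32 * BBi d + 2 * ‖d‖ + 1

omit [DecidableEq ℂ] in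
theorem tt_le_one {P : E d} (hP : Far (BBi d) P) : ‖tt P‖ ≤ 1 := by
  rcases hP with rfl | hP
  · simp
  · obtain ⟨h1, h2⟩ := BB_rel hP
    obtain ⟨-, h3, -⟩ := tt_rel h1 h2
    have h4 := BB_two d
    have h5 : ‖tt P‖ ^ 2 * 2 ≤ 2 := by
      refine le_trans ?_ h3
      have : (2 : ℝ) ≤ ‖xc P‖ := h4.trans hP
      gcongr
    nlinarith [norm_nonneg (tt P)]

/-- approximate additivity -/
theorem tt_add_le {P Q : E d} (hP : Far (BC d) P) (hQ : Far (BC d) Q) :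
    Far (BBi d) (P + Q) ∧
      ‖tt (P + Q) - tt P - tt Q‖ ≤ 1 / 1000 * max ‖tt P‖ ‖tt Q‖ := by
  have hB := BB_two d
  have hle : BBi d ≤ BC d := by
    unfold BC
    have h1 := norm_nonneg d
    linarith
  have hR : Far (BBi d) (P + Q) := far_add d (by linarith) hP hQ
  refine ⟨hR, ?_⟩
  have hmax : 0 ≤ max ‖tt P‖ ‖tt Q‖ := le_max_of_le_left (norm_nonneg _)
  by_cases hP0 : P = 0
  · rw [hP0]; simp
  by_cases hQ0 : Q = 0
  · rw [hQ0]; simp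
  by_cases hR0 : P + Q = 0
  · rw [hR0]
    have : Q = -P := (neg_eq_of_add_eq_zero_right hR0).symm
    rw [this]; simp
  have xP := (hP.mono hle).resolve_left hP0
  have xQ := (hQ.mono hle).resolve_left hQ0
  have xR := hR.resolve_left hR0
  obtain ⟨p1, p2⟩ := BB_rel xP
  obtain ⟨q1, q2⟩ := BB_rel xQ
  obtain ⟨r1, r2⟩ := BB_rel xR
  obtain ⟨l, hl, e⟩ := tt_add_identity hP0 hQ0 hR0 (norm_pos_iff.1 p1) (norm_pos_iff.1 q1)
    (norm_pos_iff.1 r1) (tt_rel p1 p2).1 (tt_rel q1 q2).1 (tt_rel r1 r2).1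
  have hBpos : 0 < BBi d := by linarith
  have hl2 : ‖l‖ ^ 2 ≤ 3 / BBi d ^ 2 := by
    rw [← norm_pow, hl]
    have t1 : ∀ x y : ℂ, BBi d ≤ ‖x‖ → BBi d ≤ ‖y‖ → ‖(x * y)⁻¹‖ ≤ 1 / BBi d ^ 2 := by
      intro x y hx hy
      rw [norm_inv, norm_mul, one_div]
      apply inv_anti₀ (by positivity)
      rw [sq]; gcongr
    calc _ ≤ ‖(xc P * xc Q)⁻¹‖ + ‖(xc P * xc (P + Q))⁻¹‖ + ‖(xc Q * xc (P + Q))⁻¹‖ :=
          norm_add₃_le
      _ ≤ 1 / BBi d ^ 2 + 1 / BBi d ^ 2 + 1 / BBi d ^ 2 :=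
          add_le_add (add_le_add (t1 _ _ xP xQ) (t1 _ _ xP xR)) (t1 _ _ xQ xR)
      _ = _ := by ring
  have hl1 : ‖l‖ ≤ 2 / BBi d := by
    have h1 : ‖l‖ ^ 2 ≤ (2 / BBi d) ^ 2 := by
      refine hl2.trans ?_
      rw [div_pow]
      gcongr
      norm_num
    exact (pow_le_pow_iff_left₀ (norm_nonneg _) (by positivity) (by norm_num)).1 h1
  rw [e, norm_neg, norm_mul, norm_mul, norm_mul, norm_mul, norm_mul, norm_pow,
    Complex.norm_ofNat]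
  have a1 := tt_le_one (hP.mono hle)
  have a2 := tt_le_one (hQ.mono hle)
  have a3 := tt_le_one hR
  have h4 : 2 * ‖d‖ ^ 2 * ‖l‖ ≤ 1 / 1000 := by
    have h5 : 2 * ‖d‖ ^ 2 * ‖l‖ ≤ 2 * ‖d‖ ^ 2 * (2 / BBi d) := by gcongr
    refine h5.trans ?_
    rw [mul_div_assoc', div_le_iff₀ hBpos]
    unfold BBi
    have h1 := norm_nonneg d
    linarith
  calc 2 * ‖d‖ ^ 2 * ‖l‖ * ‖tt P‖ * ‖tt Q‖ * ‖tt (P + Q)‖
      ≤ 1 / 1000 * ‖tt P‖ * 1 * 1 := by gcongr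
    _ ≤ 1 / 1000 * max ‖tt P‖ ‖tt Q‖ := by
        rw [mul_one, mul_one]
        gcongr
        exact le_max_left _ _

/-- the radius of the domain -/
noncomputable def r0 (d : ℂ) : ℝ := 1 / (2 * BC d)

omit [DecidableEq ℂ] in
theorem BC_two (d : ℂ) : 2 ≤ BC d := by
  unfold BC
  have h1 := norm_nonneg d
  have := BB_two d
  linarith

omit [DecidableEq ℂ] in
theorem r0_pos (d : ℂ) : 0 < r0 d := by
  have := BC_two d
  unfold r0
  positivity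

/-- small points -/
def Sm (P : E d) (r : ℝ) : Prop := Far (BBi d) P ∧ ‖tt P‖ ≤ r

omit [DecidableEq ℂ] in
theorem Sm.far {P : E d} {r : ℝ} (h : Sm P r) (hr : r ≤ r0 d) : Far (BC d) P := by
  obtain ⟨h1 | h1, h2⟩ := h
  · left; exact h1
  · right
    obtain ⟨p1, p2⟩ := BB_rel h1
    obtain ⟨-, -, h3⟩ := tt_rel p1 p2
    have hC := BC_two d
    have h4 : ‖tt P‖ ^ 2 ≤ (r0 d) ^ 2 := by
      have : ‖tt P‖ ≤ r0 d := h2.trans hr
      gcongr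
    have h5 : 2 / 3 ≤ (r0 d) ^ 2 * ‖xc P‖ := h3.trans (by gcongr)
    unfold r0 at h5
    rw [div_pow, one_pow, one_div, inv_mul_eq_div, le_div_iff₀ (by positivity)] at h5
    nlinarith

omit [DecidableEq ℂ] in
theorem Sm.mono {P : E d} {r s : ℝ} (h : Sm P r) (hr : r ≤ s) : Sm P s := ⟨h.1, h.2.trans hr⟩

omit [DecidableEq ℂ] in
theorem Sm.neg {P : E d} {r : ℝ} (h : Sm P r) : Sm (-P) r :=
  ⟨h.1.neg, by rw [tt_neg, norm_neg]; exact h.2⟩

omit [DecidableEq ℂ] in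
theorem Sm.nonneg {P : E d} {r : ℝ} (h : Sm P r) : 0 ≤ r := (norm_nonneg _).trans h.2

theorem Sm.add {P Q : E d} {r s : ℝ} (hP : Sm P r) (hQ : Sm Q s) (hr : r ≤ r0 d)
    (hs : s ≤ r0 d) : Sm (P + Q) (r + s + 1 / 1000 * max r s) ∧
      ‖tt (P + Q) - tt P - tt Q‖ ≤ 1 / 1000 * max r s := by
  obtain ⟨h1, h2⟩ := tt_add_le (hP.far hr) (hQ.far hs)
  have h3 : ‖tt (P + Q) - tt P - tt Q‖ ≤ 1 / 1000 * max r s := by
    refine h2.trans ?_
    have := max_le_max hP.2 hQ.2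
    gcongr
  refine ⟨⟨h1, ?_⟩, h3⟩
  have h4 : tt (P + Q) = (tt (P + Q) - tt P - tt Q) + (tt P + tt Q) := by ring
  rw [h4]
  refine (norm_add_le _ _).trans ?_
  have h5 := norm_add_le (tt P) (tt Q)
  have h6 := hP.2
  have h7 := hQ.2
  linarith

/-- multiples by `-2, ..., 2` -/
theorem Sm.mul {P : E d} {r : ℝ} (hP : Sm P r) (hr : r ≤ r0 d) (a : ℤ) (ha : |a| ≤ 2) :
    Sm (a • P) ((2 + 1 / 1000) * r) ∧ ‖tt (a • P) - a * tt P‖ ≤ 1 / 1000 * r := by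
  have h0 := hP.nonneg
  obtain ⟨h1, h2⟩ := hP.add hP hr hr
  rw [max_self] at h1 h2
  obtain ⟨ha1, ha2⟩ := abs_le.1 ha
  interval_cases a
  · rw [neg_smul, two_zsmul]
    refine ⟨(h1.neg).mono (by linarith), ?_⟩
    rw [tt_neg]
    have : -tt (P + P) - ((-2 : ℤ) : ℂ) * tt P = -(tt (P + P) - tt P - tt P) := by
      push_cast; ring
    rw [this, norm_neg]
    exact h2
  · rw [neg_smul, one_zsmul]
    refine ⟨(hP.neg).mono (by linarith), ?_⟩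
    rw [tt_neg]
    have : -tt P - ((-1 : ℤ) : ℂ) * tt P = 0 := by push_cast; ring
    rw [this, norm_zero]
    positivity
  · rw [zero_smul]
    refine ⟨⟨Or.inl rfl, by simp; positivity⟩, ?_⟩
    simp; positivity
  · rw [one_zsmul]
    refine ⟨hP.mono (by linarith), ?_⟩
    simp; positivity
  · rw [two_zsmul]
    refine ⟨h1.mono (by linarith), ?_⟩
    have : tt (P + P) - ((2 : ℤ) : ℂ) * tt P = tt (P + P) - tt P - tt P := by
      push_cast; ring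
    rw [this]
    exact h2

end

section

variable [Algebra GaussianInt ℂ] [DecidableEq ℂ]

theorem tt_im {d : ℂ} (hd : d ≠ 0) (P : E d) : tt (im hd P) = II ℂ * tt P := by
  unfold tt
  rw [xc_im, yc_im]
  have hI := II_sq ℂ
  have hI0 : II ℂ ≠ 0 := II_ne
  by_cases hy : yc P = 0
  · rw [hy]; simp
  · field_simp
    linear_combination (-xc P) * hI

theorem Sm.im {d : ℂ} (hd : d ≠ 0) {P : E d} {r : ℝ} (h : Sm P r) : Sm (im hd P) r := by
  obtain ⟨h1, h2⟩ := h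
  refine ⟨?_, by rw [tt_im, norm_mul, norm_II_C, one_mul]; exact h2⟩
  rcases h1 with h1 | h1
  · left; rw [h1, map_zero]
  · right; rw [xc_im, norm_neg]; exact h1

theorem Sm.smul {d : ℂˣ} {P : E (d : ℂ)} {r : ℝ} (hP : Sm P r) (hr : 3 * r ≤ r0 (d : ℂ))
    (α : GaussianInt) (h1 : |α.re| ≤ 2) (h2 : |α.im| ≤ 2) :
    Sm (α • P) (5 * r) ∧ ‖tt (α • P) - algebraMap GaussianInt ℂ α * tt P‖ ≤ 5 / 1000 * r := by
  have h0 := hP.nonneg
  obtain ⟨a1, a2⟩ := hP.mul (by linarith) α.re h1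
  obtain ⟨b1, b2⟩ := (hP.im d.ne_zero).mul (by linarith) α.im h2
  obtain ⟨c1, c2⟩ := a1.add b1 (by linarith) (by linarith)
  rw [max_self] at c1 c2
  rw [smul_def]
  refine ⟨c1.mono (by linarith), ?_⟩
  rw [algebraMap_C]
  rw [tt_im] at b2
  set X := tt (α.re • P + α.im • GWA.im d.ne_zero P)
  set Y := tt (α.re • P)
  set Z := tt (α.im • GWA.im d.ne_zero P)
  have e : X - ((α.re : ℂ) + α.im * II ℂ) * tt P =
      (X - Y - Z) + (Y - α.re * tt P) + (Z - α.im * (II ℂ * tt P)) := by ring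
  rw [e]
  refine norm_add₃_le.trans ?_
  linarith

/-- nearest Gaussian integer -/
theorem exists_nearest (z : ℂ) (hz : ‖z‖ ≤ 2 + 1 / 1000) : ∃ α : GaussianInt, |α.re| ≤ 2 ∧
    |α.im| ≤ 2 ∧ ‖z - algebraMap GaussianInt ℂ α‖ ≤ 71 / 100 := by
  -- coordinates with respect to `1, II`
  obtain ⟨u, v, hu, hv, huv⟩ : ∃ u v : ℝ, |u| ≤ 2 + 1 / 1000 ∧ |v| ≤ 2 + 1 / 1000 ∧
      z = u + v * II ℂ := by
    have h1 := (Complex.abs_re_le_norm z).trans hz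
    have h2 := (Complex.abs_im_le_norm z).trans hz
    rcases II_C with h | h
    · exact ⟨z.re, z.im, h1, h2, by rw [h]; exact (Complex.re_add_im z).symm⟩
    · refine ⟨z.re, -z.im, h1, by rwa [abs_neg], ?_⟩
      rw [h]
      push_cast
      rw [neg_mul_neg]
      exact (Complex.re_add_im z).symm
  have hround : ∀ w : ℝ, |w| ≤ 2 + 1 / 1000 → |round w| ≤ 2 := by
    intro w hw
    have h1 := abs_sub_round w
    obtain ⟨h3, h4⟩ := abs_le.1 h1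
    obtain ⟨h5, h6⟩ := abs_le.1 hw
    have h7 : (round w : ℝ) < 3 := by linarith
    have h8 : (-3 : ℝ) < round w := by linarith
    rw [abs_le]
    constructor
    · have : -3 < round w := by exact_mod_cast h8
      omega
    · have : round w < 3 := by exact_mod_cast h7
      omega
  refine ⟨⟨round u, round v⟩, hround u hu, hround v hv, ?_⟩
  rw [huv, algebraMap_C]
  have h1 := abs_sub_round u
  have h2 := abs_sub_round v
  set p := u - (round u : ℝ) with hp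
  set q := v - (round v : ℝ) with hq
  have e : ((u : ℂ) + v * II ℂ) - (((round u : ℤ) : ℂ) + ((round v : ℤ) : ℂ) * II ℂ) =
      (p : ℂ) + q * II ℂ := by
    rw [hp, hq]; push_cast; ring
  rw [e]
  have h3 : ‖(p : ℂ) + q * II ℂ‖ ^ 2 = p ^ 2 + q ^ 2 := by
    rw [← Complex.normSq_eq_norm_sq, Complex.normSq_apply]
    rcases II_C with h | h <;> rw [h] <;> simp <;> ring
  have h4 : p ^ 2 ≤ 1 / 4 := by
    have := sq_le_sq' (abs_le.1 h1).1 (abs_le.1 h1).2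
    linarith
  have h5 : q ^ 2 ≤ 1 / 4 := by
    have := sq_le_sq' (abs_le.1 h2).1 (abs_le.1 h2).2
    linarith
  nlinarith [norm_nonneg ((p : ℂ) + q * II ℂ)]

omit [Algebra GaussianInt ℂ] [DecidableEq ℂ] in
theorem tt_ne {d : ℂ} {P : E d} (h : Far (BBi d) P) (h0 : P ≠ 0) : 0 < ‖tt P‖ := by
  obtain ⟨p1, p2⟩ := BB_rel (h.resolve_left h0)
  obtain ⟨-, -, h3⟩ := tt_rel p1 p2
  by_contra hc
  have : ‖tt P‖ = 0 := le_antisymm (not_lt.1 hc) (norm_nonneg _)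
  rw [this] at h3
  norm_num at h3

/-- one step -/
theorem inf_step1 {d : ℂˣ} {ξ η : E (d : ℂ)} {ρ : ℝ} (hρ : 15 * ρ ≤ r0 (d : ℂ)) (hξ : Sm ξ ρ)
    (hη : Sm η ρ) (hη0 : η ≠ 0) (h : ρ ≤ (2 + 1 / 1000) * ‖tt η‖) :
    ∃ α : GaussianInt, Sm (ξ - α • η) (3 / 4 * ρ) := by
  have h0 := hξ.nonneg
  have hpos := tt_ne hη.1 hη0
  have hne : tt η ≠ 0 := norm_pos_iff.1 hpos
  obtain ⟨α, h1, h2, h3⟩ := exists_nearest (tt ξ / tt η) (by
    rw [norm_div, div_le_iff₀ hpos]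
    exact hξ.2.trans h)
  refine ⟨α, ?_⟩
  obtain ⟨a1, a2⟩ := hη.smul (by linarith) α h1 h2
  obtain ⟨b1, b2⟩ := hξ.add a1.neg (by linarith) (by linarith)
  rw [← sub_eq_add_neg] at b1 b2
  refine ⟨b1.1, ?_⟩
  rw [tt_neg] at b2
  have e1 : tt (ξ - α • η) = (tt (ξ - α • η) - tt ξ - -tt (α • η)) +
      (-(tt (α • η) - algebraMap GaussianInt ℂ α * tt η)) +
      (tt ξ / tt η - algebraMap GaussianInt ℂ α) * tt η := by
    field_simp
    ring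
  rw [e1]
  refine norm_add₃_le.trans ?_
  rw [norm_neg, norm_mul]
  have h4 : max ρ (5 * ρ) = 5 * ρ := max_eq_right (by linarith)
  rw [h4] at b2
  have h5 : ‖tt ξ / tt η - algebraMap GaussianInt ℂ α‖ * ‖tt η‖ ≤ 71 / 100 * ρ := by
    have := hη.2
    gcongr
  linarith

/-- doubling -/
theorem inf_double {d : ℂˣ} {η : E (d : ℂ)} {ρ : ℝ} (hρ : 15 * ρ ≤ r0 (d : ℂ))
    (hη : Sm η ρ) (hη0 : η ≠ 0) : ∃ k : ℕ, Sm (2 ^ k • η) ρ ∧ 2 ^ k • η ≠ 0 ∧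
      ρ ≤ (2 + 1 / 1000) * ‖tt (2 ^ k • η)‖ := by
  have h0 := hη.nonneg
  by_contra hcon
  push Not at hcon
  have hpos := tt_ne hη.1 hη0
  have key : ∀ k : ℕ, Sm (2 ^ k • η) ρ ∧ (3 / 2) ^ k * ‖tt η‖ ≤ ‖tt (2 ^ k • η)‖ := by
    intro k
    induction k with
    | zero =>
      rw [pow_zero, one_smul, pow_zero, one_mul]
      exact ⟨hη, le_rfl⟩
    | succ k ih =>
      obtain ⟨h1, h2⟩ := ih
      have h3 : 2 ^ k • η ≠ 0 := by
        intro hz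
        rw [hz, tt_zero, norm_zero] at h2
        have : 0 < (3 / 2 : ℝ) ^ k * ‖tt η‖ := by positivity
        linarith
      have h4 := hcon k h1 h3
      set P := 2 ^ k • η with hPdef
      have hP : Sm P ‖tt P‖ := ⟨h1.1, le_rfl⟩
      have h5 : ‖tt P‖ ≤ r0 (d : ℂ) := by
        have := h1.2
        linarith
      obtain ⟨h6, h7⟩ := hP.add hP h5 h5
      rw [max_self] at h6 h7
      have h8 : 2 ^ (k + 1) • η = P + P := by
        rw [hPdef, pow_succ, mul_smul, two_smul, smul_add]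
      rw [h8]
      refine ⟨h6.mono (by linarith), ?_⟩
      have h9 : (3 / 2) * ‖tt P‖ ≤ ‖tt (P + P)‖ := by
        have e1 : (2 : ℂ) * tt P = tt (P + P) - (tt (P + P) - tt P - tt P) := by ring
        have e2 := congrArg norm e1
        rw [norm_mul, Complex.norm_ofNat] at e2
        have e3 := norm_sub_le (tt (P + P)) (tt (P + P) - tt P - tt P)
        rw [← e2] at e3
        have := norm_nonneg (tt P)
        linarith
      calc (3 / 2) ^ (k + 1) * ‖tt η‖ = (3 / 2) * ((3 / 2) ^ k * ‖tt η‖) := by ring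
        _ ≤ (3 / 2) * ‖tt P‖ := by gcongr
        _ ≤ _ := h9
  obtain ⟨k, hk⟩ := pow_unbounded_of_one_lt (ρ / ‖tt η‖) (show (1 : ℝ) < 3 / 2 by norm_num)
  rw [div_lt_iff₀ hpos] at hk
  obtain ⟨h1, h2⟩ := key k
  have := h1.2
  linarith

theorem nat_smul_eq (d : ℂˣ) (k : ℕ) (α : GaussianInt) (η : E (d : ℂ)) :
    α • (k • η) = (α * (k : GaussianInt)) • η := by
  rw [mul_smul, natCast_smul]

theorem inf_step2 {d : ℂˣ} {ξ η : E (d : ℂ)} {ρ : ℝ} (hρ : 15 * ρ ≤ r0 (d : ℂ)) (hξ : Sm ξ ρ)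
    (hη : Sm η ρ) (hη0 : η ≠ 0) :
    ∃ α : GaussianInt, Sm (ξ - α • η) (3 / 4 * ρ) := by
  obtain ⟨k, h1, h2, h3⟩ := inf_double hρ hη hη0
  obtain ⟨α, hα⟩ := inf_step1 hρ hξ h1 h2 h3
  refine ⟨α * ((2 ^ k : ℕ) : GaussianInt), ?_⟩
  rw [← nat_smul_eq]
  exact hα

theorem inf_iter {d : ℂˣ} {η : E (d : ℂ)} (hη : Far (BBi (d : ℂ)) η) (hη0 : η ≠ 0) (k : ℕ) :
    ∀ (ρ : ℝ) (ξ : E (d : ℂ)), 15 * ρ ≤ r0 (d : ℂ) → Sm ξ ρ → (3 / 4) ^ k * ρ < ‖tt η‖ →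
    ∃ α : GaussianInt, Far (BBi (d : ℂ)) (ξ - α • η) ∧ ‖tt (ξ - α • η)‖ < ‖tt η‖ := by
  induction k with
  | zero =>
    intro ρ ξ _ hξ h
    refine ⟨0, ?_⟩
    rw [zero_smul, sub_zero]
    rw [pow_zero, one_mul] at h
    exact ⟨hξ.1, hξ.2.trans_lt h⟩
  | succ k ih =>
    intro ρ ξ hρ hξ h
    by_cases hlt : ρ < ‖tt η‖
    · refine ⟨0, ?_⟩
      rw [zero_smul, sub_zero]
      exact ⟨hξ.1, hξ.2.trans_lt hlt⟩
    · push Not at hlt
      obtain ⟨α, hα⟩ := inf_step2 hρ hξ ⟨hη, hlt⟩ hη0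
      have h0 := hξ.nonneg
      obtain ⟨β, hβ⟩ := ih (3 / 4 * ρ) (ξ - α • η) (by linarith) hα (by
        calc (3 / 4) ^ k * (3 / 4 * ρ) = (3 / 4) ^ (k + 1) * ρ := by ring
          _ < _ := h)
      refine ⟨α + β, ?_⟩
      rw [add_smul, ← sub_sub]
      exact hβ

/-- the multiples of a small nonzero point are dense near zero -/
theorem inf_gen (d : ℂˣ) : ∃ m₀, ∀ n, ∃ N, ∀ η ∈ nbh 2 (d : ℂ) N, η ≠ 0 →
    ∀ ξ ∈ nbh 2 (d : ℂ) m₀, ∃ α : GaussianInt, ξ - α • η ∈ nbh 2 (d : ℂ) n := by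
  have hd := d.ne_zero
  have hr := r0_pos (d : ℂ)
  set r := r0 (d : ℂ) / 15 with hrdef
  have hrp : 0 < r := by positivity
  obtain ⟨m₀, hm₀⟩ := exists_nbh_far (c := 2) (by norm_num) hd
    (max (BBi (d : ℂ)) (2 / r ^ 2))
  refine ⟨m₀, fun n => ?_⟩
  obtain ⟨N, hN⟩ := exists_nbh_far (c := 2) (by norm_num) hd
    (max (BBi (d : ℂ)) (3 * (2 ^ (2 * n + 1) * ‖(d : ℂ)‖)))
  refine ⟨N, fun η hη hη0 ξ hξ => ?_⟩
  have h1 := hN N le_rfl η hη
  have h2 := hm₀ m₀ le_rfl ξ hξ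
  have hηB : Far (BBi (d : ℂ)) η := h1.mono (le_max_left _ _)
  have hξB : Far (BBi (d : ℂ)) ξ := h2.mono (le_max_left _ _)
  have hξr : ‖tt ξ‖ ≤ r := by
    by_cases h0 : ξ = 0
    · rw [h0, tt_zero, norm_zero]; exact hrp.le
    · obtain ⟨p1, p2⟩ := BB_rel (hξB.resolve_left h0)
      obtain ⟨-, h3, -⟩ := tt_rel p1 p2
      have h4 : 2 / r ^ 2 ≤ ‖xc ξ‖ := (h2.mono (le_max_right _ _)).resolve_left h0
      have h5 : ‖tt ξ‖ ^ 2 * (2 / r ^ 2) ≤ 2 := le_trans (by gcongr) h3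
      have h6 : ‖tt ξ‖ ^ 2 ≤ r ^ 2 := by
        rw [mul_div_assoc', div_le_iff₀ (by positivity)] at h5
        linarith
      exact (pow_le_pow_iff_left₀ (norm_nonneg _) hrp.le (by norm_num)).1 h6
  have hηp := tt_ne hηB hη0
  obtain ⟨k, hk⟩ : ∃ k : ℕ, (3 / 4 : ℝ) ^ k * r < ‖tt η‖ := by
    obtain ⟨k, hk⟩ := exists_pow_lt_of_lt_one (show 0 < ‖tt η‖ / r by positivity)
      (show (3 / 4 : ℝ) < 1 by norm_num)
    exact ⟨k, by rwa [lt_div_iff₀ hrp] at hk⟩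
  obtain ⟨α, hα1, hα2⟩ := inf_iter hηB hη0 k r ξ (by rw [hrdef]; linarith) ⟨hξB, hξr⟩ hk
  refine ⟨α, ?_⟩
  rcases hα1 with h0 | h3
  · left; exact h0
  · right
    obtain ⟨p1, p2⟩ := BB_rel h3
    obtain ⟨-, -, h4⟩ := tt_rel p1 p2
    obtain ⟨q1, q2⟩ := BB_rel (hηB.resolve_left hη0)
    obtain ⟨-, h5, -⟩ := tt_rel q1 q2
    have h6 : 3 * (2 ^ (2 * n + 1) * ‖(d : ℂ)‖) ≤ ‖xc η‖ :=
      (h1.mono (le_max_right _ _)).resolve_left hη0
    have h7 : ‖tt (ξ - α • η)‖ ^ 2 ≤ ‖tt η‖ ^ 2 := by gcongr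
    have h8 : 2 / 3 ≤ ‖tt η‖ ^ 2 * ‖xc (ξ - α • η)‖ := h4.trans (by gcongr)
    have h9 : ‖tt η‖ ^ 2 * ‖xc η‖ ≤ ‖tt η‖ ^ 2 * (3 * ‖xc (ξ - α • η)‖) := by linarith
    have h10 := le_of_mul_le_mul_left h9 (by positivity)
    linarith

/-- the multiples of a nontorsion point are dense -/
theorem inf_orb (d : ℂˣ) (P : E (d : ℂ)) (hP : ∀ g : GaussianInt, g ≠ 0 → g • P ≠ 0)
    (a : GaussianInt) (ha : a ≠ 0) (Q : E (d : ℂ)) (n : ℕ) :
    ∃ α : GaussianInt, Q - (a * α) • P ∈ nbh 2 (d : ℂ) n := by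
  have hd := d.ne_zero
  set P' := a • P with hP'
  have hP'' : ∀ g : GaussianInt, g ≠ 0 → g • P' ≠ 0 := by
    intro g hg
    rw [hP', ← mul_smul]
    exact hP _ (mul_ne_zero hg ha)
  let S : AddSubgroup (E (d : ℂ)) :=
    { carrier := {R | ∀ n, ∃ α : GaussianInt, R - α • P' ∈ nbh 2 (d : ℂ) n}
      add_mem' := by
        intro R R' hR hR' n
        obtain ⟨m, -, hm⟩ := nbh_add_shift (c := 2) (by norm_num) hd n
        obtain ⟨α, hα⟩ := hR m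
        obtain ⟨β, hβ⟩ := hR' m
        refine ⟨α + β, ?_⟩
        have : R + R' - (α + β) • P' = (R - α • P') + (R' - β • P') := by
          rw [add_smul]; abel
        rw [this]
        exact hm _ hα _ hβ
      zero_mem' := by
        intro n
        refine ⟨0, ?_⟩
        rw [zero_smul, sub_zero]
        exact Or.inl rfl
      neg_mem' := by
        intro R hR n
        obtain ⟨α, hα⟩ := hR n
        refine ⟨-α, ?_⟩
        have : -R - -α • P' = -(R - α • P') := by rw [neg_smul]; abel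
        rw [this]
        exact nbh_neg' hα }
  obtain ⟨m₀, hm₀⟩ := inf_gen d
  have hS : nbh 2 (d : ℂ) m₀ ⊆ S := by
    intro ξ hξ n
    obtain ⟨N, hN⟩ := hm₀ n
    obtain ⟨g, hg, hgP⟩ := inf_small d P' N
    obtain ⟨α, hα⟩ := hN (g • P') hgP (hP'' g hg) ξ hξ
    exact ⟨α * g, by rwa [mul_smul]⟩
  have htop := inf_conn hd m₀ S hS
  have hQ : Q ∈ S := by rw [htop]; trivial
  obtain ⟨α, hα⟩ := hQ n
  refine ⟨α, ?_⟩
  rw [mul_comm, mul_smul]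
  exact hα

end

end GWA
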