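import Pool.Agent.Helper10.GWA.Inf2

/-!
# The complex place, part 3: the axioms
-/

namespace GWA

open Topology

theorem exists_generic' {K : Type} [Field K] {d : K} (hd : d ≠ 0) {S : Set (E d)}
    (hS : S.Infinite) {B : Set K} (hB : B.Finite) : ∃ P ∈ S, P ≠ 0 ∧ nx P ∉ B := by
  have hfin : ({0} ∪ {P : E d | P ≠ 0 ∧ nx P ∈ B} : Set (E d)).Finite :=
    (Set.finite_singleton _).union (finite_nx_mem hd hB)
  obtain ⟨P, hP, hPn⟩ := (hS.diff hfin).nonempty
  refine ⟨P, hP, ?_, ?_⟩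
  · intro h; exact hPn (Or.inl h)
  · intro h
    by_cases h0 : P = 0
    · exact hPn (Or.inl h0)
    · exact hPn (Or.inr ⟨h0, h⟩)

theorem ff_ne_of {K : Type} [Field K] {x : K} (h0 : x ≠ 0) (h1 : x ≠ 1) (h2 : x ≠ -1) :
    ff x ≠ 0 := by
  intro h
  rcases nx_cases h with h | h | h
  · exact h0 h
  · exact h1 h
  · exact h2 h

theorem dens_aux {K : Type} [NormedField K] [Algebra GaussianInt K] [NeZero (2 : K)]
    [DecidableEq K] {c : ℝ} (hinf : ∀ d : K, d ≠ 0 → ∀ n, (nbh c d n).Infinite)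
    (t : (KLD K c).Sys) (n : ℕ) :
    ∃ t', (KLD K c).close n t' t ∧ ∃ t'', (KLD K c).S t'' t' := by
  obtain ⟨d, P, Q⟩ := t
  change Kˣ at d
  change E (d : K) at P Q
  have hd := d.ne_zero
  have h2 : (2 : K) ≠ 0 := two_ne_zero
  have inf : ∀ R : E (d : K), ((fun η => R + η) '' nbh c (d : K) n).Infinite := by
    intro R
    exact (hinf d hd n).image (add_right_injective R).injOn
  obtain ⟨P', ⟨η₁, hη₁, rfl⟩, hP0, hPB⟩ := exists_generic' hd (inf P)
    (B := {0, 1, -1, (3 : K)⁻¹}) (Set.toFinite _)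
  simp only [Set.mem_insert_iff, Set.mem_singleton_iff, not_or] at hPB
  obtain ⟨p1, p2, p3, p4⟩ := hPB
  set P' := P + η₁ with hP'
  set x := nx P' with hx
  obtain ⟨Q', ⟨η₂, hη₂, rfl⟩, hQ0, hQB⟩ := exists_generic' hd (inf Q)
    (B := {0, 1, -1, (x + 1) / (3 * x - 1), -x - 1, 2 * x - 1, (x + 1) / 2}) (Set.toFinite _)
  simp only [Set.mem_insert_iff, Set.mem_singleton_iff, not_or] at hQB
  obtain ⟨q1, q2, q3, q4, q5, q6, q7⟩ := hQB
  set Q' := Q + η₂ with hQ'
  set y := nx Q' with hy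
  have hfx : ff x ≠ 0 := ff_ne_of p1 p2 p3
  have hfy : ff y ≠ 0 := ff_ne_of q1 q2 q3
  have hyP := (yc_ne_iff hd P').2 hfx
  have hyQ := (yc_ne_iff hd Q').2 hfy
  have h3x : 3 * x - 1 ≠ 0 := by
    intro h
    have h3 : (3 : K) ≠ 0 := by
      intro h3
      rw [h3, zero_mul, zero_sub] at h
      exact one_ne_zero (neg_eq_zero.1 h)
    apply p4
    apply mul_left_cancel₀ h3
    rw [mul_inv_cancel₀ h3]
    linear_combination h
  have hI : IOK (mkPt hd P' Q' hyP hyQ) := by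
    refine ⟨?_, ?_, ?_⟩
    · change sD x y ≠ 0
      intro h
      apply q4
      rw [eq_div_iff h3x]
      unfold sD at h
      linear_combination h
    · change sS x y ≠ 0
      intro h
      apply q5
      unfold sS at h
      linear_combination h
    · change sQ x y ≠ 0
      intro h
      unfold sQ at h
      rcases mul_eq_zero.1 h with h | h
      · apply q6; linear_combination -h
      · apply q7
        rw [eq_div_iff h2]
        linear_combination -h
  obtain ⟨d'', P'', Q'', hrep⟩ := exists_rep (iota (mkPt hd P' Q' hyP hyQ) hI)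
  refine ⟨⟨d, P', Q'⟩, ⟨P', Q', rfl, ?_, ?_⟩, ⟨⟨d'', P'', Q''⟩, ?_⟩⟩
  · change P' - P ∈ nbh c (d : K) n
    rw [hP', add_sub_cancel_left]; exact hη₁
  · change Q' - Q ∈ nbh c (d : K) n
    rw [hQ', add_sub_cancel_left]; exact hη₂
  · change SRel ⟨d'', P'', Q''⟩ ⟨d, P', Q'⟩
    exact SRel.symm ⟨_, hI, rep_mkPt hd hyP hyQ, hrep⟩

/-- the axioms for the complex place -/
theorem infAx [Algebra GaussianInt ℂ] [DecidableEq ℂ] : (KLD ℂ 2).InfAx where
  nb_zero := fun d n => Or.inl rfl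
  dens := dens_aux (fun d hd n => infinite_nbh_C hd n)
  nontor := fun d P n => inf_nontor d P n
  orb := fun d P hP a ha Q n => inf_orb d P hP a ha Q n

end GWA
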