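import Pool.Agent.Helper15.WA.Com

/-!
# Basic facts on the local fields; the neighbourhoods of zero are submodules
-/

namespace GWA

namespace LocHyp

variable {K : Type} [NormedField K] [Algebra GaussianInt K] {π : GaussianInt} (h : LocHyp K π)

include h

theorem norm_sub_le (x y : K) : ‖x - y‖ ≤ max ‖x‖ ‖y‖ := by
  have := h.ultra x (-y)
  rwa [norm_neg, ← sub_eq_add_neg] at this

theorem norm_sum_eq {x y : K} (hxy : ‖y‖ < ‖x‖) : ‖x + y‖ = ‖x‖ := by
  apply le_antisymm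
  · exact (h.ultra x y).trans (by rw [max_eq_left hxy.le])
  · have h1 := h.norm_sub_le (x + y) y
    rw [add_sub_cancel_right] at h1
    rcases le_max_iff.1 h1 with h2 | h2
    · exact h2
    · exact absurd hxy (not_lt.2 h2)

theorem norm_natCast_le (n : ℕ) : ‖(n : K)‖ ≤ 1 := by
  induction n with
  | zero => simp
  | succ n ih =>
    push_cast
    refine (h.ultra _ _).trans ?_
    rw [norm_one]
    exact max_le ih le_rfl

theorem norm_intCast_le (n : ℤ) : ‖(n : K)‖ ≤ 1 := by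
  obtain ⟨m, rfl | rfl⟩ := Int.eq_nat_or_neg n
  · rw [Int.cast_natCast]; exact h.norm_natCast_le m
  · rw [Int.cast_neg, norm_neg, Int.cast_natCast]; exact h.norm_natCast_le m

omit h in
theorem norm_II (K : Type) [NormedField K] [Algebra GaussianInt K] : ‖II K‖ = 1 := by
  have h1 := congrArg norm (II_sq K)
  rw [norm_pow, norm_neg, norm_one] at h1
  have h2 := norm_nonneg (II K)
  nlinarith

omit h in
theorem algebraMap_eq (a : GaussianInt) : algebraMap GaussianInt K a = a.re + a.im * II K := by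
  have : a = (a.re : GaussianInt) + (a.im : GaussianInt) * ⟨0, 1⟩ := by
    ext <;> simp
  conv_lhs => rw [this]
  rw [map_add, map_mul, map_intCast, map_intCast]
  rfl

theorem norm_O_le (a : GaussianInt) : ‖algebraMap GaussianInt K a‖ ≤ 1 := by
  rw [algebraMap_eq]
  refine (h.ultra _ _).trans (max_le (h.norm_intCast_le _) ?_)
  rw [norm_mul, norm_II, mul_one]
  exact h.norm_intCast_le _

theorem norm_eq_one {a : GaussianInt} (ha : ¬ π ∣ a) : ‖algebraMap GaussianInt K a‖ = 1 := by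
  apply le_antisymm (h.norm_O_le a)
  by_contra hlt
  push Not at hlt
  obtain ⟨u, v, huv⟩ : IsCoprime π a := (h.prime.irreducible.coprime_iff_not_dvd).2 ha
  have h1 := congrArg (fun z => ‖algebraMap GaussianInt K z‖) huv
  simp only [map_add, map_mul, map_one, norm_one] at h1
  have h2 := h.ultra (algebraMap GaussianInt K u * algebraMap GaussianInt K π)
    (algebraMap GaussianInt K v * algebraMap GaussianInt K a)
  rw [h1, norm_mul, norm_mul] at h2
  have h3 := h.norm_O_le u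
  have h4 := h.norm_O_le v
  have h5 := h.norm_pi
  rcases le_max_iff.1 h2 with h6 | h6
  · nlinarith [norm_nonneg (algebraMap GaussianInt K u), norm_nonneg (algebraMap GaussianInt K π)]
  · nlinarith [norm_nonneg (algebraMap GaussianInt K v), norm_nonneg (algebraMap GaussianInt K a)]

theorem norm_lt_one_iff (a : GaussianInt) : ‖algebraMap GaussianInt K a‖ < 1 ↔ π ∣ a := by
  constructor
  · intro h1
    by_contra h2
    rw [h.norm_eq_one h2] at h1
    exact lt_irrefl _ h1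
  · rintro ⟨b, rfl⟩
    rw [map_mul, norm_mul]
    have h3 := h.norm_O_le b
    have h5 := h.norm_pi
    nlinarith [norm_nonneg (algebraMap GaussianInt K b), norm_nonneg (algebraMap GaussianInt K π)]

theorem norm_ofNat_le (n : ℕ) [n.AtLeastTwo] : ‖(OfNat.ofNat n : K)‖ ≤ 1 := by
  have := h.norm_natCast_le (OfNat.ofNat n)
  rwa [Nat.cast_ofNat] at this

theorem norm_two (h2 : ¬ π ∣ 2) : ‖(2 : K)‖ = 1 := by
  have := h.norm_eq_one h2
  rwa [map_ofNat] at this

theorem pi_ne : algebraMap GaussianInt K π ≠ 0 := by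
  intro h0
  -- the value group would be trivial
  have := h.char0
  obtain ⟨n, hn⟩ := h.unif 1 one_ne_zero
  have hinj : ∀ m : ℤ, (m : K) = 0 → m = 0 := fun m hm => by exact_mod_cast hm
  have h1 : algebraMap GaussianInt K (π * star π) = 0 := by rw [map_mul, h0, zero_mul]
  have h2 : π * star π = ((π.norm : ℤ) : GaussianInt) := (Zsqrtd.norm_eq_mul_conj π).symm
  rw [h2, map_intCast] at h1
  have h3 := hinj _ h1
  have h4 : 0 < π.norm := GaussianInt.norm_pos.2 h.prime.ne_zero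
  omega

theorem norm_pi_pos : 0 < ‖algebraMap GaussianInt K π‖ := norm_pos_iff.2 h.pi_ne

/-- elements of norm larger than one -/
theorem inv_le_of_one_lt {x : K} (hx : 1 < ‖x‖) : (‖algebraMap GaussianInt K π‖)⁻¹ ≤ ‖x‖ := by
  have hx0 : x ≠ 0 := by
    rintro rfl
    rw [norm_zero] at hx
    linarith
  obtain ⟨n, hn⟩ := h.unif x hx0
  rw [hn] at hx ⊢
  have hn' : n < 0 := by
    by_contra hc
    push Not at hc
    exact absurd hx (not_lt.2 (zpow_le_one₀ h.norm_pi_pos h.norm_pi.le hc))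
  rw [← zpow_neg_one]
  exact zpow_le_zpow_right_of_le_one₀ h.norm_pi_pos h.norm_pi.le (by omega)

theorem one_lt_inv : 1 < (‖algebraMap GaussianInt K π‖)⁻¹ :=
  (one_lt_inv₀ h.norm_pi_pos).2 h.norm_pi

theorem mem_nb_zero_iff {d : K} (hd : d ≠ 0) {P : E d} :
    P ∈ nb π d 0 ↔ P = 0 ∨ 1 < ‖nx P‖ := by
  rw [mem_nbh_iff hd]
  apply or_congr_right
  simp only [mul_zero, zero_add, pow_one]
  constructor
  · intro h1
    exact h.one_lt_inv.trans_le h1
  · intro h1
    exact h.inv_le_of_one_lt h1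

/-- `nb π d n` is closed under addition (also at the places above 2) -/
theorem nb_add [NeZero (2 : K)] [DecidableEq K] {d : K} (hd : d ≠ 0) (n : ℕ) {P Q : E d}
    (hP : P ∈ nb π d n) (hQ : Q ∈ nb π d n) : P + Q ∈ nb π d n := by
  have hR : 1 < (‖algebraMap GaussianInt K π‖)⁻¹ ^ (2 * n + 1) :=
    one_lt_pow₀ h.one_lt_inv (by omega)
  rw [mem_nbh_iff hd] at hP hQ ⊢
  set R := (‖algebraMap GaussianInt K π‖)⁻¹ ^ (2 * n + 1) with hRdef
  rcases hP with rfl | hP
  · rw [zero_add]; exact hQ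
  rcases hQ with rfl | hQ
  · rw [add_zero]; exact Or.inr hP
  have hP0 : P ≠ 0 := by
    rintro rfl
    rw [nx_zero, norm_zero] at hP
    linarith
  have hQ0 : Q ≠ 0 := by
    rintro rfl
    rw [nx_zero, norm_zero] at hQ
    linarith
  have h2n : ‖(2 : K)‖ ≤ 1 := h.norm_ofNat_le 2
  by_cases hx : nx P = nx Q
  · rcases (nx_eq_iff hd hP0 hQ0).1 hx with rfl | rfl
    · -- doubling
      right
      have hf : ff (nx P) ≠ 0 := by
        intro h0
        have h1 : ‖nx P ^ 3‖ = ‖nx P‖ := by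
          have : nx P ^ 3 = nx P := by
            unfold ff at h0
            linear_combination h0
          rw [this]
        rw [norm_pow] at h1
        nlinarith [norm_nonneg (nx P), sq_nonneg (‖nx P‖)]
      obtain ⟨-, h1⟩ := nx_double hd hP0 hf
      have h3 := congrArg norm h1
      have hlt : ‖nx P‖ < ‖nx P ^ 3‖ := by
        rw [norm_pow]
        have : 1 < ‖nx P‖ := lt_of_lt_of_le hR hP
        nlinarith [sq_nonneg (‖nx P‖)]
      have h4 : ‖ff (nx P)‖ = ‖nx P‖ ^ 3 := by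
        unfold ff
        rw [sub_eq_add_neg, h.norm_sum_eq (by rwa [norm_neg]), norm_pow]
      have h5 : ‖nx P ^ 2 + 1‖ = ‖nx P‖ ^ 2 := by
        rw [h.norm_sum_eq, norm_pow]
        rw [norm_one, norm_pow]
        have : 1 < ‖nx P‖ := lt_of_lt_of_le hR hP
        nlinarith
      rw [norm_mul, norm_mul, h4, norm_pow, h5] at h3
      have h6 : ‖(4 : K)‖ ≤ 1 := h.norm_ofNat_le 4
      have h7 : 1 < ‖nx P‖ := lt_of_lt_of_le hR hP
      have h8 : 0 < ‖nx P‖ ^ 3 := by positivity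
      have h9 : ‖nx P‖ * ‖nx P‖ ^ 3 ≤ ‖nx (P + P)‖ * ‖nx P‖ ^ 3 := by
        calc ‖nx P‖ * ‖nx P‖ ^ 3 = (‖nx P‖ ^ 2) ^ 2 := by ring
          _ = ‖nx (P + P)‖ * (‖(4 : K)‖ * ‖nx P‖ ^ 3) := h3.symm
          _ ≤ ‖nx (P + P)‖ * (1 * ‖nx P‖ ^ 3) := by gcongr
          _ = _ := by ring
      exact hP.trans (le_of_mul_le_mul_right h9 h8)
    · left; exact neg_add_cancel Q
  · right
    have hs := nx_add_add hd hP0 hQ0 hx
    have hp := nx_add_mul hd hP0 hQ0 hx
    set x := nx P with hxdef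
    set y := nx Q with hydef
    set a := nx (P + Q) with ha
    set b := nx (P - Q) with hb
    have hx1 : 1 < ‖x‖ := lt_of_lt_of_le hR hP
    have hy1 : 1 < ‖y‖ := lt_of_lt_of_le hR hQ
    have hxy1 : 1 < ‖x * y‖ := by rw [norm_mul]; nlinarith
    have hp' : ‖a‖ * ‖b‖ * ‖x - y‖ ^ 2 = (‖x‖ * ‖y‖) ^ 2 := by
      have := congrArg norm hp
      rw [norm_mul, norm_mul, norm_pow, norm_pow, h.norm_sum_eq (by rwa [norm_one]),
        norm_mul] at this
      exact this
    have hs' : ‖a + b‖ * ‖x - y‖ ^ 2 ≤ ‖x‖ * ‖y‖ * ‖x + y‖ := by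
      have := congrArg norm hs
      rw [norm_mul, norm_pow] at this
      rw [this, norm_mul, norm_mul, sub_eq_add_neg, h.norm_sum_eq (by rwa [norm_neg, norm_one]),
        norm_mul]
      have h0 : 0 ≤ ‖x‖ * ‖y‖ * ‖x + y‖ := by positivity
      nlinarith
    have hxy : 0 < ‖x - y‖ := norm_pos_iff.2 (sub_ne_zero.2 hx)
    by_contra hlt
    push Not at hlt
    have hm : ‖a‖ < min ‖x‖ ‖y‖ := lt_of_lt_of_le hlt (le_min hP hQ)
    have ht : ‖x - y‖ ≤ max ‖x‖ ‖y‖ := h.norm_sub_le x y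
    have hw : ‖x + y‖ ≤ max ‖x‖ ‖y‖ := h.ultra x y
    have hmM : min ‖x‖ ‖y‖ * max ‖x‖ ‖y‖ = ‖x‖ * ‖y‖ := min_mul_max _ _
    have hM : 0 < max ‖x‖ ‖y‖ := lt_max_of_lt_left (by linarith)
    have hm0 : 0 < min ‖x‖ ‖y‖ := lt_min (by linarith) (by linarith)
    have ha0 := norm_nonneg a
    have hb0 := norm_nonneg b
    rw [← hmM] at hp' hs'
    set m := min ‖x‖ ‖y‖ with hmdef
    set M := max ‖x‖ ‖y‖ with hMdef
    have haM : ‖a‖ * M < m * M := mul_lt_mul_of_pos_right hm hM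
    have hab : ‖a‖ < ‖b‖ := by
      by_contra hc
      push Not at hc
      have e1 : (m * M) ^ 2 ≤ (‖a‖ * M) ^ 2 := by
        rw [← hp']
        calc ‖a‖ * ‖b‖ * ‖x - y‖ ^ 2 ≤ ‖a‖ * ‖a‖ * M ^ 2 := by gcongr
          _ = (‖a‖ * M) ^ 2 := by ring
      have e2 : (‖a‖ * M) ^ 2 < (m * M) ^ 2 := by
        apply pow_lt_pow_left₀ haM (by positivity) (by norm_num)
      linarith
    have hz : ‖a + b‖ = ‖b‖ := by rw [add_comm]; exact h.norm_sum_eq hab
    rw [hz] at hs'
    have e3 : (m * M) * (m * M) ≤ (m * M) * (‖a‖ * M) := by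
      calc (m * M) * (m * M) = ‖a‖ * (‖b‖ * ‖x - y‖ ^ 2) := by rw [← sq, ← hp']; ring
        _ ≤ ‖a‖ * (m * M * ‖x + y‖) := by gcongr
        _ ≤ ‖a‖ * (m * M * M) := by gcongr
        _ = _ := by ring
    have e4 := le_of_mul_le_mul_left e3 (mul_pos hm0 hM)
    linarith

/-- `nb π d n` is closed under the action of `ℤ[i]` -/
theorem nb_smul [NeZero (2 : K)] [DecidableEq K] (d : Kˣ) (n : ℕ) (α : GaussianInt)
    {P : E (d : K)} (hP : P ∈ nb π (d : K) n) : α • P ∈ nb π (d : K) n := by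
  have hd := d.ne_zero
  have hnat : ∀ (k : ℕ) (Q : E (d : K)), Q ∈ nb π (d : K) n → k • Q ∈ nb π (d : K) n := by
    intro k Q hQ
    induction k with
    | zero => rw [zero_smul]; exact zero_mem_nbh _ _ _
    | succ k ih => rw [add_smul, one_smul]; exact h.nb_add hd n ih hQ
  have hint : ∀ (k : ℤ) (Q : E (d : K)), Q ∈ nb π (d : K) n → k • Q ∈ nb π (d : K) n := by
    intro k Q hQ
    rcases Int.natAbs_eq k with hk | hk
    · rw [hk, natCast_zsmul]; exact hnat _ Q hQ
    · rw [hk, neg_smul, natCast_zsmul]; exact neg_mem_nbh (hnat _ Q hQ)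
  have him : im d.ne_zero P ∈ nb π (d : K) n := by
    rw [mem_nbh_iff hd] at hP ⊢
    rcases hP with rfl | hP
    · left; exact map_zero _
    · right
      have : nx (im d.ne_zero P) = - nx P := by unfold nx; rw [xc_im]; ring
      rwa [this, norm_neg]
  rw [smul_def]
  exact h.nb_add hd n (hint _ _ hP) (hint _ _ him)

/-- the submodule of points near zero -/
def nbS [NeZero (2 : K)] [DecidableEq K] (d : Kˣ) (n : ℕ) : Submodule GaussianInt (E (d : K)) where
  carrier := nb π (d : K) n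
  add_mem' := fun ha hb => h.nb_add d.ne_zero n ha hb
  zero_mem' := zero_mem_nbh _ _ _
  smul_mem' := fun α _ hP => h.nb_smul d n α hP

theorem mem_nbS [NeZero (2 : K)] [DecidableEq K] (d : Kˣ) (n : ℕ) (P : E (d : K)) :
    P ∈ h.nbS d n ↔ P ∈ nb π (d : K) n := Iff.rfl

/-- points with the same residue differ, up to sign, by a point near zero (`π ∤ 2`) -/
theorem res_diff [NeZero (2 : K)] [DecidableEq K] (h2 : ¬ π ∣ 2) {d : K} (hd : d ≠ 0) {P Q : E d}
    (hP : P ≠ 0) (hQ : Q ≠ 0) (hx : ‖nx P‖ ≤ 1) (hy : ‖nx Q‖ ≤ 1) (hxy : ‖nx P - nx Q‖ < 1) :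
    P - Q ∈ nb π d 0 ∨ P + Q ∈ nb π d 0 := by
  rw [h.mem_nb_zero_iff hd, h.mem_nb_zero_iff hd]
  by_cases hne : nx P = nx Q
  · rcases (nx_eq_iff hd hP hQ).1 hne with rfl | rfl
    · left; left; exact sub_self P
    · right; left; exact neg_add_cancel Q
  · have hs := nx_add_add hd hP hQ hne
    have hp := nx_add_mul hd hP hQ hne
    set x := nx P with hxdef
    set y := nx Q with hydef
    set a := nx (P + Q) with ha
    set b := nx (P - Q) with hb
    have ht : 0 < ‖x - y‖ := norm_pos_iff.2 (sub_ne_zero.2 hne)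
    have h2' : ‖(2 : K)‖ = 1 := h.norm_two h2
    by_contra hcon
    push Not at hcon
    obtain ⟨⟨-, hb1⟩, ⟨-, ha1⟩⟩ := hcon
    have ht2 : ‖x - y‖ ^ 2 < 1 := by nlinarith
    have hxy1 : ‖x * y + 1‖ < 1 := by
      by_contra hc
      push Not at hc
      have := congrArg norm hp
      rw [norm_mul, norm_mul, norm_pow, norm_pow] at this
      have h3 : 1 ≤ ‖x * y + 1‖ ^ 2 := one_le_pow₀ hc
      have h4 : ‖a‖ * ‖b‖ ≤ 1 := by nlinarith [norm_nonneg a, norm_nonneg b]
      have h5 : ‖a‖ * ‖b‖ * ‖x - y‖ ^ 2 ≤ 1 * ‖x - y‖ ^ 2 := by gcongr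
      linarith
    have hx1 : ‖x‖ = 1 := by
      apply le_antisymm hx
      by_contra hc
      push Not at hc
      have h3 : ‖x * y‖ < 1 := by rw [norm_mul]; nlinarith [norm_nonneg x, norm_nonneg y]
      have h4 : ‖1 + x * y‖ = ‖(1 : K)‖ := h.norm_sum_eq (by rwa [norm_one])
      rw [add_comm, h4, norm_one] at hxy1
      exact lt_irrefl _ hxy1
    have h3 : ‖x * y - 1‖ = 1 := by
      have : x * y - 1 = -2 + (x * y + 1) := by ring
      rw [this, h.norm_sum_eq (by rwa [norm_neg, h2']), norm_neg, h2']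
    have h4 : ‖x + y‖ = 1 := by
      have : x + y = 2 * x + (y - x) := by ring
      rw [this, h.norm_sum_eq, norm_mul, h2', hx1, one_mul]
      rw [norm_mul, h2', hx1, one_mul, ← neg_sub, norm_neg]
      exact hxy
    have h5 := congrArg norm hs
    rw [norm_mul, norm_mul, norm_mul, norm_pow, h2', h3, h4] at h5
    have h6 : ‖a + b‖ ≤ 1 := (h.ultra a b).trans (max_le ha1 hb1)
    have h7 : ‖a + b‖ * ‖x - y‖ ^ 2 ≤ 1 * ‖x - y‖ ^ 2 := by gcongr
    linarith

end LocHyp

end GWA
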